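import Pool.Agent.SAIL.HAT.Targets

/-!
SAIL, part H, triangles: soundness of the finite check of a family.
-/

namespace SAIL.H

open Matrix MeasureTheory SAIL SAIL.A SAIL.F

namespace CUTx

/-- Membership in the lattice, for functions. -/
def Lam (F : Fm) (f : Fin 3 → ℤ) : Prop := inL F (f 0, f 1, f 2) = true

/-- Some row is negative on the vector. -/
def Cut (D : M3) (f : Fin 3 → ℤ) : Prop := ∃ r, ∑ j, D r j * (f j : ℝ) < 0

/-- Positive entries, dominant diagonal. -/
structure Dg (D : M3) : Prop where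
  pos : ∀ i j, 0 < D i j
  dom : ∀ i, ∑ j, D i j < 2 * D i i

lemma sum3 {i m t : Fin 3} (h1 : i ≠ m) (h2 : i ≠ t) (h3 : m ≠ t) (g : Fin 3 → ℝ) :
    ∑ j, g j = g i + g m + g t := by
  rw [Fin.sum_univ_three]
  fin_cases i <;> fin_cases m <;> fin_cases t <;> simp at h1 h2 h3 ⊢ <;> ring

lemma ne1 (i : Fin 3) : i ≠ i + 1 := by fin_cases i <;> simp
lemma ne2 (i : Fin 3) : i ≠ i + 2 := by fin_cases i <;> simp
lemma ne3 (i : Fin 3) : i + 1 ≠ i + 2 := by fin_cases i <;> simp

lemma lt_diag {D : M3} (h : Dg D) {i j : Fin 3} (hij : i ≠ j) : D i j < D i i := by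
  have h1 := h.dom i
  obtain ⟨l, hl1, hl2⟩ : ∃ l : Fin 3, i ≠ l ∧ j ≠ l := by
    fin_cases i <;> fin_cases j <;> simp at hij ⊢ <;> decide
  rw [sum3 hij hl1 hl2] at h1
  have h2 := h.pos i l
  linarith

lemma lam_iff (F : Fm) (f : Fin 3 → ℤ) : Lam F f ↔
    F.k ∣ F.a * f 0 + F.p * f 1 + F.q * f 2 ∧ F.k ∣ F.b * f 1 + F.r * f 2 ∧
      F.k ∣ F.c * f 2 := by
  unfold Lam inL
  simp only [Bool.and_eq_true, beq_iff_eq, and_assoc]
  exact ⟨fun h => ⟨Int.dvd_of_emod_eq_zero h.1, Int.dvd_of_emod_eq_zero h.2.1,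
    Int.dvd_of_emod_eq_zero h.2.2⟩, fun h => ⟨Int.emod_eq_zero_of_dvd h.1,
    Int.emod_eq_zero_of_dvd h.2.1, Int.emod_eq_zero_of_dvd h.2.2⟩⟩

lemma lam_add {F : Fm} {f g : Fin 3 → ℤ} (hf : Lam F f) (hg : Lam F g) :
    Lam F (fun j => f j + g j) := by
  rw [lam_iff] at *
  obtain ⟨h1, h2, h3⟩ := hf
  obtain ⟨g1, g2, g3⟩ := hg
  refine ⟨?_, ?_, ?_⟩
  · have := dvd_add h1 g1
    ring_nf at this ⊢
    exact this
  · have := dvd_add h2 g2
    ring_nf at this ⊢
    exact this
  · have := dvd_add h3 g3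
    ring_nf at this ⊢
    exact this

lemma lam_k (F : Fm) (h : Fin 3 → ℤ) : Lam F (fun j => F.k * h j) := by
  rw [lam_iff]
  refine ⟨⟨F.a * h 0 + F.p * h 1 + F.q * h 2, by ring⟩, ⟨F.b * h 1 + F.r * h 2, by ring⟩,
    ⟨F.c * h 2, by ring⟩⟩

lemma okr_rot {F : Fm} {f : Fin 3 → ℤ} (i : Fin 3)
    (h : okr F (f i, f (i + 1), f (i + 2)) = true) : okv F (f 0, f 1, f 2) = true := by
  simp only [okr, rt, Bool.and_eq_true] at h
  fin_cases i
  · exact h.1.1
  · exact h.2
  · exact h.1.2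

/-- Large negative coordinate. -/
lemma cut_auto {D : M3} (h : Dg D) {f : Fin 3 → ℤ} {i m t : Fin 3} (h1 : i ≠ m) (h2 : i ≠ t)
    (h3 : m ≠ t) (hi : f i < 0) (hm : f m ≤ -f i) (ht : f t ≤ -f i) : Cut D f := by
  refine ⟨i, ?_⟩
  rw [sum3 h1 h2 h3]
  have hd := h.dom i
  rw [sum3 h1 h2 h3] at hd
  have p1 := h.pos i m
  have p2 := h.pos i t
  have hi' : (f i : ℝ) < 0 := by exact_mod_cast hi
  have hm' : (f m : ℝ) ≤ -f i := by exact_mod_cast hm
  have ht' : (f t : ℝ) ≤ -f i := by exact_mod_cast ht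
  have e1 := mul_le_mul_of_nonneg_left hm' p1.le
  have e2 := mul_le_mul_of_nonneg_left ht' p2.le
  have e3 : 0 < D i i - D i m - D i t := by linarith
  have e4 : (D i i - D i m - D i t) * (f i : ℝ) < 0 := mul_neg_of_pos_of_neg e3 hi'
  nlinarith

/-- Domination. -/
lemma cut_dom {D : M3} (h : Dg D) {f g : Fin 3 → ℤ} {x y : ℤ} (hy : 0 < y) (hx : 0 < x)
    (hle : ∀ j, f j * y ≤ x * g j) (hg : Cut D g) : Cut D f := by
  obtain ⟨r, hr⟩ := hg
  refine ⟨r, ?_⟩
  have hy' : (0 : ℝ) < y := by exact_mod_cast hy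
  have hx' : (0 : ℝ) < x := by exact_mod_cast hx
  have h1 : (∑ j, D r j * (f j : ℝ)) * y ≤ x * ∑ j, D r j * (g j : ℝ) := by
    rw [Finset.sum_mul, Finset.mul_sum]
    refine Finset.sum_le_sum fun j _ => ?_
    have h2 : (f j : ℝ) * y ≤ x * g j := by exact_mod_cast hle j
    have h3 := mul_le_mul_of_nonneg_left h2 (h.pos r j).le
    calc D r j * (f j : ℝ) * y = D r j * ((f j : ℝ) * y) := by ring
      _ ≤ D r j * (x * g j) := h3
      _ = x * (D r j * (g j : ℝ)) := by ring
  have h4 : (x : ℝ) * ∑ j, D r j * (g j : ℝ) < 0 := mul_neg_of_pos_of_neg hx' hr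
  by_contra hn
  have h5 : 0 ≤ (∑ j, D r j * (f j : ℝ)) * y := mul_nonneg (not_lt.1 hn) hy'.le
  linarith

lemma leR_spec {e z : Z3} {x y : ℤ} (h : leR e z x y = true) :
    0 < |x| ∧ 0 < |y| ∧ e.1 * |y| ≤ |x| * z.1 ∧ e.2.1 * |y| ≤ |x| * z.2.1 ∧
      e.2.2 * |y| ≤ |x| * z.2.2 := by
  simp only [leR, Bool.and_eq_true, decide_eq_true_eq] at h
  obtain ⟨⟨⟨h1, h2⟩, h3⟩, h4⟩ := h
  have hx : x ≠ 0 := by
    rintro rfl
    simp at h1
  have hy : y ≠ 0 := by
    rintro rfl
    simp at h1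
  exact ⟨abs_pos.2 hx, abs_pos.2 hy, h2, h3, h4⟩

/-- Harmless lattice vectors are cut. -/
lemma cut_okv {F : Fm} {D : M3} (hD : D ∈ R F.L) {f : Fin 3 → ℤ}
    (hok : okv F (f 0, f 1, f 2) = true) (hL : Lam F f) : Cut D f := by
  have hdg : Dg D := ⟨hD.1, hD.2.1⟩
  unfold Lam at hL
  simp only [okv, Bool.or_eq_true, hL, Bool.not_true, Bool.false_eq_true, false_or] at hok
  rcases hok with h | h
  · simp only [autoC, Bool.or_eq_true, Bool.and_eq_true, decide_eq_true_eq] at h
    rcases h with (⟨⟨h1, h2⟩, h3⟩ | ⟨⟨h1, h2⟩, h3⟩) | ⟨⟨h1, h2⟩, h3⟩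
    · exact cut_auto hdg (i := 0) (m := 1) (t := 2) (by decide) (by decide) (by decide) h1 h2 h3
    · exact cut_auto hdg (i := 1) (m := 0) (t := 2) (by decide) (by decide) (by decide) h1 h2 h3
    · exact cut_auto hdg (i := 2) (m := 0) (t := 1) (by decide) (by decide) (by decide) h1 h2 h3
  · rw [List.any_eq_true] at h
    obtain ⟨z, hz, hdom⟩ := h
    have hcz : Cut D (zf z) := hD.2.2 z hz
    have key : ∀ x y : ℤ, leR (f 0, f 1, f 2) z x y = true → Cut D f := by
      intro x y hxy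
      obtain ⟨k1, k2, k3, k4, k5⟩ := leR_spec hxy
      refine cut_dom hdg k2 k1 ?_ hcz
      intro j
      fin_cases j
      · exact k3
      · exact k4
      · exact k5
    simp only [domB, Bool.or_eq_true] at hdom
    rcases hdom with (h1 | h1) | h1
    · exact key _ _ h1
    · exact key _ _ h1
    · exact key _ _ h1

/-- The checks of a family. -/
structure Ck (F : Fm) : Prop where
  kp : 0 < F.k
  c0 : ∀ x y z : ℕ, (x : ℤ) < F.k → (y : ℤ) < F.k → (z : ℤ) < F.k → (x : ℤ) + y + z < F.k →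
    inL F (x, y, z) = true → x = 0 ∧ y = 0 ∧ z = 0
  v1 : okr F (2 * F.k, -F.k, 0) = true
  v2 : okr F (2 * F.k, 0, -F.k) = true
  v3 : okr F (3 * F.k, -F.k, -F.k) = true
  c1 : ∀ n x y : ℕ, (n : ℤ) < F.k → (x : ℤ) ≤ 2 * F.k → (y : ℤ) ≤ 2 * F.k →
    (x : ℤ) + y ≤ F.k + n + 1 → okr F (-((n : ℤ) + 1), x, y) = true
  c2 : ∀ c t s : ℕ, 0 < c → (c : ℤ) < 2 * F.k → (t : ℤ) < F.k → (s : ℤ) < F.k →
    okr F (F.k + 2 * c + t - s, -((c : ℤ) + t), -(c : ℤ)) = true ∧
    okr F (F.k + 2 * c + t - s, -(c : ℤ), -((c : ℤ) + t)) = true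

lemma ck_of_chk {F : Fm} (h : chk F = true) : Ck F := by
  simp only [chk, Bool.and_eq_true, decide_eq_true_eq, List.all_eq_true, List.mem_range,
    Bool.or_eq_true, Bool.not_eq_true'] at h
  obtain ⟨⟨⟨⟨⟨⟨ha, hb⟩, hc⟩, h0⟩, ⟨h1, h2⟩, h3⟩, h4⟩, h5⟩ := h
  have hk : 0 < F.k := by
    unfold Fm.k
    positivity
  refine ⟨hk, ?_, h1, h2, h3, ?_, ?_⟩
  · intro x y z hx hy hz hs hin
    rcases h0 x (by omega) y (by omega) z (by omega) with (h6 | h6) | h6
    · omega
    · exact ⟨by omega, by omega, by omega⟩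
    · rw [hin] at h6
      exact absurd h6 (by simp)
  · intro n x y hn hx hy hs
    rcases h4 n (by omega) x (by omega) y (by omega) with h6 | h6
    · omega
    · exact h6
  · intro c t s hc0 hc' ht hs
    rcases h5 c (by omega) t (by omega) s (by omega) with h6 | h6
    · omega
    · exact h6

/-- The induction step: moving `k` from the large coordinate to the negative one. -/
lemma step {D : M3} (h : Dg D) {f f' : Fin 3 → ℤ} {i m t : Fin 3} (h1 : i ≠ m) (h2 : i ≠ t)
    (h3 : m ≠ t) {k : ℤ} (hk : 0 < k) (ei : f' i = f i + k) (em : f' m = f m - k)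
    (et : f' t = f t) (hi : f' i < 0) (hm : -f' i < f' m) (ht : 0 ≤ f t) (hc : Cut D f') :
    Cut D f := by
  obtain ⟨r, hr⟩ := hc
  rw [sum3 h1 h2 h3] at hr
  have hk' : (0 : ℝ) < k := by exact_mod_cast hk
  have hi' : (f' i : ℝ) < 0 := by exact_mod_cast hi
  have hm' : -(f' i : ℝ) < f' m := by exact_mod_cast hm
  have ht' : (0 : ℝ) ≤ f' t := by
    rw [et]
    exact_mod_cast ht
  have ei' : (f i : ℝ) = f' i - k := by
    rw [ei]
    push_cast
    ring
  have em' : (f m : ℝ) = f' m + k := by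
    rw [em]
    push_cast
    ring
  have et' : (f t : ℝ) = f' t := by rw [et]
  have hsum : ∀ r, ∑ j, D r j * (f j : ℝ) =
      (D r i * (f' i : ℝ) + D r m * (f' m : ℝ) + D r t * (f' t : ℝ)) + k * (D r m - D r i) := by
    intro r
    rw [sum3 h1 h2 h3, ei', em', et']
    ring
  have hr3 : r = i ∨ r = m ∨ r = t := by
    clear hr
    fin_cases i <;> fin_cases m <;> fin_cases t <;> simp at h1 h2 h3 <;> fin_cases r <;> simp
  rcases hr3 with rfl | rfl | rfl
  · refine ⟨r, ?_⟩
    rw [hsum]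
    have h4 := lt_diag h h1
    nlinarith
  · exfalso
    have h4 := lt_diag h (Ne.symm h1)
    have p1 := h.pos r i
    have p2 := h.pos r t
    have q1 : 0 ≤ D r t * (f' t : ℝ) := mul_nonneg p2.le ht'
    have q2 : D r i * (-(f' i : ℝ)) < D r i * f' r := mul_lt_mul_of_pos_left hm' p1
    have q3 : D r i * (f' r : ℝ) < D r r * f' r := mul_lt_mul_of_pos_right h4 (by linarith)
    linarith
  · refine ⟨r, ?_⟩
    rw [hsum]
    have p1 := h.pos r i
    have p2 := h.pos r r
    have q1 : 0 ≤ D r r * (f' r : ℝ) := mul_nonneg p2.le ht'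
    have q2 : D r i * (-(f' i : ℝ)) < D r i * f' m := mul_lt_mul_of_pos_left hm' p1
    have q3 : D r m * (f' m : ℝ) < D r i * f' m := by linarith
    have q4 : D r m < D r i := lt_of_mul_lt_mul_right q3 (by linarith)
    nlinarith

lemma base_one {F : Fm} (hF : Ck F) {D : M3} (hD : D ∈ R F.L) {f : Fin 3 → ℤ} {i : Fin 3}
    (hn : f i < 0) (hn2 : -f i ≤ F.k) (hx : 0 ≤ f (i + 1)) (hy : 0 ≤ f (i + 2)) (hL : Lam F f)
    (hs : f i + f (i + 1) + f (i + 2) ≤ F.k) : Cut D f := by
  refine cut_okv hD (okr_rot i ?_) hL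
  have h1 := hF.c1 (-f i - 1).toNat (f (i + 1)).toNat (f (i + 2)).toNat (by omega) (by omega)
    (by omega) (by omega)
  rw [Int.toNat_of_nonneg (by omega), Int.toNat_of_nonneg hx, Int.toNat_of_nonneg hy] at h1
  have e1 : -(-f i - 1 + 1) = f i := by ring
  rw [e1] at h1
  exact h1

/-- One negative coordinate. -/
lemma one_neg {F : Fm} (hF : Ck F) {D : M3} (hD : D ∈ R F.L) (n : ℕ) :
    ∀ (f : Fin 3 → ℤ) (i : Fin 3), f i = -(n : ℤ) → 1 ≤ n → 0 ≤ f (i + 1) → 0 ≤ f (i + 2) →
      Lam F f → f i + f (i + 1) + f (i + 2) ≤ F.k → Cut D f := by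
  have hdg : Dg D := ⟨hD.1, hD.2.1⟩
  have hk := hF.kp
  induction n using Nat.strong_induction_on with
  | _ n ih =>
    intro f i hi hn hx hy hL hs
    by_cases hnk : (n : ℤ) ≤ F.k
    · exact base_one hF hD (by omega) (by omega) hx hy hL hs
    · have main : ∀ m t : Fin 3, i ≠ m → i ≠ t → m ≠ t → f t ≤ f m → 0 ≤ f t → 0 ≤ f m →
          Cut D f := by
        intro m t h1 h2 h3 htm ht hm
        by_cases hmn : f m ≤ n
        · exact cut_auto hdg h1 h2 h3 (by omega) (by omega) (by omega)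
        · set f' : Fin 3 → ℤ := fun j => f j +
            F.k * ((if j = i then 1 else 0) - (if j = m then 1 else 0)) with hf'
          have ei : f' i = f i + F.k := by
            simp [hf', h1]
          have em : f' m = f m - F.k := by
            simp [hf', Ne.symm h1]
            ring
          have et : f' t = f t := by
            simp [hf', Ne.symm h2, Ne.symm h3]
          have hL' : Lam F f' := lam_add hL (lam_k F _)
          have hcov : (i + 1 = m ∧ i + 2 = t) ∨ (i + 1 = t ∧ i + 2 = m) := by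
            clear_value f'
            clear ei em et hL' hf' hmn htm ht hm ih hi hx hy hL hs
            fin_cases i <;> fin_cases m <;> fin_cases t <;> simp at h1 h2 h3 ⊢
          have hcut : Cut D f' := by
            refine ih (n - F.k.toNat) (by omega) f' i ?_ ?_ ?_ ?_ hL' ?_
            · rw [ei, hi]
              omega
            · omega
            · rcases hcov with ⟨e1, e2⟩ | ⟨e1, e2⟩
              · rw [e1, em]
                omega
              · rw [e1, et]
                exact ht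
            · rcases hcov with ⟨e1, e2⟩ | ⟨e1, e2⟩
              · rw [e2, et]
                exact ht
              · rw [e2, em]
                omega
            · rcases hcov with ⟨e1, e2⟩ | ⟨e1, e2⟩
              · rw [e1, e2] at hs ⊢
                rw [ei, em, et]
                omega
              · rw [e1, e2] at hs ⊢
                rw [ei, em, et]
                omega
          exact step hdg h1 h2 h3 hk ei em et (by omega) (by omega) ht hcut
      rcases le_total (f (i + 1)) (f (i + 2)) with h | h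
      · exact main (i + 2) (i + 1) (ne2 i) (ne1 i) (ne3 i).symm h hx hy
      · exact main (i + 1) (i + 2) (ne1 i) (ne2 i) (ne3 i) h hy hx

lemma fin3_cases (i j : Fin 3) : j = i ∨ j = i + 1 ∨ j = i + 2 := by
  fin_cases i <;> fin_cases j <;> simp

/-- One positive coordinate. -/
lemma one_pos' {F : Fm} (hF : Ck F) {D : M3} (hD : D ∈ R F.L) {f : Fin 3 → ℤ} {i : Fin 3}
    (hi : 0 < f i) (hx : f (i + 1) < 0) (hy : f (i + 2) < 0) (hL : Lam F f)
    (hs : f i + f (i + 1) + f (i + 2) ≤ F.k) : Cut D f := by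
  have hdg : Dg D := ⟨hD.1, hD.2.1⟩
  have hk := hF.kp
  have dom : ∀ (u v w x : ℤ), okr F (F.k * u, F.k * v, F.k * w) = true → 0 < x →
      f i ≤ x * u → f (i + 1) ≤ x * v → f (i + 2) ≤ x * w → Cut D f := by
    intro u v w x hok hx0 h1 h2 h3
    obtain ⟨g, g0, g1, g2⟩ : ∃ g : Fin 3 → ℤ, g i = u ∧ g (i + 1) = v ∧ g (i + 2) = w := by
      refine ⟨fun j => if j = i then u else if j = i + 1 then v else w, if_pos rfl, ?_, ?_⟩
      · simp only [(ne1 i).symm, if_false, if_true]
      · simp only [(ne2 i).symm, (ne3 i).symm, if_false]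
    have hcut : Cut D (fun j => F.k * g j) := by
      have hok' : okr F ((fun j => F.k * g j) i, (fun j => F.k * g j) (i + 1),
          (fun j => F.k * g j) (i + 2)) = true := by
        show okr F (F.k * g i, F.k * g (i + 1), F.k * g (i + 2)) = true
        rw [g0, g1, g2]
        exact hok
      exact cut_okv (f := fun j => F.k * g j) hD (okr_rot (f := fun j => F.k * g j) i hok')
        (lam_k F g)
    refine cut_dom hdg hk hx0 (fun j => ?_) hcut
    show f j * F.k ≤ x * (F.k * g j)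
    have hgj : f j ≤ x * g j := by
      rcases fin3_cases i j with rfl | rfl | rfl
      · rw [g0]; exact h1
      · rw [g1]; exact h2
      · rw [g2]; exact h3
    calc f j * F.k ≤ x * g j * F.k := mul_le_mul_of_nonneg_right hgj hk.le
      _ = x * (F.k * g j) := by ring
  by_cases h1 : f i ≤ -f (i + 1) * 2
  · refine dom 2 (-1) 0 (-f (i + 1)) ?_ (by omega) h1 (by omega) (by omega)
    rw [mul_comm F.k 2, mul_neg_one, mul_zero]
    exact hF.v1
  by_cases h2 : f i ≤ -f (i + 2) * 2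
  · refine dom 2 0 (-1) (-f (i + 2)) ?_ (by omega) h2 (by omega) (by omega)
    rw [mul_comm F.k 2, mul_neg_one, mul_zero]
    exact hF.v2
  have v3 : okr F (F.k * 3, F.k * (-1), F.k * (-1)) = true := by
    rw [mul_comm F.k 3, mul_neg_one]
    exact hF.v3
  rcases le_total (f (i + 1)) (f (i + 2)) with h5 | h5
  · by_cases h3 : f i ≤ -f (i + 2) * 3
    · exact dom 3 (-1) (-1) (-f (i + 2)) v3 (by omega) h3 (by omega) (by omega)
    · refine cut_okv hD (okr_rot i ?_) hL
      have h6 := (hF.c2 (-f (i + 2)).toNat (-f (i + 1) + f (i + 2)).toNat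
        (F.k - f (i + 1) - f (i + 2) - f i).toNat (by omega) (by omega) (by omega) (by omega)).1
      rw [Int.toNat_of_nonneg (by omega), Int.toNat_of_nonneg (by omega),
        Int.toNat_of_nonneg (by omega)] at h6
      have e1 : F.k + 2 * -f (i + 2) + (-f (i + 1) + f (i + 2)) -
          (F.k - f (i + 1) - f (i + 2) - f i) = f i := by ring
      have e2 : -(-f (i + 2) + (-f (i + 1) + f (i + 2))) = f (i + 1) := by ring
      rw [e1, e2, neg_neg] at h6
      exact h6
  · by_cases h3 : f i ≤ -f (i + 1) * 3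
    · exact dom 3 (-1) (-1) (-f (i + 1)) v3 (by omega) h3 (by omega) (by omega)
    · refine cut_okv hD (okr_rot i ?_) hL
      have h6 := (hF.c2 (-f (i + 1)).toNat (-f (i + 2) + f (i + 1)).toNat
        (F.k - f (i + 1) - f (i + 2) - f i).toNat (by omega) (by omega) (by omega) (by omega)).2
      rw [Int.toNat_of_nonneg (by omega), Int.toNat_of_nonneg (by omega),
        Int.toNat_of_nonneg (by omega)] at h6
      have e1 : F.k + 2 * -f (i + 1) + (-f (i + 2) + f (i + 1)) -
          (F.k - f (i + 1) - f (i + 2) - f i) = f i := by ring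
      have e2 : -(-f (i + 1) + (-f (i + 2) + f (i + 1))) = f (i + 2) := by ring
      rw [e1, e2, neg_neg] at h6
      exact h6

/-- All coordinates nonpositive. -/
lemma cut_neg {D : M3} (h : Dg D) {f : Fin 3 → ℤ} (h0 : ∀ i, f i ≤ 0) {i : Fin 3}
    (hi : f i < 0) : Cut D f := by
  refine ⟨0, ?_⟩
  refine Finset.sum_neg' (fun j _ => ?_) ⟨i, Finset.mem_univ i, ?_⟩
  · have h1 : (f j : ℝ) ≤ 0 := by exact_mod_cast h0 j
    exact mul_nonpos_of_nonneg_of_nonpos (h.pos 0 j).le h1
  · have h1 : (f i : ℝ) < 0 := by exact_mod_cast hi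
    exact mul_neg_of_pos_of_neg (h.pos 0 i) h1

lemma all3 {P : Fin 3 → Prop} (i : Fin 3) (h0 : P i) (h1 : P (i + 1)) (h2 : P (i + 2)) :
    ∀ j, P j := by
  intro j
  rcases fin3_cases i j with rfl | rfl | rfl <;> assumption

lemma main {F : Fm} (hF : Ck F) {D : M3} (hD : D ∈ R F.L) {f : Fin 3 → ℤ} (hL : Lam F f)
    (hne : f ≠ 0) (hc : ¬ Cut D f) (hs : f 0 + f 1 + f 2 ≤ F.k) :
    (∀ i, 0 ≤ f i) ∧ f 0 + f 1 + f 2 = F.k := by
  have hdg : Dg D := ⟨hD.1, hD.2.1⟩
  have hk := hF.kp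
  have hsi : ∀ i : Fin 3, f i + f (i + 1) + f (i + 2) ≤ F.k := by
    intro i
    fin_cases i
    · exact hs
    · have : f 1 + f 2 + f 0 ≤ F.k := by linarith
      exact this
    · have : f 2 + f 0 + f 1 ≤ F.k := by linarith
      exact this
  have hnn : ∀ i, 0 ≤ f i := by
    by_contra hcon
    push Not at hcon
    obtain ⟨i, hi⟩ := hcon
    apply hc
    by_cases h1 : 0 ≤ f (i + 1)
    · by_cases h2 : 0 ≤ f (i + 2)
      · exact one_neg hF hD (-f i).toNat f i (by omega) (by omega) h1 h2 hL (hsi i)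
      · -- negative at i, i+2
        by_cases h3 : f (i + 1) = 0
        · exact cut_neg hdg (all3 i hi.le (by omega) (by omega)) hi
        · have e1 : i + 1 + 1 = i + 2 := by fin_cases i <;> rfl
          have e2 : i + 1 + 2 = i := by fin_cases i <;> rfl
          refine one_pos' hF hD (i := i + 1) (by omega) ?_ ?_ hL (hsi (i + 1))
          · rw [e1]
            omega
          · rw [e2]
            exact hi
    · by_cases h2 : 0 < f (i + 2)
      · have e1 : i + 2 + 1 = i := by fin_cases i <;> rfl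
        have e2 : i + 2 + 2 = i + 1 := by fin_cases i <;> rfl
        refine one_pos' hF hD (i := i + 2) h2 ?_ ?_ hL (hsi (i + 2))
        · rw [e1]
          exact hi
        · rw [e2]
          omega
      · exact cut_neg hdg (all3 i hi.le (by omega) (by omega)) hi
  refine ⟨hnn, ?_⟩
  by_contra hlt
  have h0 := hnn 0
  have h1 := hnn 1
  have h2 := hnn 2
  have h3 := hF.c0 (f 0).toNat (f 1).toNat (f 2).toNat (by omega) (by omega) (by omega)
    (by omega) (by
      rw [Int.toNat_of_nonneg h0, Int.toNat_of_nonneg h1, Int.toNat_of_nonneg h2]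
      exact hL)
  apply hne
  funext j
  have : ∀ j, f j = 0 := all3 0 (by omega) (by
    have : f 1 = 0 := by omega
    exact this) (by
    have : f 2 = 0 := by omega
    exact this)
  exact this j

end CUTx

/-- Soundness of the finite check of a family. -/
theorem p_CUT : tCUT := by
  intro F hF D hD e hin hne hrow hs
  obtain ⟨x, y, z⟩ := e
  have hz : ∀ j, zf (x, y, z) j = (![x, y, z] : Fin 3 → ℤ) j := fun j => rfl
  have h := CUTx.main (CUTx.ck_of_chk hF) hD (f := zf (x, y, z)) hin ?_ ?_ hs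
  · exact ⟨⟨h.1 0, h.1 1, h.1 2⟩, h.2⟩
  · intro h0
    apply hne
    have h1 : x = 0 := congrFun h0 0
    have h2 : y = 0 := congrFun h0 1
    have h3 : z = 0 := congrFun h0 2
    rw [h1, h2, h3]
    rfl
  · rintro ⟨r, hr⟩
    exact absurd hr (not_lt.2 (hrow r))

end SAIL.H
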