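import Pool.Agent.SAIL.HAT.Targets

/-!
SAIL, part H, triangles: the fast computation is a lower bound for the sum.
-/

namespace SAIL.H.EVx

open Matrix MeasureTheory SAIL SAIL.A SAIL.F SAIL.H

theorem mk_tb (l : List Bool) (i : ℕ) : (mk l).testBit i = l.getD i false := by
  induction l generalizing i with
  | nil => simp [mk]
  | cons b l ih =>
    cases i with
    | zero => cases b <;> simp [mk, Nat.testBit_zero]
    | succ i =>
      rw [mk, Nat.testBit_succ]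
      have h : (2 * mk l + (if b then 1 else 0)) / 2 = mk l := by
        cases b
        · simp
        · simp; omega
      rw [h, ih]
      simp

theorem sub_tb {u m : ℕ} (h : ((u &&& m) == m) = true) (i : ℕ) (hi : m.testBit i = true) :
    u.testBit i = true := by
  have h1 : (u &&& m) = m := by simpa using h
  have h2 : (u &&& m).testBit i = true := by rw [h1, hi]
  rw [Nat.testBit_and] at h2
  simp at h2
  exact h2.1

theorem tb_map (Zs : List Z3) (f : Z3 → Bool) (i : ℕ) (hi : i < Zs.length) :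
    (mk (Zs.map f)).testBit i = f Zs[i] := by
  rw [mk_tb]
  simp [List.getD, hi]

theorem acc_of (d : ℕ) (Zs : List Z3) (F : Fm) (t0 t1 t2 : Tg) (hF : ∀ z ∈ F.L, z ∈ Zs)
    (h : ((((rec' d Zs t0).m0 ||| (rec' d Zs t1).m1 ||| (rec' d Zs t2).m2) &&& fmk Zs F)
      == fmk Zs F) = true) : acc d F.L t0 t1 t2 = true := by
  rw [acc, List.all_eq_true]
  intro z hz
  obtain ⟨i, hi, rfl⟩ := List.getElem_of_mem (hF z hz)
  have h1 : (fmk Zs F).testBit i = true := by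
    rw [fmk, tb_map _ _ _ hi]
    simpa using hz
  have h2 := sub_tb h i h1
  rw [Nat.testBit_or, Nat.testBit_or] at h2
  simp only [rec'] at h2
  rw [tb_map _ _ _ hi, tb_map _ _ _ hi, tb_map _ _ _ hi] at h2
  exact h2

theorem cnt_le (d : ℕ) (Zs : List Z3) (t0 t1 t2 : Tg) (FL : List Fm)
    (hF : ∀ F ∈ FL, ∀ z ∈ F.L, z ∈ Zs) :
    cntM (FL.map (fmk Zs)) ((rec' d Zs t0).m0 ||| (rec' d Zs t1).m1 ||| (rec' d Zs t2).m2) ≤
      FL.countP fun F => acc d F.L t0 t1 t2 := by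
  rw [cntM, List.countP_map]
  apply List.countP_mono_left
  intro F hF' h
  exact acc_of d Zs F t0 t1 t2 (hF F hF') (by simpa using h)

theorem in2_eq (d M m : ℕ) (ms : List ℕ) (r0 r1 : Rec) (u : ℕ) (l : List Rec) (s : ℕ) :
    in2 d M m ms r0 r1 u l s = s + (l.map fun r2 =>
      bif ((u ||| r2.m2) &&& m) == m then
        cntM ms (u ||| r2.m2) * (r0.A * r1.A * r2.A * M / Dn d r0 r1 r2 ^ 3) else 0).sum := by
  induction l generalizing s with
  | nil => simp [in2]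
  | cons r2 l ih =>
    rw [in2, ih]
    simp only [List.map_cons, List.sum_cons]
    cases (((u ||| r2.m2) &&& m) == m)
    · simp
    · simp; ring

theorem in1_eq (d M m : ℕ) (ms : List ℕ) (rs : List Rec) (r0 : Rec) (l : List Rec) (s : ℕ) :
    in1 d M m ms rs r0 l s = s + (l.map fun r1 =>
      in2 d M m ms r0 r1 (r0.m0 ||| r1.m1) rs 0).sum := by
  induction l generalizing s with
  | nil => simp [in1]
  | cons r1 l ih =>
    rw [in1, ih]
    simp only [List.map_cons, List.sum_cons]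
    rw [in2_eq (s := s), in2_eq (s := 0)]
    ring

theorem in0_eq (d M m : ℕ) (ms : List ℕ) (rs : List Rec) (l : List Rec) (s : ℕ) :
    in0 d M m ms rs l s = s + (l.map fun r0 => in1 d M m ms rs r0 rs 0).sum := by
  induction l generalizing s with
  | nil => simp [in0]
  | cons r0 l ih =>
    rw [in0, ih]
    simp only [List.map_cons, List.sum_cons]
    rw [in1_eq (s := s), in1_eq (s := 0)]
    ring

theorem dn_eq (d : ℕ) (hd : 0 < d) (Zs : List Z3) (t0 t1 t2 : Tg)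
    (h : 0 < dt (gc (rp d t0.ax t0.ay) (rp d t0.bx t0.by') (rp d t0.cx t0.cy))
      (gc (rp d t1.ax t1.ay) (rp d t1.bx t1.by') (rp d t1.cx t1.cy))
      (gc (rp d t2.ax t2.ay) (rp d t2.bx t2.by') (rp d t2.cx t2.cy))) :
    ((Dn d (rec' d Zs t0) (rec' d Zs t1) (rec' d Zs t2) : ℕ) : ℝ) = 27 * (d : ℝ) ^ 3 *
      dt (gc (rp d t0.ax t0.ay) (rp d t0.bx t0.by') (rp d t0.cx t0.cy))
      (gc (rp d t1.ax t1.ay) (rp d t1.bx t1.by') (rp d t1.cx t1.cy))
      (gc (rp d t2.ax t2.ay) (rp d t2.bx t2.by') (rp d t2.cx t2.cy)) := by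
  have hd' : (0 : ℝ) < d := by exact_mod_cast hd
  have key : 27 * (d : ℝ) ^ 3 *
      dt (gc (rp d t0.ax t0.ay) (rp d t0.bx t0.by') (rp d t0.cx t0.cy))
      (gc (rp d t1.ax t1.ay) (rp d t1.bx t1.by') (rp d t1.cx t1.cy))
      (gc (rp d t2.ax t2.ay) (rp d t2.bx t2.by') (rp d t2.cx t2.cy)) =
      ((27 * d ^ 3 + (t0.ax + t0.bx + t0.cx) * (t1.ax + t1.bx + t1.cx) * (t2.ax + t2.bx + t2.cx)
        + (t0.ay + t0.by' + t0.cy) * (t1.ay + t1.by' + t1.cy) * (t2.ay + t2.by' + t2.cy) : ℕ) : ℝ)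
      - ((3 * d * ((t0.ax + t0.bx + t0.cx) * (t1.ay + t1.by' + t1.cy)
        + (t1.ax + t1.bx + t1.cx) * (t2.ay + t2.by' + t2.cy)
        + (t2.ax + t2.bx + t2.cx) * (t0.ay + t0.by' + t0.cy)) : ℕ) : ℝ) := by
    simp only [dt, gc, rp]
    push_cast
    field_simp
    ring
  have hpos : 0 < 27 * (d : ℝ) ^ 3 *
      dt (gc (rp d t0.ax t0.ay) (rp d t0.bx t0.by') (rp d t0.cx t0.cy))
      (gc (rp d t1.ax t1.ay) (rp d t1.bx t1.by') (rp d t1.cx t1.cy))
      (gc (rp d t2.ax t2.ay) (rp d t2.bx t2.by') (rp d t2.cx t2.cy)) := by positivity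
  rw [key] at hpos ⊢
  simp only [Dn, rec']
  rw [Nat.cast_sub]
  have h3 := sub_pos.mp hpos
  exact_mod_cast h3.le

theorem wR_eq (d : ℕ) (hd : 0 < d) (Zs : List Z3) (t0 t1 t2 : Tg)
    (h : 0 < dt (gc (rp d t0.ax t0.ay) (rp d t0.bx t0.by') (rp d t0.cx t0.cy))
      (gc (rp d t1.ax t1.ay) (rp d t1.bx t1.by') (rp d t1.cx t1.cy))
      (gc (rp d t2.ax t2.ay) (rp d t2.bx t2.by') (rp d t2.cx t2.cy))) :
    wR d t0 t1 t2 = (t0.A : ℝ) * t1.A * t2.A /
      ((Dn d (rec' d Zs t0) (rec' d Zs t1) (rec' d Zs t2) : ℕ) : ℝ) ^ 3 *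
      (6561 / 8 * (d : ℝ) ^ 3) := by
  have hd' : (0 : ℝ) < d := by exact_mod_cast hd
  rw [dn_eq d hd Zs t0 t1 t2 h]
  simp only [wR]
  generalize dt (gc (rp d t0.ax t0.ay) (rp d t0.bx t0.by') (rp d t0.cx t0.cy))
      (gc (rp d t1.ax t1.ay) (rp d t1.bx t1.by') (rp d t1.cx t1.cy))
      (gc (rp d t2.ax t2.ay) (rp d t2.bx t2.by') (rp d t2.cx t2.cy)) = D at h
  field_simp
  ring

theorem term_le (d M m : ℕ) (hd : 0 < d) (hM : 0 < M) (Zs : List Z3) (FL : List Fm)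
    (hF : ∀ F ∈ FL, ∀ z ∈ F.L, z ∈ Zs) (t0 t1 t2 : Tg)
    (h : 0 < dt (gc (rp d t0.ax t0.ay) (rp d t0.bx t0.by') (rp d t0.cx t0.cy))
      (gc (rp d t1.ax t1.ay) (rp d t1.bx t1.by') (rp d t1.cx t1.cy))
      (gc (rp d t2.ax t2.ay) (rp d t2.bx t2.by') (rp d t2.cx t2.cy))) :
    (((bif (((rec' d Zs t0).m0 ||| (rec' d Zs t1).m1 ||| (rec' d Zs t2).m2) &&& m) == m then
        cntM (FL.map (fmk Zs)) ((rec' d Zs t0).m0 ||| (rec' d Zs t1).m1 ||| (rec' d Zs t2).m2) *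
        ((rec' d Zs t0).A * (rec' d Zs t1).A * (rec' d Zs t2).A * M /
          Dn d (rec' d Zs t0) (rec' d Zs t1) (rec' d Zs t2) ^ 3) else 0 : ℕ)) : ℝ) / M *
      (6561 / 8 * (d : ℝ) ^ 3) ≤
    ((FL.countP fun F => acc d F.L t0 t1 t2 : ℕ) : ℝ) * wR d t0 t1 t2 := by
  have hd' : (0 : ℝ) < d := by exact_mod_cast hd
  have hM' : (0 : ℝ) < M := by exact_mod_cast hM
  have hD : (0 : ℝ) < ((Dn d (rec' d Zs t0) (rec' d Zs t1) (rec' d Zs t2) : ℕ) : ℝ) := by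
    rw [dn_eq d hd Zs t0 t1 t2 h]; positivity
  rw [wR_eq d hd Zs t0 t1 t2 h]
  have hc := cnt_le d Zs t0 t1 t2 FL hF
  have hc' : ((cntM (FL.map (fmk Zs))
      ((rec' d Zs t0).m0 ||| (rec' d Zs t1).m1 ||| (rec' d Zs t2).m2) : ℕ) : ℝ) ≤
      ((FL.countP fun F => acc d F.L t0 t1 t2 : ℕ) : ℝ) := by exact_mod_cast hc
  have hq : (((rec' d Zs t0).A * (rec' d Zs t1).A * (rec' d Zs t2).A * M /
          Dn d (rec' d Zs t0) (rec' d Zs t1) (rec' d Zs t2) ^ 3 : ℕ) : ℝ) ≤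
      (t0.A : ℝ) * t1.A * t2.A * M /
      ((Dn d (rec' d Zs t0) (rec' d Zs t1) (rec' d Zs t2) : ℕ) : ℝ) ^ 3 := by
    refine le_trans Nat.cast_div_le ?_
    push_cast
    simp only [rec']
    exact le_refl _
  generalize ((FL.countP fun F => acc d F.L t0 t1 t2 : ℕ) : ℝ) = c at hc'
  generalize (Dn d (rec' d Zs t0) (rec' d Zs t1) (rec' d Zs t2) : ℕ) = D at hD hq
  generalize (cntM (FL.map (fmk Zs))
      ((rec' d Zs t0).m0 ||| (rec' d Zs t1).m1 ||| (rec' d Zs t2).m2) : ℕ) = n at hc'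
  have hn : (0 : ℝ) ≤ (n : ℝ) := Nat.cast_nonneg n
  have hc0 : 0 ≤ c := le_trans hn hc'
  have hR : (0 : ℝ) ≤ c * ((t0.A : ℝ) * t1.A * t2.A / (D : ℝ) ^ 3 *
      (6561 / 8 * (d : ℝ) ^ 3)) := by positivity
  cases hb : ((((rec' d Zs t0).m0 ||| (rec' d Zs t1).m1 ||| (rec' d Zs t2).m2) &&& m) == m)
  · simp only [cond_false, Nat.cast_zero, zero_div, zero_mul]
    exact hR
  · simp only [cond_true]
    have h1 : ((n * ((rec' d Zs t0).A * (rec' d Zs t1).A * (rec' d Zs t2).A * M / D ^ 3) : ℕ) :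
        ℝ) ≤ c * ((t0.A : ℝ) * t1.A * t2.A * M / (D : ℝ) ^ 3) := by
      rw [Nat.cast_mul]
      exact mul_le_mul hc' hq (Nat.cast_nonneg _) hc0
    calc ((n * ((rec' d Zs t0).A * (rec' d Zs t1).A * (rec' d Zs t2).A * M / D ^ 3) : ℕ) :
        ℝ) / M * (6561 / 8 * (d : ℝ) ^ 3)
        ≤ c * ((t0.A : ℝ) * t1.A * t2.A * M / (D : ℝ) ^ 3) / M * (6561 / 8 * (d : ℝ) ^ 3) := by
          gcongr
      _ = c * ((t0.A : ℝ) * t1.A * t2.A / (D : ℝ) ^ 3 * (6561 / 8 * (d : ℝ) ^ 3)) := by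
          field_simp

/-- Sum of naturals over a list, divided by `M` and multiplied by `c`, against a real sum. -/
theorem sum_le {α : Type*} (l : List α) (f : α → ℕ) (g : α → ℝ) (M : ℕ) (c : ℝ)
    (h : ∀ a ∈ l, (f a : ℝ) / M * c ≤ g a) :
    (((l.map f).sum : ℕ) : ℝ) / M * c ≤ (l.map g).sum := by
  induction l with
  | nil => simp
  | cons a l ih =>
    simp only [List.map_cons, List.sum_cons]
    have h1 := h a (by simp)
    have h2 := ih (fun b hb => h b (by simp [hb]))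
    push_cast
    rw [add_div, add_mul]
    push_cast at h2
    linarith

end SAIL.H.EVx

namespace SAIL.H

open SAIL.H.EVx

/-- The fast computation is a lower bound for the sum. -/
theorem p_EV (h1 : tGEO) (h2 : tREG) : tEV := by
  intro d M m Zs FL P hd hM hP hF
  have hdt : ∀ t0 ∈ P, ∀ t1 ∈ P, ∀ t2 ∈ P,
      0 < dt (gc (rp d t0.ax t0.ay) (rp d t0.bx t0.by') (rp d t0.cx t0.cy))
      (gc (rp d t1.ax t1.ay) (rp d t1.bx t1.by') (rp d t1.cx t1.cy))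
      (gc (rp d t2.ax t2.ay) (rp d t2.bx t2.by') (rp d t2.cx t2.cy)) := by
    intro t0 h0 t1 h1' t2 h2'
    exact h2.1 _ (h1 d t0 hd (hP t0 h0)).2.2.2.2.1 _ (h1 d t1 hd (hP t1 h1')).2.2.2.2.1 _
      (h1 d t2 hd (hP t2 h2')).2.2.2.2.1
  rw [tot, SR, in0_eq, zero_add, List.map_map]
  apply sum_le
  intro t0 h0
  simp only [Function.comp]
  rw [in1_eq, zero_add, List.map_map]
  apply sum_le
  intro t1 h1'
  simp only [Function.comp]
  rw [in2_eq, zero_add, List.map_map]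
  apply sum_le
  intro t2 h2'
  simp only [Function.comp]
  exact term_le d M m hd hM Zs FL hF t0 t1 t2 (hdt t0 h0 t1 h1' t2 h2')

end SAIL.H
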