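import Pool.Agent.SAIL.HAT.Targets

/-!
SAIL, part H, triangles, target `tFAM`: checked families are families in the sense of part A.
-/

namespace SAIL.H

open Matrix MeasureTheory SAIL SAIL.A SAIL.F

namespace FAMx

lemma det_E (F : Fm) : F.E.det = F.k := by
  unfold Fm.E Fm.k
  rw [Matrix.det_fin_three]
  simp only [Matrix.of_apply, Matrix.cons_val', Matrix.cons_val_zero, Matrix.cons_val_one,
    Matrix.cons_val, Matrix.cons_val_fin_one]
  ring

lemma pos_of_chk {F : Fm} (h : chk F = true) : 0 < F.a ∧ 0 < F.b ∧ 0 < F.c := by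
  unfold chk at h
  simp only [Bool.and_eq_true, decide_eq_true_eq] at h
  obtain ⟨⟨⟨⟨⟨⟨h1, h2⟩, h3⟩, -⟩, -⟩, -⟩, -⟩ := h
  exact ⟨h1, h2, h3⟩

lemma k_pos {F : Fm} (h : chk F = true) : 0 < F.k := by
  obtain ⟨h1, h2, h3⟩ := pos_of_chk h
  exact mul_pos (mul_pos h1 h2) h3

/-- `E η = k z` for `η = adj E z`. -/
lemma E_eta (F : Fm) (z : Fin 3 → ℤ) : F.E *ᵥ (F.E.adjugate *ᵥ z) = F.k • z := by
  rw [Matrix.mulVec_mulVec, Matrix.mul_adjugate, det_E, Matrix.smul_mulVec, Matrix.one_mulVec]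

lemma rows (F : Fm) (v : Fin 3 → ℤ) : (F.E *ᵥ v) 0 = F.a * v 0 + F.p * v 1 + F.q * v 2 ∧
    (F.E *ᵥ v) 1 = F.b * v 1 + F.r * v 2 ∧ (F.E *ᵥ v) 2 = F.c * v 2 := by
  unfold Fm.E
  refine ⟨?_, ?_, ?_⟩ <;>
  simp [Matrix.mulVec, dotProduct, Fin.sum_univ_three]

end FAMx

open FAMx

theorem p_FAM (hCUT : tCUT) (hREG : tREG) : tFAM := by
  intro F hF
  have hk := k_pos hF
  obtain ⟨hopen, -, hent, hscal⟩ := hREG.2 F.L
  refine ⟨by rw [det_E]; exact hk, hopen, hent, hscal, ?_⟩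
  intro D hD z hz hcone hsum
  rw [det_E] at hsum ⊢
  set v : Fin 3 → ℤ := F.E.adjugate *ᵥ z with hv
  have hE : F.E *ᵥ v = F.k • z := E_eta F z
  obtain ⟨r0, r1, r2⟩ := rows F v
  rw [hE] at r0 r1 r2
  simp only [Pi.smul_apply, smul_eq_mul] at r0 r1 r2
  set e : Z3 := (v 0, v 1, v 2) with he
  have hzf : zf e = v := by
    funext j
    fin_cases j <;> rfl
  have hin : inL F e = true := by
    unfold inL
    simp only [Bool.and_eq_true, beq_iff_eq, he]
    rw [← r0, ← r1, ← r2]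
    exact ⟨⟨Int.mul_emod_right _ _, Int.mul_emod_right _ _⟩, Int.mul_emod_right _ _⟩
  have hne : e ≠ 0 := by
    intro h0
    have hv0 : v = 0 := by
      rw [← hzf, h0]
      funext j
      fin_cases j <;> rfl
    rw [hv0, Matrix.mulVec_zero] at hE
    apply hz
    funext j
    have := congrFun hE j
    simp only [Pi.zero_apply, Pi.smul_apply, smul_eq_mul] at this
    rcases mul_eq_zero.mp this.symm with h | h
    · exact absurd h hk.ne'
    · exact h
  have hc : ∀ i, 0 ≤ ∑ j, D i j * (zf e j : ℝ) := by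
    intro i
    have := hcone i
    rw [hzf]
    simpa [Matrix.mulVec, dotProduct] using this
  rw [Fin.sum_univ_three] at hsum ⊢
  obtain ⟨⟨h1, h2, h3⟩, h4⟩ := hCUT F hF D hD e hin hne hc hsum
  refine ⟨?_, h4⟩
  intro j
  fin_cases j
  · exact h1
  · exact h2
  · exact h3

end SAIL.H
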