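import Pool.Agent.SAIL.HAT.Targets

/-!
SAIL, part H, triangles: geometry of integer triangles.
-/

set_option autoImplicit false

namespace SAIL.H

open Matrix MeasureTheory SAIL SAIL.A SAIL.F

namespace GEOx

/-- barycentric coordinates -/
lemma bary (a b c p : ℝ × ℝ) (α β γ : ℝ) :
    cr a b c * (α + β * p.1 + γ * p.2) = cr b c p * (α + β * a.1 + γ * a.2) +
      cr c a p * (α + β * b.1 + γ * b.2) + cr a b p * (α + β * c.1 + γ * c.2) := by
  unfold cr
  ring

lemma pos_on {a b c p : ℝ × ℝ} (hc : 0 < cr a b c) (hp : p ∈ Tr a b c) (α β γ : ℝ)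
    (fa : 0 ≤ α + β * a.1 + γ * a.2) (fb : 0 ≤ α + β * b.1 + γ * b.2)
    (fc : 0 ≤ α + β * c.1 + γ * c.2)
    (hne : ¬ (α + β * a.1 + γ * a.2 = 0 ∧ α + β * b.1 + γ * b.2 = 0 ∧
      α + β * c.1 + γ * c.2 = 0)) : 0 < α + β * p.1 + γ * p.2 := by
  obtain ⟨h1, h2, h3⟩ := hp
  have h := bary a b c p α β γ
  have e1 := mul_nonneg h2.le fa
  have e2 := mul_nonneg h3.le fb
  have e3 := mul_nonneg h1.le fc
  by_contra hn
  push Not at hn
  have h4 : cr a b c * (α + β * p.1 + γ * p.2) ≤ 0 := mul_nonpos_of_nonneg_of_nonpos hc.le hn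
  have z1 : cr b c p * (α + β * a.1 + γ * a.2) = 0 := by linarith
  have z2 : cr c a p * (α + β * b.1 + γ * b.2) = 0 := by linarith
  have z3 : cr a b p * (α + β * c.1 + γ * c.2) = 0 := by linarith
  exact hne ⟨(mul_eq_zero.mp z1).resolve_left h2.ne', (mul_eq_zero.mp z2).resolve_left h3.ne',
    (mul_eq_zero.mp z3).resolve_left h1.ne'⟩

lemma nonpos_on {a b c p : ℝ × ℝ} (hc : 0 < cr a b c) (hp : p ∈ Tr a b c) (α β γ : ℝ)
    (fa : α + β * a.1 + γ * a.2 ≤ 0) (fb : α + β * b.1 + γ * b.2 ≤ 0)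
    (fc : α + β * c.1 + γ * c.2 ≤ 0) : α + β * p.1 + γ * p.2 ≤ 0 := by
  obtain ⟨h1, h2, h3⟩ := hp
  have h := bary a b c p α β γ
  have e1 := mul_nonpos_of_nonneg_of_nonpos h2.le fa
  have e2 := mul_nonpos_of_nonneg_of_nonpos h3.le fb
  have e3 := mul_nonpos_of_nonneg_of_nonpos h1.le fc
  by_contra hn
  push Not at hn
  have h4 : 0 < cr a b c * (α + β * p.1 + γ * p.2) := mul_pos hc hn
  linarith

lemma sep {a b c p u v : ℝ × ℝ} (hc : 0 < cr a b c) (hp : p ∈ Tr a b c)
    (fa : cr u v a ≤ 0) (fb : cr u v b ≤ 0) (fc : cr u v c ≤ 0) : cr u v p ≤ 0 := by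
  have e : ∀ q : ℝ × ℝ, cr u v q = ((v.2 - u.2) * u.1 - (v.1 - u.1) * u.2) +
      (-(v.2 - u.2)) * q.1 + (v.1 - u.1) * q.2 := by
    intro q
    unfold cr
    ring
  rw [e] at fa fb fc ⊢
  exact nonpos_on hc hp _ _ _ fa fb fc

lemma cr_rp (d : ℕ) (hd : 0 < d) (ax ay bx by' cx cy : ℕ) :
    cr (rp d ax ay) (rp d bx by') (rp d cx cy) =
      (((ax * by' + bx * cy + cx * ay : ℕ) : ℝ) - ((ay * bx + by' * cx + cy * ax : ℕ) : ℝ)) /
        d ^ 2 := by
  have hd' : (d : ℝ) ≠ 0 := by positivity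
  unfold cr rp
  push_cast
  field_simp
  ring

lemma npo_cr (d : ℕ) (hd : 0 < d) (ax ay bx by' cx cy : ℕ) (h : npo ax ay bx by' cx cy = true) :
    cr (rp d ax ay) (rp d bx by') (rp d cx cy) ≤ 0 := by
  unfold npo at h
  have h1 := of_decide_eq_true h
  rw [cr_rp d hd]
  have h2 : ((ax * by' + bx * cy + cx * ay : ℕ) : ℝ) ≤
      ((ay * bx + by' * cx + cy * ax : ℕ) : ℝ) := by exact_mod_cast h1
  apply div_nonpos_of_nonpos_of_nonneg
  · linarith
  · positivity

lemma area (d : ℕ) (hd : 0 < d) (t : Tg) (hA : 0 < t.A) :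
    cr (rp d t.ax t.ay) (rp d t.bx t.by') (rp d t.cx t.cy) = (t.A : ℝ) / d ^ 2 := by
  rw [cr_rp d hd]
  congr 1
  unfold Tg.A at hA ⊢
  rw [Nat.cast_sub (by omega)]

/-- an edge separates -/
lemma sep_disj (d : ℕ) (hd : 0 < d) (s : Tg) (hs : 0 < s.A) (ax ay bx by' : ℕ)
    (h : sepE ax ay bx by' s = true) (p : ℝ × ℝ) (hp : p ∈ s.S d) :
    cr (rp d ax ay) (rp d bx by') p ≤ 0 := by
  unfold sepE at h
  simp only [Bool.and_eq_true] at h
  have hc : 0 < cr (rp d s.ax s.ay) (rp d s.bx s.by') (rp d s.cx s.cy) := by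
    rw [area d hd s hs]
    positivity
  exact sep hc hp (npo_cr d hd _ _ _ _ _ _ h.1.1) (npo_cr d hd _ _ _ _ _ _ h.1.2)
    (npo_cr d hd _ _ _ _ _ _ h.2)

lemma cr_cycl (a b c : ℝ × ℝ) : cr b c a = cr a b c := by unfold cr; ring

lemma gc_mem {a b c : ℝ × ℝ} (h : 0 < cr a b c) : gc a b c ∈ Tr a b c := by
  have e1 : cr a b (gc a b c) = cr a b c / 3 := by unfold cr gc; ring
  have e2 : cr b c (gc a b c) = cr a b c / 3 := by unfold cr gc; ring
  have e3 : cr c a (gc a b c) = cr a b c / 3 := by unfold cr gc; ring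
  refine ⟨?_, ?_, ?_⟩
  · rw [e1]; positivity
  · rw [e2]; positivity
  · rw [e3]; positivity

lemma meas (a b c : ℝ × ℝ) : MeasurableSet (Tr a b c) := by
  have e : Tr a b c = ({p | 0 < cr a b p} ∩ {p | 0 < cr b c p}) ∩ {p | 0 < cr c a p} := by
    ext p
    simp only [Tr, Set.mem_inter_iff, Set.mem_ofPred_eq, and_assoc]
  rw [e]
  have hm : ∀ u v : ℝ × ℝ, Measurable (fun p => cr u v p) := by
    intro u v
    unfold cr
    fun_prop
  exact ((measurableSet_lt measurable_const (hm a b)).inter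
    (measurableSet_lt measurable_const (hm b c))).inter
    (measurableSet_lt measurable_const (hm c a))

end GEOx

open GEOx

theorem p_GEO : tGEO := by
  intro d t hd hok
  unfold Tg.ok at hok
  simp only [Bool.and_eq_true, decide_eq_true_eq] at hok
  obtain ⟨⟨⟨hA, h1⟩, h2⟩, h3⟩ := hok
  have hd' : (0 : ℝ) < d := by exact_mod_cast hd
  have hcr := area d hd t hA
  have hpos : 0 < cr (rp d t.ax t.ay) (rp d t.bx t.by') (rp d t.cx t.cy) := by
    rw [hcr]
    have : (0 : ℝ) < t.A := by exact_mod_cast hA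
    positivity
  have g1 : ((t.ax : ℝ) + t.ay) / d ≤ 1 := by
    rw [div_le_one hd']; exact_mod_cast h1
  have g2 : ((t.bx : ℝ) + t.by') / d ≤ 1 := by
    rw [div_le_one hd']; exact_mod_cast h2
  have g3 : ((t.cx : ℝ) + t.cy) / d ≤ 1 := by
    rw [div_le_one hd']; exact_mod_cast h3
  rw [add_div] at g1 g2 g3
  have hsub : t.S d ⊆ Sim := by
    intro p hp
    refine ⟨?_, ?_, ?_⟩
    · have := pos_on hpos hp 0 1 0 (by simp only [rp]; positivity) (by simp only [rp]; positivity)
        (by simp only [rp]; positivity) (by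
          rintro ⟨e1, e2, e3⟩
          simp only [rp, zero_add, one_mul, zero_mul, add_zero] at e1 e2 e3
          rw [cr] at hpos
          simp only [rp] at hpos
          rw [e1, e2, e3] at hpos
          simp at hpos)
      linarith
    · have := pos_on hpos hp 0 0 1 (by simp only [rp]; positivity) (by simp only [rp]; positivity)
        (by simp only [rp]; positivity) (by
          rintro ⟨e1, e2, e3⟩
          simp only [rp, zero_add, one_mul, zero_mul] at e1 e2 e3
          rw [cr] at hpos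
          simp only [rp] at hpos
          rw [e1, e2, e3] at hpos
          simp at hpos)
      linarith
    · have := pos_on hpos hp 1 (-1) (-1) (by simp only [rp]; linarith)
        (by simp only [rp]; linarith) (by simp only [rp]; linarith) (by
          rintro ⟨e1, e2, e3⟩
          simp only [rp] at e1 e2 e3
          rw [cr] at hpos
          simp only [rp] at hpos
          have f1 : (t.ay : ℝ) / d = 1 - t.ax / d := by linarith
          have f2 : (t.by' : ℝ) / d = 1 - t.bx / d := by linarith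
          have f3 : (t.cy : ℝ) / d = 1 - t.cx / d := by linarith
          rw [f1, f2, f3] at hpos
          have : ((t.bx : ℝ) / d - t.ax / d) * (1 - t.cx / d - (1 - t.ax / d)) -
            (1 - t.bx / d - (1 - t.ax / d)) * (t.cx / d - t.ax / d) = 0 := by ring
          linarith)
      linarith
  refine ⟨meas _ _ _, hsub, hcr, by exact_mod_cast hA, hsub (gc_mem hpos), ?_⟩
  intro s hs hdj
  unfold Tg.ok at hs
  simp only [Bool.and_eq_true, decide_eq_true_eq] at hs
  have hsA := hs.1.1.1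
  rw [Set.disjoint_left]
  intro p hpt hps
  unfold disj at hdj
  simp only [Bool.or_eq_true] at hdj
  rcases hdj with ((((h | h) | h) | h) | h) | h
  · exact absurd (sep_disj d hd s hsA _ _ _ _ h p hps) (not_le.mpr hpt.1)
  · exact absurd (sep_disj d hd s hsA _ _ _ _ h p hps) (not_le.mpr hpt.2.1)
  · exact absurd (sep_disj d hd s hsA _ _ _ _ h p hps) (not_le.mpr hpt.2.2)
  · exact absurd (sep_disj d hd t hA _ _ _ _ h p hpt) (not_le.mpr hps.1)
  · exact absurd (sep_disj d hd t hA _ _ _ _ h p hpt) (not_le.mpr hps.2.1)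
  · exact absurd (sep_disj d hd t hA _ _ _ _ h p hpt) (not_le.mpr hps.2.2)

end SAIL.H
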