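import Pool.Agent.SAIL.HAT.Targets

/-!
SAIL, part H, triangles: assembly.
-/

namespace SAIL.H

open Matrix MeasureTheory SAIL SAIL.A SAIL.F

namespace HTXx

lemma pairwise_of_pwi : ∀ l : List Fm, pwi l = true →
    l.Pairwise (fun F G => ineqv F G = true ∧ ineqv G F = true)
  | [], _ => List.Pairwise.nil
  | F :: l, h => by
    rw [pwi, Bool.and_eq_true, List.all_eq_true] at h
    refine List.Pairwise.cons (fun G hG => ?_) (pairwise_of_pwi l h.2)
    have := h.1 G hG
    rwa [Bool.and_eq_true] at this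

lemma ineqv_get {l : List Fm} (h : pwi l = true) {i j : Fin l.length} (hij : i ≠ j) :
    ineqv (l.get i) (l.get j) = true := by
  have hp := List.pairwise_iff_get.1 (pairwise_of_pwi l h)
  rcases lt_or_gt_of_ne hij with h1 | h1
  · exact (hp i j h1).1
  · exact (hp j i h1).2

lemma pos_of_chk {F : Fm} (h : chk F = true) : 0 < F.a ∧ 0 < F.b ∧ 0 < F.c := by
  unfold chk at h
  simp only [Bool.and_eq_true, decide_eq_true_eq] at h
  exact ⟨h.1.1.1.1.1.1, h.1.1.1.1.1.2, h.1.1.1.1.2⟩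

lemma sum_map_get (l : List Fm) (f : Fm → ENNReal) :
    (l.map f).sum = ∑ i : Fin l.length, f (l.get i) := by
  have h : l.map f = List.ofFn (fun i : Fin l.length => f (l.get i)) := by
    conv_lhs => rw [← List.ofFn_get l]
    rw [List.map_ofFn]
    rfl
  rw [h, List.sum_ofFn]

end HTXx

open HTXx in
theorem p_HTX (hCRT : tCRT) (hEV : tEV) (hSUM : tSUM) (hFAM : tFAM) (hREG : tREG)
    (hINE : tINE) : tHTx := by
  obtain ⟨d, M, m, Zs, FL, P, hd, hM, hok, hpwd, hchk, hpwi, hz, hnum⟩ := hCRT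
  refine ⟨FL.length, fun i => (FL.get i).E, fun i => R (FL.get i).L, fun i => ?_, fun i => ?_,
    fun i j hij γ => ?_, ?_⟩
  · exact hFAM _ (hchk _ (List.get_mem FL i))
  · exact (hREG.2 _).2.1
  · obtain ⟨a1, b1, c1⟩ := pos_of_chk (hchk _ (List.get_mem FL i))
    obtain ⟨a2, b2, c2⟩ := pos_of_chk (hchk _ (List.get_mem FL j))
    exact hINE _ _ a1 b1 c1 a2 b2 c2 (ineqv_get hpwi hij) γ
  · have h1 := hEV d M m Zs FL P hd hM hok (fun F hF z hzF => (hz F hF z hzF).2)
    have h2 := hSUM d FL P hd hok hpwd (fun F hF z hzF => (hz F hF z hzF).1)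
    rw [sum_map_get] at h2
    have hM' : (0 : ℝ) < M := by exact_mod_cast hM
    have h3 : ((8 * 803 * M : ℕ) : ℝ) < ((6561 * d ^ 3 * 10000 * tot d M m Zs FL P : ℕ) : ℝ) := by
      exact_mod_cast hnum
    push_cast at h3
    have h4 : (803 / 10000 : ℝ) < (tot d M m Zs FL P : ℝ) / M * (6561 / 8 * d ^ 3) := by
      rw [div_mul_eq_mul_div, lt_div_iff₀ hM']
      linarith
    have hpos : 0 < SR d FL P := by
      have : (0 : ℝ) < 803 / 10000 := by norm_num
      linarith
    exact ((ENNReal.ofReal_lt_ofReal_iff hpos).2 (lt_of_lt_of_le h4 h1)).trans_le h2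

end SAIL.H
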