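import Pool.Agent.SAIL.HAT.Targets

/-!
SAIL, part H, triangles: accepted triples of triangles lie in the region of the list.
-/

namespace SAIL.H

open Matrix MeasureTheory SAIL SAIL.A SAIL.F

namespace INCx

lemma bary (a b c p : ℝ × ℝ) (α β γ : ℝ) :
    cr a b c * (α + β * p.1 + γ * p.2) =
      cr b c p * (α + β * a.1 + γ * a.2) + cr c a p * (α + β * b.1 + γ * b.2) +
      cr a b p * (α + β * c.1 + γ * c.2) := by
  unfold cr
  ring

lemma neg_tr {a b c p : ℝ × ℝ} (hc : 0 < cr a b c) (hp : p ∈ Tr a b c) {α β γ : ℝ}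
    (h0 : ¬ (α = 0 ∧ β = 0 ∧ γ = 0))
    (fa : α + β * a.1 + γ * a.2 ≤ 0) (fb : α + β * b.1 + γ * b.2 ≤ 0)
    (fc : α + β * c.1 + γ * c.2 ≤ 0) : α + β * p.1 + γ * p.2 < 0 := by
  obtain ⟨h1, h2, h3⟩ := hp
  by_contra hneg
  push Not at hneg
  have e := bary a b c p α β γ
  have e0 : 0 ≤ cr a b c * (α + β * p.1 + γ * p.2) := mul_nonneg hc.le hneg
  have m1 := mul_nonpos_of_nonneg_of_nonpos h2.le fa
  have m2 := mul_nonpos_of_nonneg_of_nonpos h3.le fb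
  have m3 := mul_nonpos_of_nonneg_of_nonpos h1.le fc
  have z1 : α + β * a.1 + γ * a.2 = 0 :=
    (mul_eq_zero.mp (show cr b c p * (α + β * a.1 + γ * a.2) = 0 by linarith)).resolve_left
      h2.ne'
  have z2 : α + β * b.1 + γ * b.2 = 0 :=
    (mul_eq_zero.mp (show cr c a p * (α + β * b.1 + γ * b.2) = 0 by linarith)).resolve_left
      h3.ne'
  have z3 : α + β * c.1 + γ * c.2 = 0 :=
    (mul_eq_zero.mp (show cr a b p * (α + β * c.1 + γ * c.2) = 0 by linarith)).resolve_left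
      h1.ne'
  have hβ : β = 0 := by
    have : β * cr a b c = 0 := by
      unfold cr
      linear_combination (c.2 - a.2) * (z2 - z1) - (b.2 - a.2) * (z3 - z1)
    exact (mul_eq_zero.mp this).resolve_right hc.ne'
  have hγ : γ = 0 := by
    have : γ * cr a b c = 0 := by
      unfold cr
      linear_combination (b.1 - a.1) * (z3 - z1) - (c.1 - a.1) * (z2 - z1)
    exact (mul_eq_zero.mp this).resolve_right hc.ne'
  refine h0 ⟨?_, hβ, hγ⟩
  rw [hβ, hγ] at z1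
  linarith

lemma cv_le {d : ℕ} {z : Z3} {X Y : ℕ} (hd : 0 < d) (h : cv d z X Y = true) :
    (z.1 : ℝ) + (z.2.1 : ℝ) * (rp d X Y).1 + (z.2.2 : ℝ) * (rp d X Y).2 ≤ 0 := by
  have h' : z.1 * d + z.2.1 * X + z.2.2 * Y ≤ 0 := by simpa [cv] using h
  have h2 : ((z.1 * d + z.2.1 * X + z.2.2 * Y : ℤ) : ℝ) ≤ 0 := by exact_mod_cast h'
  push_cast at h2
  have hd' : (0 : ℝ) < d := by exact_mod_cast hd
  have e : (z.1 : ℝ) + (z.2.1 : ℝ) * (rp d X Y).1 + (z.2.2 : ℝ) * (rp d X Y).2 =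
      ((z.1 : ℝ) * d + z.2.1 * X + z.2.2 * Y) / d := by
    unfold rp
    field_simp
  rw [e]
  exact div_nonpos_of_nonpos_of_nonneg h2 hd'.le

lemma key (hG : tGEO) {d : ℕ} {z : Z3} {t : Tg} (hd : 0 < d) (ht : t.ok d = true) (hz : z ≠ 0)
    (h : cT d z t = true) {p : ℝ × ℝ} (hp : p ∈ t.S d) :
    (z.1 : ℝ) + (z.2.1 : ℝ) * p.1 + (z.2.2 : ℝ) * p.2 < 0 := by
  obtain ⟨-, -, hcr, hA, -, -⟩ := hG d t hd ht
  have hc : 0 < cr (rp d t.ax t.ay) (rp d t.bx t.by') (rp d t.cx t.cy) := by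
    rw [hcr]
    have hd' : (0 : ℝ) < d := by exact_mod_cast hd
    positivity
  simp only [cT, Bool.and_eq_true] at h
  refine neg_tr hc hp ?_ (cv_le hd h.1.1) (cv_le hd h.1.2) (cv_le hd h.2)
  rintro ⟨h1, h2, h3⟩
  refine hz ?_
  have e1 : z.1 = 0 := by exact_mod_cast h1
  have e2 : z.2.1 = 0 := by exact_mod_cast h2
  have e3 : z.2.2 = 0 := by exact_mod_cast h3
  exact Prod.ext e1 (Prod.ext e2 e3)

lemma rt_ne {z : Z3} (hz : z ≠ 0) : rt z ≠ 0 := by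
  intro h
  refine hz ?_
  have h1 : z.2.1 = 0 := congrArg Prod.fst h
  have h2 : z.2.2 = 0 := congrArg (fun w : Z3 => w.2.1) h
  have h3 : z.1 = 0 := congrArg (fun w : Z3 => w.2.2) h
  exact Prod.ext h3 (Prod.ext h1 h2)

lemma sim_row {m x y : ℝ} (hm : 0 < m) (h : (x / m, y / m) ∈ Sim) :
    0 < x ∧ 0 < y ∧ x + y < m := by
  obtain ⟨h1, h2, h3⟩ := h
  have h1' : 0 < x / m := h1
  have h2' : 0 < y / m := h2
  have h3' : x / m + y / m < 1 := h3
  refine ⟨?_, ?_, ?_⟩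
  · have := mul_pos h1' hm
    rwa [div_mul_cancel₀ _ hm.ne'] at this
  · have := mul_pos h2' hm
    rwa [div_mul_cancel₀ _ hm.ne'] at this
  · rw [← add_div, div_lt_one hm] at h3'
    exact h3'

lemma row_neg {m x y α β γ : ℝ} (hm : 0 < m) (h : α + β * (x / m) + γ * (y / m) < 0) :
    m * α + x * β + y * γ < 0 := by
  have h1 : (α + β * (x / m) + γ * (y / m)) * m < 0 := mul_neg_of_neg_of_pos h hm
  have e : (α + β * (x / m) + γ * (y / m)) * m = m * α + x * β + y * γ := by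
    field_simp
  linarith

end INCx

open INCx in
theorem p_INC (hG : tGEO) : tINC := by
  intro d L t0 t1 t2 hd h0 h1 h2 hL hacc M hM
  have r0 : 0 < M 0 0 ∧ (M 0 1 / M 0 0, M 0 2 / M 0 0) ∈ t0.S d := hM 0
  have r1 : 0 < M 1 1 ∧ (M 1 2 / M 1 1, M 1 0 / M 1 1) ∈ t1.S d := hM 1
  have r2 : 0 < M 2 2 ∧ (M 2 0 / M 2 2, M 2 1 / M 2 2) ∈ t2.S d := hM 2
  have s0 := sim_row r0.1 ((hG d t0 hd h0).2.1 r0.2)
  have s1 := sim_row r1.1 ((hG d t1 hd h1).2.1 r1.2)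
  have s2 := sim_row r2.1 ((hG d t2 hd h2).2.1 r2.2)
  refine ⟨?_, ?_, ?_⟩
  · intro i j
    fin_cases i <;> fin_cases j
    · exact r0.1
    · exact s0.1
    · exact s0.2.1
    · exact s1.2.1
    · exact r1.1
    · exact s1.1
    · exact s2.1
    · exact s2.2.1
    · exact r2.1
  · intro i
    rw [Fin.sum_univ_three]
    fin_cases i
    · change M 0 0 + M 0 1 + M 0 2 < 2 * M 0 0
      linarith [s0.2.2]
    · change M 1 0 + M 1 1 + M 1 2 < 2 * M 1 1
      linarith [s1.2.2]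
    · change M 2 0 + M 2 1 + M 2 2 < 2 * M 2 2
      linarith [s2.2.2]
  · intro z hz
    have hz0 := hL z hz
    have hcut := List.all_eq_true.mp hacc z hz
    simp only [Bool.or_eq_true] at hcut
    rcases hcut with (hc | hc) | hc
    · refine ⟨0, ?_⟩
      have := row_neg r0.1 (key hG hd h0 hz0 hc r0.2)
      rw [Fin.sum_univ_three]
      change M 0 0 * (z.1 : ℝ) + M 0 1 * (z.2.1 : ℝ) + M 0 2 * (z.2.2 : ℝ) < 0
      exact this
    · refine ⟨1, ?_⟩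
      have := row_neg r1.1 (key hG hd h1 (rt_ne hz0) hc r1.2)
      rw [Fin.sum_univ_three]
      change M 1 0 * (z.1 : ℝ) + M 1 1 * (z.2.1 : ℝ) + M 1 2 * (z.2.2 : ℝ) < 0
      simp only [rt] at this
      linarith
    · refine ⟨2, ?_⟩
      have := row_neg r2.1 (key hG hd h2 (rt_ne (rt_ne hz0)) hc r2.2)
      rw [Fin.sum_univ_three]
      change M 2 0 * (z.1 : ℝ) + M 2 1 * (z.2.1 : ℝ) + M 2 2 * (z.2.2 : ℝ) < 0
      simp only [rt] at this
      linarith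

end SAIL.H
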