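import Pool.Agent.SAIL.HAT.Targets

/-!
SAIL, part H, triangles, target `tINE`: inequivalence of upper triangular lattices.
-/

namespace SAIL.H

open Matrix MeasureTheory SAIL SAIL.A SAIL.F

namespace INEx

lemma det_E (F : Fm) : F.E.det = F.k := by
  unfold Fm.E Fm.k
  rw [Matrix.det_fin_three]
  simp only [Matrix.of_apply, Matrix.cons_val', Matrix.cons_val_zero, Matrix.cons_val_one,
    Matrix.cons_val, Matrix.cons_val_fin_one]
  ring

/-- The adjugate of the upper triangular matrix. -/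
def adjE (F : Fm) : IM :=
  !![F.b * F.c, -(F.p * F.c), F.p * F.r - F.q * F.b; 0, F.a * F.c, -(F.a * F.r); 0, 0, F.a * F.b]

lemma E_adjE (F : Fm) : F.E * adjE F = F.k • (1 : IM) := by
  unfold Fm.E adjE Fm.k
  ext i j
  fin_cases i <;> fin_cases j <;> simp [Matrix.mul_apply, Fin.sum_univ_three] <;> ring

end INEx

open INEx

theorem p_INE : tINE := by
  intro F G hFa hFb hFc hGa hGb hGc h γ hγ
  have hk : F.k = G.k := by
    rw [← det_E, ← det_E, ← hγ, Matrix.det_mul, γ.2, one_mul]
  have hm : G.E * adjE F = F.k • γ.1 := by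
    rw [← hγ, Matrix.mul_assoc, E_adjE, Matrix.mul_smul, Matrix.mul_one]
  have hdv : ∀ i j, (G.E * adjE F) i j % F.k = 0 := by
    intro i j
    rw [hm, Matrix.smul_apply, smul_eq_mul]
    exact Int.mul_emod_right _ _
  have e00 := hdv 0 0
  have e01 := hdv 0 1
  have e02 := hdv 0 2
  have e11 := hdv 1 1
  have e12 := hdv 1 2
  have e22 := hdv 2 2
  simp only [Fm.E, adjE, Matrix.mul_apply, Fin.sum_univ_three, Matrix.of_apply,
    Matrix.cons_val', Matrix.cons_val_zero, Matrix.cons_val_one, Matrix.cons_val,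
    Matrix.empty_val', Matrix.cons_val_fin_one, mul_zero, zero_mul, add_zero, zero_add] at e00 e01 e02 e11 e12 e22
  unfold ineqv at h
  have f01 : (-(G.a * (F.p * F.c)) + G.p * (F.a * F.c)) % F.k = 0 := by
    rw [← e01]; congr 1; ring
  have f02 : (G.a * (F.p * F.r - F.q * F.b) - G.p * (F.a * F.r) + G.q * (F.a * F.b)) % F.k = 0 := by
    rw [← e02]; congr 1; ring
  have f12 : (-(G.b * (F.a * F.r)) + G.r * (F.a * F.b)) % F.k = 0 := by
    rw [← e12]; congr 1; ring
  rw [e00, f01, f02, e11, f12, e22] at h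
  simp [hk] at h

end SAIL.H
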