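import Pool.Agent.SAIL.HAT.Targets

/-!
SAIL, part H, triangles: target JEN (Jensen's inequality in the three rows).
-/

namespace SAIL.H.JENx

open Matrix MeasureTheory SAIL SAIL.A SAIL.F SAIL.H

/-- the tangent line of `1/(3 x^3)` at `c` -/
lemma tan_le {c D : ℝ} (hc : 0 < c) (hD : 0 < D) :
    (4 / c ^ 3 - 3 * D / c ^ 4) / 3 ≤ 1 / (3 * D ^ 3) := by
  have h1 : (4 / c ^ 3 - 3 * D / c ^ 4) / 3 = (4 * c - 3 * D) / (3 * c ^ 4) := by
    field_simp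
  rw [h1, div_le_div_iff₀ (by positivity) (by positivity)]
  nlinarith [sq_nonneg (c ^ 2 - D ^ 2), sq_nonneg (c - D), sq_nonneg (D * (c - D)),
    sq_nonneg (c * D - D ^ 2), sq_nonneg (c ^ 2 - c * D), mul_pos hc hD,
    mul_nonneg (mul_pos hD hD).le (sq_nonneg (c - D))]

lemma aff (hTRI : tTRI) {a b c : ℝ × ℝ} (h : 0 < cr a b c) {f : ℝ × ℝ → ℝ} (α β γ : ℝ)
    (hf : ∀ p, f p = α + β * p.1 + γ * p.2) :
    ENNReal.ofReal (cr a b c / 2 * f (gc a b c)) ≤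
      ∫⁻ p in Tr a b c, ENNReal.ofReal (f p) := by
  have h1 := hTRI a b c h α β γ
  rw [hf]
  simp only [hf]
  exact h1

end SAIL.H.JENx

namespace SAIL.H

open Matrix MeasureTheory SAIL SAIL.A SAIL.F JENx

/-- Jensen's inequality in the three rows. -/
theorem p_JEN (hTRI : tTRI) (hGEO : tGEO) (hREG : tREG) : tJEN := by
  intro d t0 t1 t2 hd h0 h1 h2
  obtain ⟨m0, s0, c0, a0, g0, -⟩ := hGEO d t0 hd h0
  obtain ⟨m1, s1, c1, a1, g1, -⟩ := hGEO d t1 hd h1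
  obtain ⟨m2, s2, c2, a2, g2, -⟩ := hGEO d t2 hd h2
  have hd' : (0 : ℝ) < d := by exact_mod_cast hd
  have q0 : 0 < cr (rp d t0.ax t0.ay) (rp d t0.bx t0.by') (rp d t0.cx t0.cy) := by
    rw [c0]; positivity
  have q1 : 0 < cr (rp d t1.ax t1.ay) (rp d t1.bx t1.by') (rp d t1.cx t1.cy) := by
    rw [c1]; positivity
  have q2 : 0 < cr (rp d t2.ax t2.ay) (rp d t2.bx t2.by') (rp d t2.cx t2.cy) := by
    rw [c2]; positivity
  set G0 := gc (rp d t0.ax t0.ay) (rp d t0.bx t0.by') (rp d t0.cx t0.cy) with hG0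
  set G1 := gc (rp d t1.ax t1.ay) (rp d t1.bx t1.by') (rp d t1.cx t1.cy) with hG1
  set G2 := gc (rp d t2.ax t2.ay) (rp d t2.bx t2.by') (rp d t2.cx t2.cy) with hG2
  have hc : 0 < dt G0 G1 G2 := hREG.1 _ g0 _ g1 _ g2
  set c := dt G0 G1 G2 with hcdef
  set A0 : ℝ := (t0.A : ℝ) / d ^ 2 with hA0
  set A1 : ℝ := (t1.A : ℝ) / d ^ 2 with hA1
  set A2 : ℝ := (t2.A : ℝ) / d ^ 2 with hA2
  let F : ℝ × ℝ → ℝ × ℝ → ℝ × ℝ → ℝ := fun p q r => (4 / c ^ 3 - 3 * dt p q r / c ^ 4) / 3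
  -- integration in the last variable
  have e2 : ∀ p q, ENNReal.ofReal (A2 / 2 * F p q G2) ≤
      ∫⁻ r in t2.S d, ENNReal.ofReal (F p q r) := by
    intro p q
    have := aff hTRI q2 (f := fun r => F p q r)
      ((4 / c ^ 3 - 3 * (1 - p.1 * q.2) / c ^ 4) / 3) (-(p.1 * q.1 - p.2) / c ^ 4)
      (-(p.2 * q.2 - q.1) / c ^ 4) (fun r => by simp only [F, dt]; ring)
    rw [c2] at this
    exact this
  have e1 : ∀ p, ENNReal.ofReal (A1 / 2 * (A2 / 2 * F p G1 G2)) ≤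
      ∫⁻ q in t1.S d, ENNReal.ofReal (A2 / 2 * F p q G2) := by
    intro p
    have := aff hTRI q1 (f := fun q => A2 / 2 * F p q G2)
      (A2 / 2 * ((4 / c ^ 3 - 3 * (1 - G2.1 * p.2) / c ^ 4) / 3))
      (A2 / 2 * (-(p.1 * G2.1 - G2.2) / c ^ 4))
      (A2 / 2 * (-(p.2 * G2.2 - p.1) / c ^ 4)) (fun q => by simp only [F, dt]; ring)
    rw [c1] at this
    exact this
  have e0 : ENNReal.ofReal (A0 / 2 * (A1 / 2 * (A2 / 2 * F G0 G1 G2))) ≤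
      ∫⁻ p in t0.S d, ENNReal.ofReal (A1 / 2 * (A2 / 2 * F p G1 G2)) := by
    have := aff hTRI q0 (f := fun p => A1 / 2 * (A2 / 2 * F p G1 G2))
      (A1 / 2 * (A2 / 2 * ((4 / c ^ 3 - 3 * (1 - G1.1 * G2.2) / c ^ 4) / 3)))
      (A1 / 2 * (A2 / 2 * (-(G1.1 * G2.1 - G1.2) / c ^ 4)))
      (A1 / 2 * (A2 / 2 * (-(G1.2 * G2.2 - G2.1) / c ^ 4))) (fun p => by simp only [F, dt]; ring)
    rw [c0] at this
    exact this
  have hw : wR d t0 t1 t2 = A0 / 2 * (A1 / 2 * (A2 / 2 * F G0 G1 G2)) := by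
    have hF : F G0 G1 G2 = (4 / c ^ 3 - 3 * c / c ^ 4) / 3 := rfl
    have hw' : wR d t0 t1 t2 = A0 * A1 * A2 / (24 * c ^ 3) := rfl
    rw [hF, hw']
    field_simp
    ring
  rw [hw]
  refine e0.trans ?_
  refine setLIntegral_mono' m0 fun p hp => ?_
  refine (e1 p).trans ?_
  refine setLIntegral_mono' m1 fun q hq => ?_
  refine (e2 p q).trans ?_
  refine setLIntegral_mono' m2 fun r hr => ?_
  exact ENNReal.ofReal_le_ofReal (tan_le hc (hREG.1 p (s0 hp) q (s1 hq) r (s2 hr)))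

end SAIL.H
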