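import Pool.Agent.SAIL.HAT.Targets

/-!
SAIL, part H, triangles: target REG (positivity of the determinant, basic facts on `R`).
-/

namespace SAIL.H

open Matrix MeasureTheory SAIL SAIL.A SAIL.F

namespace REGx

/-- The determinant as a sum of products of nonnegative terms. -/
lemma pos_expr {x0 y0 z0 x1 y1 z1 x2 y2 z2 : ℝ} (hx0 : 0 < x0) (hy0 : 0 < y0) (hz0 : 0 < z0)
    (hx1 : 0 < x1) (hy1 : 0 < y1) (hz1 : 0 < z1) (hx2 : 0 < x2) (hy2 : 0 < y2) (hz2 : 0 < z2) :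
    0 < (x0 + y0 + z0) * (x1 + y1 + z1) * (x2 + y2 + z2) + x0 * x1 * x2 + y0 * y1 * y2 -
      x0 * y1 * (x2 + y2 + z2) - x1 * y2 * (x0 + y0 + z0) - x2 * y0 * (x1 + y1 + z1) := by
  have h : (x0 + y0 + z0) * (x1 + y1 + z1) * (x2 + y2 + z2) + x0 * x1 * x2 + y0 * y1 * y2 -
      x0 * y1 * (x2 + y2 + z2) - x1 * y2 * (x0 + y0 + z0) - x2 * y0 * (x1 + y1 + z1) =
      z0 * z1 * z2 + z0 * z1 * (x2 + y2) + z0 * z2 * (x1 + y1) + z1 * z2 * (x0 + y0) +
      z0 * (x1 * x2 + y1 * y2 + y1 * x2) + z1 * (x0 * x2 + x0 * y2 + y0 * y2) +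
      z2 * (x0 * x1 + y0 * y1 + y0 * x1) + 2 * (x0 * x1 * x2) + 2 * (y0 * y1 * y2) := by
    ring
  rw [h]
  positivity

lemma dt_pos {p q r : ℝ × ℝ} (hp : p ∈ Sim) (hq : q ∈ Sim) (hr : r ∈ Sim) : 0 < dt p q r := by
  obtain ⟨p1, p2, p3⟩ := hp
  obtain ⟨q1, q2, q3⟩ := hq
  obtain ⟨r1, r2, r3⟩ := hr
  have h := pos_expr p1 p2 (sub_pos.2 p3) q1 q2 (sub_pos.2 q3) r1 r2 (sub_pos.2 r3)
  have e : dt p q r = (p.1 + p.2 + (1 - (p.1 + p.2))) * (q.1 + q.2 + (1 - (q.1 + q.2))) *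
      (r.1 + r.2 + (1 - (r.1 + r.2))) + p.1 * q.1 * r.1 + p.2 * q.2 * r.2 -
      p.1 * q.2 * (r.1 + r.2 + (1 - (r.1 + r.2))) - q.1 * r.2 * (p.1 + p.2 + (1 - (p.1 + p.2))) -
      r.1 * p.2 * (q.1 + q.2 + (1 - (q.1 + q.2))) := by
    unfold dt
    ring
  rw [e]
  exact h

lemma det_pos {D : M3} (h0 : ∀ i j, 0 < D i j) (h1 : ∀ i, ∑ j, D i j < 2 * D i i) :
    0 < D.det := by
  have a0 := h1 0
  have a1 := h1 1
  have a2 := h1 2
  rw [Fin.sum_univ_three] at a0 a1 a2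
  have h := pos_expr (h0 0 1) (h0 0 2) (show 0 < D 0 0 - D 0 1 - D 0 2 by linarith)
    (h0 1 2) (h0 1 0) (show 0 < D 1 1 - D 1 2 - D 1 0 by linarith)
    (h0 2 0) (h0 2 1) (show 0 < D 2 2 - D 2 0 - D 2 1 by linarith)
  rw [Matrix.det_fin_three]
  linarith

lemma cont (i j : Fin 3) : Continuous fun D : M3 => D i j :=
  continuous_id.matrix_elem i j

lemma open_R (L : List Z3) : IsOpen (R L) := by
  have h : R L = (⋂ i, ⋂ j, {D : M3 | 0 < D i j}) ∩ ((⋂ i, {D : M3 | ∑ j, D i j < 2 * D i i}) ∩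
      ⋂ z ∈ {z | z ∈ L}, ⋃ i, {D : M3 | ∑ j, D i j * (zf z j : ℝ) < 0}) := by
    ext D
    simp only [R, Set.mem_inter_iff, Set.mem_iInter, Set.mem_iUnion, Set.mem_ofPred_eq]
  rw [h]
  refine IsOpen.inter ?_ (IsOpen.inter ?_ ?_)
  · refine isOpen_iInter_of_finite fun i => isOpen_iInter_of_finite fun j => ?_
    exact isOpen_lt continuous_const (cont i j)
  · refine isOpen_iInter_of_finite fun i => ?_
    exact isOpen_lt (continuous_finsetSum _ fun j _ => cont i j) (continuous_const.mul (cont i i))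
  · refine Set.Finite.isOpen_biInter (List.finite_toSet L) fun z _ => ?_
    refine isOpen_iUnion fun i => ?_
    exact isOpen_lt (continuous_finsetSum _ fun j _ => (cont i j).mul continuous_const)
      continuous_const

lemma scal {L : List Z3} {s : Fin 3 → ℝ} (hs : ∀ i, 0 < s i) {D : M3} (hD : D ∈ R L) :
    Matrix.diagonal s * D ∈ R L := by
  obtain ⟨h0, h1, h2⟩ := hD
  have e : ∀ i j, (Matrix.diagonal s * D) i j = s i * D i j := fun i j => by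
    rw [Matrix.diagonal_mul]
  refine ⟨fun i j => ?_, fun i => ?_, fun z hz => ?_⟩
  · rw [e]
    exact mul_pos (hs i) (h0 i j)
  · simp only [e]
    rw [← Finset.mul_sum]
    have := mul_lt_mul_of_pos_left (h1 i) (hs i)
    linarith
  · obtain ⟨i, hi⟩ := h2 z hz
    refine ⟨i, ?_⟩
    simp only [e, mul_assoc]
    rw [← Finset.mul_sum]
    exact mul_neg_of_pos_of_neg (hs i) hi

end REGx

/-- REG. -/
theorem p_REG : tREG := by
  refine ⟨fun p hp q hq r hr => REGx.dt_pos hp hq hr, fun L => ⟨REGx.open_R L, fun D hD => hD.2.1,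
    fun D hD => ⟨REGx.det_pos hD.1 hD.2.1, hD.1⟩, fun s hs D hD => REGx.scal hs hD⟩⟩

end SAIL.H
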