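import Pool.Agent.SAIL.HAT.VolBase

/-!
SAIL, part H: the volume of a cell of matrices in the chart with diagonal entries one.
-/

open MeasureTheory Set Filter
open scoped ENNReal

namespace SAIL.VC

open SAIL.F

/-- cells: the rows, divided by the diagonal entry, lie in given sets -/
def CelV (A : Fin 3 → Set (ℝ × ℝ)) : Set M3 :=
  {M | ∀ i, 0 < M i i ∧ (M i (i + 1) / M i i, M i (i + 2) / M i i) ∈ A i}

/-- determinant in the chart -/
def dtV (p : Fin 3 → ℝ × ℝ) : ℝ :=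
  1 + (p 0).1 * (p 1).1 * (p 2).1 + (p 0).2 * (p 1).2 * (p 2).2 -
    (p 0).1 * (p 1).2 - (p 1).1 * (p 2).2 - (p 2).1 * (p 0).2

/-- row sums in the chart -/
def cV (p : Fin 3 → ℝ × ℝ) (i : Fin 3) : ℝ := 1 + (p i).1 + (p i).2

lemma dtV_pos {p : Fin 3 → ℝ × ℝ} (h : ∀ i, 0 < (p i).1 ∧ 0 < (p i).2 ∧ (p i).1 + (p i).2 < 1) :
    0 < dtV p := by
  obtain ⟨x0, y0, h0⟩ := h 0
  obtain ⟨x1, y1, h1⟩ := h 1
  obtain ⟨x2, y2, h2⟩ := h 2
  unfold dtV
  set a := (p 0).1
  set b := (p 1).1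
  set c := (p 2).1
  set a' := (p 0).2
  set b' := (p 1).2
  set c' := (p 2).2
  have k1 : a * b' ≤ a * (1 - b) := by nlinarith
  have k2 : b * c' ≤ b * (1 - c) := by nlinarith
  have k3 : c * a' ≤ c * (1 - a) := by nlinarith
  have k4 : 0 < (1 - a) * (1 - b) * (1 - c) := by
    have : 0 < 1 - a := by linarith
    have : 0 < 1 - b := by linarith
    have : 0 < 1 - c := by linarith
    positivity
  have k5 : 0 < a * b * c := by positivity
  have k6 : 0 < a' * b' * c' := by positivity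
  nlinarith

/-- the matrix with given diagonal and given pairs -/
def mk (z : (Fin 3 → ℝ) × (Fin 3 → ℝ × ℝ)) : M3 :=
  Matrix.of fun i j => if j = i then z.1 i else if j = i + 1 then (z.2 i).1 else (z.2 i).2

lemma mk_d (z : (Fin 3 → ℝ) × (Fin 3 → ℝ × ℝ)) (i : Fin 3) : mk z i i = z.1 i := by
  simp [mk]

lemma mk_1 (z : (Fin 3 → ℝ) × (Fin 3 → ℝ × ℝ)) (i : Fin 3) : mk z i (i + 1) = (z.2 i).1 := by
  simp [mk]

lemma mk_2 (z : (Fin 3 → ℝ) × (Fin 3 → ℝ × ℝ)) (i : Fin 3) : mk z i (i + 2) = (z.2 i).2 := by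
  have : i + 2 ≠ i + 1 := by fin_cases i <;> decide
  simp [mk, this]

lemma mk_spl (M : M3) : mk (spl M) = M := by
  ext i j
  have h : j = i ∨ j = i + 1 ∨ j = i + 2 := by
    fin_cases i <;> fin_cases j <;> decide
  rcases h with rfl | rfl | rfl
  · rw [mk_d]; rfl
  · rw [mk_1]; rfl
  · rw [mk_2]; rfl

lemma mk_meas : Measurable mk := by
  have : Continuous mk := by
    unfold mk
    refine continuous_pi fun i => continuous_pi fun j => ?_
    simp only [Matrix.of_apply]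
    split_ifs <;> fun_prop
  exact this.measurable

lemma mk_sum (z : (Fin 3 → ℝ) × (Fin 3 → ℝ × ℝ)) (i : Fin 3) :
    ∑ j, mk z i j = z.1 i + (z.2 i).1 + (z.2 i).2 := by
  have h : ∑ j, mk z i j = mk z i i + mk z i (i + 1) + mk z i (i + 2) := by
    rw [Fin.sum_univ_three]
    fin_cases i
    · rfl
    · change mk z 1 0 + mk z 1 1 + mk z 1 2 = mk z 1 1 + mk z 1 2 + mk z 1 0
      ring
    · change mk z 2 0 + mk z 2 1 + mk z 2 2 = mk z 2 2 + mk z 2 0 + mk z 2 1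
      ring
  rw [h, mk_d, mk_1, mk_2]

lemma mk_det (d : Fin 3 → ℝ) (p : Fin 3 → ℝ × ℝ) :
    (mk (d, sc d p)).det = d 0 * d 1 * d 2 * dtV p := by
  rw [Matrix.det_fin_three]
  have e00 := mk_d (d, sc d p) 0
  have e01 := mk_1 (d, sc d p) 0
  have e02 := mk_2 (d, sc d p) 0
  have e11 := mk_d (d, sc d p) 1
  have e12 := mk_1 (d, sc d p) 1
  have e10 := mk_2 (d, sc d p) 1
  have e22 := mk_d (d, sc d p) 2
  have e20 := mk_1 (d, sc d p) 2
  have e21 := mk_2 (d, sc d p) 2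
  simp only [sc_apply, Prod.smul_fst, Prod.smul_snd, smul_eq_mul] at *
  change mk (d, sc d p) 0 1 = _ at e01
  change mk (d, sc d p) 0 2 = _ at e02
  change mk (d, sc d p) 1 2 = _ at e12
  change mk (d, sc d p) 1 0 = _ at e10
  change mk (d, sc d p) 2 0 = _ at e20
  change mk (d, sc d p) 2 1 = _ at e21
  rw [e00, e01, e02, e10, e11, e12, e20, e21, e22]
  unfold dtV
  ring

/-- the set whose volume is `vU` -/
def WW (A : Fin 3 → Set (ℝ × ℝ)) : Set M3 := {M | M ∈ CelV A ∧ WdT M ∧ M ∈ Co}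

lemma WdT_meas : MeasurableSet {M : M3 | WdT M} := by
  have hc : ∀ i : Fin 3, Continuous fun M : M3 => ∑ j, M i j := fun i => by fun_prop
  have : {M : M3 | WdT M} = (⋂ i : Fin 3, {M : M3 | 0 < ∑ j, M i j}) ∩
      ⋂ i : Fin 3, ⋂ _ : i ≠ 2, ({M : M3 | (∑ j, M 0 j) * (∑ j, M 1 j) * (∑ j, M 2 j) <
          (∑ j, M i j) ^ 3} ∩ {M : M3 | (∑ j, M i j) ^ 3 <
          Real.exp 3 * ((∑ j, M 0 j) * (∑ j, M 1 j) * (∑ j, M 2 j))}) := by
    ext M
    simp only [WdT, Set.mem_inter_iff, Set.mem_iInter, Set.mem_ofPred_eq]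
  rw [this]
  refine MeasurableSet.inter (MeasurableSet.iInter fun i => ?_)
    (MeasurableSet.iInter fun i => MeasurableSet.iInter fun _ => MeasurableSet.inter ?_ ?_)
  · exact (isOpen_lt continuous_const (hc i)).measurableSet
  · exact (isOpen_lt (((hc 0).mul (hc 1)).mul (hc 2)) ((hc i).pow 3)).measurableSet
  · exact (isOpen_lt ((hc i).pow 3)
      (continuous_const.mul (((hc 0).mul (hc 1)).mul (hc 2)))).measurableSet

lemma CelV_meas {A : Fin 3 → Set (ℝ × ℝ)} (hA : ∀ i, MeasurableSet (A i)) :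
    MeasurableSet (CelV A) := by
  have : CelV A = ⋂ i : Fin 3, ({M : M3 | 0 < M i i} ∩
      (fun M : M3 => ((M i (i + 1) / M i i, M i (i + 2) / M i i) : ℝ × ℝ)) ⁻¹' A i) := by
    ext M
    simp only [CelV, Set.mem_inter_iff, Set.mem_iInter, Set.mem_ofPred_eq, Set.mem_preimage]
  rw [this]
  have he : ∀ i j : Fin 3, Measurable fun M : M3 => M i j := fun i j =>
    (measurable_pi_apply j).comp (measurable_pi_apply i)
  refine MeasurableSet.iInter fun i => MeasurableSet.inter ?_ ?_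
  · exact measurableSet_lt measurable_const (he i i)
  · exact (((he i (i + 1)).div (he i i)).prodMk ((he i (i + 2)).div (he i i))) (hA i)

lemma WW_meas {A : Fin 3 → Set (ℝ × ℝ)} (hA : ∀ i, MeasurableSet (A i)) : MeasurableSet (WW A) :=
  (CelV_meas hA).inter (WdT_meas.inter measurableSet_Co)

/-- the region in the chart -/
def EE (A : Fin 3 → Set (ℝ × ℝ)) : Set ((Fin 3 → ℝ) × (Fin 3 → ℝ × ℝ)) :=
  {z | (∀ i, z.2 i ∈ A i) ∧ z.1 ∈ DD (cV z.2) (dtV z.2)}

lemma mem_EE {A : Fin 3 → Set (ℝ × ℝ)}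
    (hsub : ∀ i, ∀ p ∈ A i, 0 < p.1 ∧ 0 < p.2 ∧ p.1 + p.2 < 1)
    (d : Fin 3 → ℝ) (hd : ∀ i, 0 < d i) (p : Fin 3 → ℝ × ℝ) :
    mk (d, sc d p) ∈ WW A ↔ (d, p) ∈ EE A := by
  have hcel : mk (d, sc d p) ∈ CelV A ↔ ∀ i, p i ∈ A i := by
    unfold CelV
    simp only [Set.mem_ofPred_eq, mk_d, mk_1, mk_2, sc_apply, Prod.smul_fst, Prod.smul_snd,
      smul_eq_mul]
    refine forall_congr' fun i => ?_
    rw [mul_div_cancel_left₀ _ (hd i).ne', mul_div_cancel_left₀ _ (hd i).ne']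
    exact ⟨fun h => h.2, fun h => ⟨hd i, h⟩⟩
  have hsum : ∀ i, ∑ j, mk (d, sc d p) i j = cV p i * d i := by
    intro i
    rw [mk_sum]
    simp only [sc_apply, Prod.smul_fst, Prod.smul_snd, smul_eq_mul, cV]
    ring
  have hd3 : 0 < d 0 * d 1 * d 2 := mul_pos (mul_pos (hd 0) (hd 1)) (hd 2)
  unfold WW EE
  simp only [Set.mem_ofPred_eq, hcel]
  refine and_congr_right fun hp => ?_
  have hpos := dtV_pos fun i => hsub i (p i) (hp i)
  have hc : ∀ i, 0 < cV p i := fun i => by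
    have := hsub i (p i) (hp i)
    unfold cV
    linarith
  unfold WdT DD Co
  simp only [Set.mem_ofPred_eq, hsum, mk_det]
  constructor
  · rintro ⟨⟨h1, h2⟩, h3, h4⟩
    exact ⟨hd, h2, h4⟩
  · rintro ⟨h1, h2, h3⟩
    exact ⟨⟨fun i => mul_pos (hc i) (hd i), h2⟩, mul_pos hd3 hpos, h3⟩

lemma EE_meas {A : Fin 3 → Set (ℝ × ℝ)} (hA : ∀ i, MeasurableSet (A i)) : MeasurableSet (EE A) := by
  have e : EE A = (⋂ i : Fin 3, (fun z : (Fin 3 → ℝ) × (Fin 3 → ℝ × ℝ) => z.2 i) ⁻¹' A i) ∩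
      ((⋂ i : Fin 3, {z : (Fin 3 → ℝ) × (Fin 3 → ℝ × ℝ) | 0 < z.1 i}) ∩
      ((⋂ i : Fin 3, ⋂ _ : i ≠ 2, ({z : (Fin 3 → ℝ) × (Fin 3 → ℝ × ℝ) |
        (cV z.2 0 * z.1 0) * (cV z.2 1 * z.1 1) * (cV z.2 2 * z.1 2) < (cV z.2 i * z.1 i) ^ 3} ∩
        {z : (Fin 3 → ℝ) × (Fin 3 → ℝ × ℝ) | (cV z.2 i * z.1 i) ^ 3 <
          Real.exp 3 * ((cV z.2 0 * z.1 0) * (cV z.2 1 * z.1 1) * (cV z.2 2 * z.1 2))})) ∩
      {z : (Fin 3 → ℝ) × (Fin 3 → ℝ × ℝ) | z.1 0 * z.1 1 * z.1 2 * dtV z.2 ≤ 1})) := by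
    ext z
    simp only [EE, DD, Set.mem_inter_iff, Set.mem_iInter, Set.mem_ofPred_eq, Set.mem_preimage]
  rw [e]
  have hcv : ∀ i, Measurable fun z : (Fin 3 → ℝ) × (Fin 3 → ℝ × ℝ) => cV z.2 i := by
    intro i
    unfold cV
    fun_prop
  have hdt : Measurable fun z : (Fin 3 → ℝ) × (Fin 3 → ℝ × ℝ) => dtV z.2 := by
    unfold dtV
    fun_prop
  refine MeasurableSet.inter (MeasurableSet.iInter fun i => ?_)
    (MeasurableSet.inter (MeasurableSet.iInter fun i => ?_)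
    (MeasurableSet.inter (MeasurableSet.iInter fun i => MeasurableSet.iInter fun _ => ?_) ?_))
  · exact (show Measurable fun z : (Fin 3 → ℝ) × (Fin 3 → ℝ × ℝ) => z.2 i by fun_prop) (hA i)
  · exact measurableSet_lt measurable_const (by fun_prop)
  · exact (measurableSet_lt (by fun_prop) (by fun_prop)).inter
      (measurableSet_lt (by fun_prop) (by fun_prop))
  · exact measurableSet_le (by fun_prop) (by fun_prop)

theorem vol_cell {A : Fin 3 → Set (ℝ × ℝ)} (hA : ∀ i, MeasurableSet (A i))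
    (hsub : ∀ i, ∀ p ∈ A i, 0 < p.1 ∧ 0 < p.2 ∧ p.1 + p.2 < 1) :
    vU (CelV A) = ∫⁻ p, {p : Fin 3 → ℝ × ℝ | ∀ i, p i ∈ A i}.indicator
      (fun p => ENNReal.ofReal (1 / 3 * (dtV p)⁻¹ ^ 3)) p := by
  have h1 : vU (CelV A) = volume (mk ⁻¹' WW A) := by
    have : WW A = spl ⁻¹' (mk ⁻¹' WW A) := by
      ext M
      simp only [Set.mem_preimage, mk_spl]
    change volume (WW A) = _
    conv_lhs => rw [this]
    exact spl_mp.measure_preimage (mk_meas (WW_meas hA)).nullMeasurableSet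
  have hm : MeasurableSet (mk ⁻¹' WW A) := mk_meas (WW_meas hA)
  have hEm : Measurable fun z : (Fin 3 → ℝ) × (Fin 3 → ℝ × ℝ) => (EE A).indicator
      (fun z => ENNReal.ofReal (z.1 0 ^ 2 * z.1 1 ^ 2 * z.1 2 ^ 2)) z :=
    Measurable.indicator (by fun_prop) (EE_meas hA)
  have h2 : volume (mk ⁻¹' WW A) = ∫⁻ d, ∫⁻ q, (mk ⁻¹' WW A).indicator (fun _ => 1) (d, q) := by
    rw [← lintegral_prod (fun z => (mk ⁻¹' WW A).indicator (fun _ => (1 : ℝ≥0∞)) z)
      (measurable_const.indicator hm).aemeasurable, lintegral_indicator hm]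
    simp
    rfl
  have h3 : ∀ d : Fin 3 → ℝ, ∫⁻ q, (mk ⁻¹' WW A).indicator (fun _ => (1 : ℝ≥0∞)) (d, q) =
      ∫⁻ p, (EE A).indicator
        (fun z => ENNReal.ofReal (z.1 0 ^ 2 * z.1 1 ^ 2 * z.1 2 ^ 2)) (d, p) := by
    intro d
    have hmd : Measurable fun q => (mk ⁻¹' WW A).indicator (fun _ => (1 : ℝ≥0∞)) (d, q) :=
      (measurable_const.indicator hm).comp measurable_prodMk_left
    by_cases hd : ∀ i, 0 < d i
    · rw [lint_sc hd hmd]
      refine lintegral_congr fun p => ?_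
      by_cases hp : (d, p) ∈ EE A
      · rw [indicator_of_mem hp, indicator_of_mem, mul_one]
        exact (mem_EE hsub d hd p).mpr hp
      · rw [indicator_of_notMem hp, indicator_of_notMem, mul_zero]
        exact fun hh => hp ((mem_EE hsub d hd p).mp hh)
    · refine lintegral_congr fun p => ?_
      rw [indicator_of_notMem, indicator_of_notMem]
      · exact fun hh => hd hh.2.1
      · intro hh
        apply hd
        intro i
        have := (hh.1 i).1
        rwa [mk_d] at this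
  rw [h1, h2, lintegral_congr h3, lintegral_lintegral_swap hEm.aemeasurable]
  refine lintegral_congr fun p => ?_
  by_cases hp : ∀ i, p i ∈ A i
  · rw [indicator_of_mem (show p ∈ {p : Fin 3 → ℝ × ℝ | ∀ i, p i ∈ A i} from hp)]
    have hpos := dtV_pos fun i => hsub i (p i) (hp i)
    have hc : ∀ i, 0 < cV p i := fun i => by
      have := hsub i (p i) (hp i)
      unfold cV
      linarith
    rw [← inner hc hpos]
    refine lintegral_congr fun d => ?_
    by_cases hd : d ∈ DD (cV p) (dtV p)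
    · rw [indicator_of_mem hd, indicator_of_mem]
      exact ⟨hp, hd⟩
    · rw [indicator_of_notMem hd, indicator_of_notMem]
      exact fun hh => hd hh.2
  · rw [indicator_of_notMem (show p ∉ {p : Fin 3 → ℝ × ℝ | ∀ i, p i ∈ A i} from hp)]
    rw [lintegral_congr (g := fun _ => 0) fun d => ?_, lintegral_zero]
    rw [indicator_of_notMem]
    exact fun hh => hp hh.1

/-- iterated form -/
theorem vol_cell3 {A : Fin 3 → Set (ℝ × ℝ)} (hA : ∀ i, MeasurableSet (A i))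
    (hsub : ∀ i, ∀ p ∈ A i, 0 < p.1 ∧ 0 < p.2 ∧ p.1 + p.2 < 1) :
    vU (CelV A) = ∫⁻ a in A 0, ∫⁻ b in A 1, ∫⁻ c in A 2,
      ENNReal.ofReal (1 / 3 * (dtV ![a, b, c])⁻¹ ^ 3) := by
  have hdt : Measurable dtV := by unfold dtV; fun_prop
  have hS : MeasurableSet {p : Fin 3 → ℝ × ℝ | ∀ i, p i ∈ A i} := by
    have : {p : Fin 3 → ℝ × ℝ | ∀ i, p i ∈ A i} = ⋂ i, (fun p : Fin 3 → ℝ × ℝ => p i) ⁻¹' A i := by
      ext p
      simp
    rw [this]
    exact MeasurableSet.iInter fun i => (measurable_pi_apply i) (hA i)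
  have hm : Measurable fun p : Fin 3 → ℝ × ℝ => {p : Fin 3 → ℝ × ℝ | ∀ i, p i ∈ A i}.indicator
      (fun p => ENNReal.ofReal (1 / 3 * (dtV p)⁻¹ ^ 3)) p :=
    Measurable.indicator (by fun_prop) hS
  rw [vol_cell hA hsub, lint3 hm, ← lintegral_indicator (hA 0)]
  refine lintegral_congr fun a => ?_
  by_cases ha : a ∈ A 0
  · rw [indicator_of_mem ha, ← lintegral_indicator (hA 1)]
    refine lintegral_congr fun b => ?_
    by_cases hb : b ∈ A 1
    · rw [indicator_of_mem hb, ← lintegral_indicator (hA 2)]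
      refine lintegral_congr fun c => ?_
      by_cases hc : c ∈ A 2
      · rw [indicator_of_mem hc, indicator_of_mem]
        intro i
        fin_cases i
        · exact ha
        · exact hb
        · exact hc
      · rw [indicator_of_notMem hc, indicator_of_notMem]
        exact fun hh => hc (hh 2)
    · rw [indicator_of_notMem hb, lintegral_congr (g := fun _ => 0) fun c => ?_, lintegral_zero]
      rw [indicator_of_notMem]
      exact fun hh => hb (hh 1)
  · rw [indicator_of_notMem ha, lintegral_congr (g := fun _ => 0) fun b => ?_, lintegral_zero]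
    rw [lintegral_congr (g := fun _ => 0) fun c => ?_, lintegral_zero]
    rw [indicator_of_notMem]
    exact fun hh => ha (hh 0)

end SAIL.VC
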