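import Pool.Agent.SAIL.HAT.Targets
import Pool.Agent.SAIL.HAT.VolCell

/-!
SAIL, part H, triangles: the measure of the union of the accepted cells (target `tSUM`).
-/

open MeasureTheory
open scoped ENNReal

namespace SAIL.H.SUMx

open SAIL SAIL.A SAIL.F

/-- matrices whose normalised row `i` lies in `S` -/
def C (i : Fin 3) (S : Set (ℝ × ℝ)) : Set M3 :=
  {M | 0 < M i i ∧ (M i (i + 1) / M i i, M i (i + 2) / M i i) ∈ S}

lemma C_meas (i : Fin 3) {S : Set (ℝ × ℝ)} (hS : MeasurableSet S) : MeasurableSet (C i S) := by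
  have : C i S = {M : M3 | 0 < M i i} ∩
      (fun M : M3 => ((M i (i + 1) / M i i, M i (i + 2) / M i i) : ℝ × ℝ)) ⁻¹' S := by
    ext M
    simp only [C, Set.mem_inter_iff, Set.mem_ofPred_eq, Set.mem_preimage]
  rw [this]
  have he : ∀ i j : Fin 3, Measurable fun M : M3 => M i j := fun i j =>
    (measurable_pi_apply j).comp (measurable_pi_apply i)
  refine MeasurableSet.inter ?_ ?_
  · exact measurableSet_lt measurable_const (he i i)
  · exact (((he i (i + 1)).div (he i i)).prodMk ((he i (i + 2)).div (he i i))) hS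

lemma C_disj (i : Fin 3) {S T : Set (ℝ × ℝ)} (h : Disjoint S T) : Disjoint (C i S) (C i T) := by
  rw [Set.disjoint_left] at h ⊢
  exact fun M h1 h2 => h h1.2 h2.2

lemma Cel_eq (A : Fin 3 → Set (ℝ × ℝ)) (M : M3) :
    M ∈ Cel A ↔ M ∈ C 0 (A 0) ∧ M ∈ C 1 (A 1) ∧ M ∈ C 2 (A 2) := by
  constructor
  · exact fun h => ⟨h 0, h 1, h 2⟩
  · rintro ⟨h0, h1, h2⟩ i
    fin_cases i
    · exact h0
    · exact h1
    · exact h2

lemma sum_le {X : Type*} [MeasurableSpace X] (μ : Measure X) {α : Type*} (f : α → Set X) :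
    ∀ l : List α, (∀ a ∈ l, MeasurableSet (f a)) →
      l.Pairwise (fun a b => Disjoint (f a) (f b)) → ∀ B : Set X,
      (l.map fun a => μ (B ∩ f a)).sum ≤ μ B
  | [], _, _, B => by simp
  | a :: l, hm, hd, B => by
    rw [List.map_cons, List.sum_cons]
    rw [List.pairwise_cons] at hd
    have ih := sum_le μ f l (fun b hb => hm b (List.mem_cons_of_mem _ hb)) hd.2 (B \ f a)
    have e : (l.map fun b => μ (B ∩ f b)) = l.map fun b => μ ((B \ f a) ∩ f b) := by
      refine List.map_congr_left fun b hb => ?_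
      congr 1
      ext x
      simp only [Set.mem_inter_iff, Set.mem_sdiff]
      constructor
      · rintro ⟨h1, h2⟩
        exact ⟨⟨h1, fun h3 => (Set.disjoint_left.mp (hd.1 b hb)) h3 h2⟩, h2⟩
      · rintro ⟨⟨h1, _⟩, h2⟩
        exact ⟨h1, h2⟩
    rw [e]
    calc μ (B ∩ f a) + (l.map fun b => μ ((B \ f a) ∩ f b)).sum
        ≤ μ (B ∩ f a) + μ (B \ f a) := by gcongr
      _ = μ B := measure_inter_add_sdiff B (hm a List.mem_cons_self)

lemma pw_of_pwd (hGEO : tGEO) {d : ℕ} (hd : 0 < d) : ∀ P : List Tg, (∀ t ∈ P, t.ok d = true) →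
    pwd P = true → P.Pairwise (fun t s => Disjoint (t.S d) (s.S d))
  | [], _, _ => List.Pairwise.nil
  | t :: l, hok, hp => by
    rw [pwd, Bool.and_eq_true, List.all_eq_true] at hp
    rw [List.pairwise_cons]
    refine ⟨fun s hs => ?_, pw_of_pwd hGEO hd l (fun s hs => hok s (List.mem_cons_of_mem _ hs)) hp.2⟩
    exact (hGEO d t hd (hok t List.mem_cons_self)).2.2.2.2.2 s
      (hok s (List.mem_cons_of_mem _ hs)) (hp.1 s hs)

/-- the sum over triples -/
noncomputable def T3 {β : Type*} [AddMonoid β] (P : List Tg) (w : Tg → Tg → Tg → β) : β :=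
  (P.map fun t0 => (P.map fun t1 => (P.map fun t2 => w t0 t1 t2).sum).sum).sum

lemma sum_mono {α : Type*} (l : List α) (f g : α → ℝ≥0∞) (h : ∀ a ∈ l, f a ≤ g a) :
    (l.map f).sum ≤ (l.map g).sum := List.sum_le_sum h

lemma T3_mono (P : List Tg) (w v : Tg → Tg → Tg → ℝ≥0∞)
    (h : ∀ t0 ∈ P, ∀ t1 ∈ P, ∀ t2 ∈ P, w t0 t1 t2 ≤ v t0 t1 t2) : T3 P w ≤ T3 P v :=
  sum_mono _ _ _ fun t0 h0 => sum_mono _ _ _ fun t1 h1 => sum_mono _ _ _ fun t2 h2 =>
    h t0 h0 t1 h1 t2 h2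

lemma T3_add (P : List Tg) (w v : Tg → Tg → Tg → ℝ≥0∞) :
    T3 P (fun a b c => w a b c + v a b c) = T3 P w + T3 P v := by
  unfold T3
  simp only [List.sum_map_add]

lemma ofReal_sum_le {α : Type*} (f : α → ℝ) : ∀ l : List α,
    ENNReal.ofReal (l.map f).sum ≤ (l.map fun a => ENNReal.ofReal (f a)).sum
  | [] => by simp
  | a :: l => by
    rw [List.map_cons, List.sum_cons, List.map_cons, List.sum_cons]
    exact ENNReal.ofReal_add_le.trans (by gcongr; exact ofReal_sum_le f l)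

lemma ofReal_T3_le (P : List Tg) (w : Tg → Tg → Tg → ℝ) :
    ENNReal.ofReal (T3 P w) ≤ T3 P fun a b c => ENNReal.ofReal (w a b c) := by
  unfold T3
  refine (ofReal_sum_le _ _).trans (sum_mono _ _ _ fun t0 _ => ?_)
  refine (ofReal_sum_le _ _).trans (sum_mono _ _ _ fun t1 _ => ?_)
  exact ofReal_sum_le _ _

/-- one family -/
lemma one (hVOL : tVOL) (hJEN : tJEN) (hINC : tINC) (hGEO : tGEO) {d : ℕ} (hd : 0 < d)
    (L : List Z3) (hL : ∀ z ∈ L, z ≠ 0) (P : List Tg) (hok : ∀ t ∈ P, t.ok d = true)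
    (hp : pwd P = true) :
    T3 P (fun t0 t1 t2 => if acc d L t0 t1 t2 = true then ENNReal.ofReal (wR d t0 t1 t2) else 0)
      ≤ vU (R L) := by
  set B : Set M3 := {M | M ∈ R L ∧ WdT M ∧ M ∈ Co} with hB
  have hpw := pw_of_pwd hGEO hd P hok hp
  have hpwi : ∀ i : Fin 3, P.Pairwise (fun t s => Disjoint (C i (t.S d)) (C i (s.S d))) :=
    fun i => hpw.imp fun h => C_disj i h
  have hmi : ∀ i : Fin 3, ∀ t ∈ P, MeasurableSet (C i (t.S d)) := fun i t ht =>
    C_meas i (hGEO d t hd (hok t ht)).1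
  have h1 : T3 P (fun t0 t1 t2 => if acc d L t0 t1 t2 = true then
      ENNReal.ofReal (wR d t0 t1 t2) else 0) ≤
      T3 P (fun t0 t1 t2 => volume (((B ∩ C 0 (t0.S d)) ∩ C 1 (t1.S d)) ∩ C 2 (t2.S d))) := by
    refine T3_mono _ _ _ fun t0 h0 t1 h1 t2 h2 => ?_
    split_ifs with hacc
    · have ha := hINC d L t0 t1 t2 hd (hok t0 h0) (hok t1 h1) (hok t2 h2) hL hacc
      have g0 := hGEO d t0 hd (hok t0 h0)
      have g1 := hGEO d t1 hd (hok t1 h1)
      have g2 := hGEO d t2 hd (hok t2 h2)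
      have hv := hVOL ![t0.S d, t1.S d, t2.S d] (by
        intro i
        fin_cases i
        · exact g0.1
        · exact g1.1
        · exact g2.1) (by
        intro i
        fin_cases i
        · exact g0.2.1
        · exact g1.2.1
        · exact g2.2.1)
      refine ((hJEN d t0 t1 t2 hd (hok t0 h0) (hok t1 h1) (hok t2 h2)).trans hv).trans ?_
      unfold vU
      refine measure_mono ?_
      rintro M ⟨hM1, hM2, hM3⟩
      have hM := (Cel_eq _ _).mp hM1
      exact ⟨⟨⟨⟨ha hM1, hM2, hM3⟩, hM.1⟩, hM.2.1⟩, hM.2.2⟩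
    · exact zero_le
  refine h1.trans ?_
  unfold T3
  calc _ ≤ (P.map fun t0 => (P.map fun t1 => volume ((B ∩ C 0 (t0.S d)) ∩ C 1 (t1.S d))).sum).sum :=
        sum_mono _ _ _ fun t0 _ => sum_mono _ _ _ fun t1 _ =>
          sum_le volume (fun t : Tg => C 2 (t.S d)) P (hmi 2) (hpwi 2) _
    _ ≤ (P.map fun t0 => volume (B ∩ C 0 (t0.S d))).sum :=
        sum_mono _ _ _ fun t0 _ =>
          sum_le volume (fun t : Tg => C 1 (t.S d)) P (hmi 1) (hpwi 1) _
    _ ≤ volume B := sum_le volume (fun t : Tg => C 0 (t.S d)) P (hmi 0) (hpwi 0) _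

lemma fams (hVOL : tVOL) (hJEN : tJEN) (hINC : tINC) (hGEO : tGEO) {d : ℕ} (hd : 0 < d)
    (P : List Tg) (hok : ∀ t ∈ P, t.ok d = true) (hp : pwd P = true) :
    ∀ FL : List Fm, (∀ F ∈ FL, ∀ z ∈ F.L, z ≠ 0) →
      T3 P (fun t0 t1 t2 => ((FL.countP fun F => acc d F.L t0 t1 t2 : ℕ) : ℝ≥0∞) *
        ENNReal.ofReal (wR d t0 t1 t2)) ≤ (FL.map fun F => vU (R F.L)).sum
  | [], _ => by
    have e : (fun t0 t1 t2 : Tg => ((([] : List Fm).countP fun F => acc d F.L t0 t1 t2 : ℕ) : ℝ≥0∞) *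
        ENNReal.ofReal (wR d t0 t1 t2)) = fun _ _ _ => 0 := by
      funext t0 t1 t2
      simp
    rw [e]
    simp [T3]
  | F :: l, hz => by
    have ih := fams hVOL hJEN hINC hGEO hd P hok hp l fun G hG => hz G (List.mem_cons_of_mem _ hG)
    have h1 := one hVOL hJEN hINC hGEO hd F.L (hz F List.mem_cons_self) P hok hp
    have e : (fun t0 t1 t2 : Tg => (((F :: l).countP fun F => acc d F.L t0 t1 t2 : ℕ) : ℝ≥0∞) *
        ENNReal.ofReal (wR d t0 t1 t2)) = fun t0 t1 t2 : Tg =>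
        (if acc d F.L t0 t1 t2 = true then ENNReal.ofReal (wR d t0 t1 t2) else 0) +
        ((l.countP fun F => acc d F.L t0 t1 t2 : ℕ) : ℝ≥0∞) * ENNReal.ofReal (wR d t0 t1 t2) := by
      funext t0 t1 t2
      rw [List.countP_cons]
      push_cast
      rw [add_mul, add_comm]
      congr 1
      split_ifs <;> simp
    rw [e, T3_add, List.map_cons, List.sum_cons]
    exact add_le_add h1 ih

end SAIL.H.SUMx

namespace SAIL.H

open SAIL.H.SUMx

theorem p_SUM (hVOL : tVOL) (hJEN : tJEN) (hINC : tINC) (hGEO : tGEO) : tSUM := by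
  intro d FL P hd hok hp hz
  have h := fams hVOL hJEN hINC hGEO hd P hok hp FL hz
  refine le_trans ?_ h
  have e : SR d FL P = T3 P (fun t0 t1 t2 =>
      ((FL.countP fun F => acc d F.L t0 t1 t2 : ℕ) : ℝ) * wR d t0 t1 t2) := rfl
  rw [e]
  refine (ofReal_T3_le _ _).trans (le_of_eq ?_)
  congr 1
  funext t0 t1 t2
  rw [ENNReal.ofReal_mul (Nat.cast_nonneg _), ENNReal.ofReal_natCast]

end SAIL.H
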