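import Pool.Agent.SAIL.HAT.VolCell

/-!
SAIL, part H: Jensen inequality on triangles by symmetrisation.
-/

open MeasureTheory Set Filter
open scoped ENNReal

namespace SAIL.VC

open SAIL.F

/-- the standard open simplex -/
def S2 : Set (ℝ × ℝ) := {z | 0 < z.1 ∧ 0 < z.2 ∧ z.1 + z.2 < 1}

lemma S2_open : IsOpen S2 := by
  have h1 : IsOpen {z : ℝ × ℝ | 0 < z.1} := isOpen_lt continuous_const continuous_fst
  have h2 : IsOpen {z : ℝ × ℝ | 0 < z.2} := isOpen_lt continuous_const continuous_snd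
  have h3 : IsOpen {z : ℝ × ℝ | z.1 + z.2 < 1} :=
    isOpen_lt (continuous_fst.add continuous_snd) continuous_const
  exact h1.inter (h2.inter h3)

lemma S2_meas : MeasurableSet S2 := S2_open.measurableSet

lemma vol_S2 : volume S2 = ENNReal.ofReal (1 / 2) := by
  have e : S2 = regionBetween (fun _ => 0) (fun x => 1 - x) (Ioo 0 1) := by
    ext z
    simp only [S2, regionBetween, Set.mem_ofPred_eq, mem_Ioo]
    constructor
    · rintro ⟨h1, h2, h3⟩
      exact ⟨⟨h1, by linarith⟩, h2, by linarith⟩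
    · rintro ⟨⟨h1, h2⟩, h3, h4⟩
      exact ⟨h1, h3, by linarith⟩
  rw [e, Measure.volume_eq_prod, volume_regionBetween_eq_integral]
  · congr 1
    simp only [Pi.sub_apply, sub_zero]
    have h1 : ∫ y in Ioo (0 : ℝ) 1, (1 - y) = ∫ y in (0 : ℝ)..1, (1 - y) := by
      rw [intervalIntegral.integral_of_le zero_le_one, integral_Ioc_eq_integral_Ioo]
    rw [h1, intervalIntegral.integral_sub (by simp) (by simp)]
    simp
    norm_num
  · exact (integrableOn_const (by simp) (by simp))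
  · refine IntegrableOn.mono_set ?_ Ioo_subset_Icc_self
    exact ContinuousOn.integrableOn_Icc (by fun_prop)
  · exact measurableSet_Ioo
  · intro x hx
    have := hx.2
    change (0 : ℝ) ≤ 1 - x
    linarith

/-- linear map of the plane with matrix entries -/
noncomputable def lm (u v : ℝ × ℝ) : (ℝ × ℝ) →ₗ[ℝ] (ℝ × ℝ) :=
  (LinearMap.fst ℝ ℝ ℝ).smulRight u + (LinearMap.snd ℝ ℝ ℝ).smulRight v

lemma lm_apply (u v z : ℝ × ℝ) : lm u v z = z.1 • u + z.2 • v := by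
  simp [lm]

lemma det_lm (u v : ℝ × ℝ) : LinearMap.det (lm u v) = u.1 * v.2 - u.2 * v.1 := by
  rw [← LinearMap.det_toMatrix (Module.Basis.finTwoProd ℝ), Matrix.det_fin_two]
  simp [LinearMap.toMatrix_apply, lm_apply, Module.Basis.finTwoProd]
  ring

/-- the rotation of the simplex -/
noncomputable def rot (z : ℝ × ℝ) : ℝ × ℝ := (z.2, 1 - z.1 - z.2)

lemma rot_mp : MeasurePreserving rot (volume : Measure (ℝ × ℝ)) volume := by
  have hdet : LinearMap.det (lm (0, -1) (1, -1)) = 1 := by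
    rw [det_lm]; norm_num
  have h1 : MeasurePreserving (lm (0, -1) (1, -1)) (volume : Measure (ℝ × ℝ)) volume := by
    refine ⟨(lm _ _).continuous_of_finiteDimensional.measurable, ?_⟩
    rw [Measure.map_linearMap_addHaar_eq_smul_addHaar _ (by rw [hdet]; exact one_ne_zero), hdet]
    simp
  have h2 : MeasurePreserving (fun z : ℝ × ℝ => ((0, 1) : ℝ × ℝ) + z) volume volume :=
    measurePreserving_add_left volume _
  have h3 := h2.comp h1
  have e : rot = (fun z : ℝ × ℝ => ((0, 1) : ℝ × ℝ) + z) ∘ (lm (0, -1) (1, -1)) := by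
    funext z
    simp only [Function.comp_apply, lm_apply, rot]
    ext
    · simp
    · simp; ring
  rw [e]
  exact h3

lemma rot_S2 : rot ⁻¹' S2 = S2 := by
  ext z
  simp only [rot, S2, Set.mem_preimage, Set.mem_ofPred_eq]
  constructor
  · rintro ⟨h1, h2, h3⟩
    exact ⟨by linarith, h1, by linarith⟩
  · rintro ⟨h1, h2, h3⟩
    exact ⟨h2, by linarith, by linarith⟩

lemma rot_mem {z : ℝ × ℝ} (hz : z ∈ S2) : rot z ∈ S2 := by
  rw [← rot_S2] at hz
  exact hz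

lemma rot_rot (z : ℝ × ℝ) : rot (rot z) = (1 - z.1 - z.2, z.1) := by
  unfold rot
  ext
  · rfl
  · simp

lemma lint_rot {G : ℝ × ℝ → ℝ≥0∞} (hG : Measurable G) :
    ∫⁻ z in S2, G (rot z) = ∫⁻ z in S2, G z := by
  have h := (rot_mp.restrict_preimage S2_meas)
  rw [rot_S2] at h
  exact h.lintegral_comp hG

lemma jen0 {G : ℝ × ℝ → ℝ≥0∞} (hG : Measurable G) (m : ℝ≥0∞)
    (h : ∀ z ∈ S2, 3 * m ≤ G z + G (rot z) + G (rot (rot z))) :
    ENNReal.ofReal (1 / 2) * m ≤ ∫⁻ z in S2, G z := by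
  have hr : Measurable rot := rot_mp.measurable
  have g1 : Measurable fun z => G (rot z) := hG.comp hr
  have g2 : Measurable fun z => G (rot (rot z)) := hG.comp (hr.comp hr)
  have h1 : ∫⁻ z in S2, (G z + G (rot z) + G (rot (rot z))) = 3 * ∫⁻ z in S2, G z := by
    rw [lintegral_add_right _ g2, lintegral_add_right _ g1,
      lint_rot (G := fun z => G (rot z)) g1, lint_rot hG]
    ring
  have h2 : ∫⁻ z in S2, 3 * m ≤ ∫⁻ z in S2, (G z + G (rot z) + G (rot (rot z))) :=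
    setLIntegral_mono' S2_meas h
  rw [h1, setLIntegral_const, vol_S2] at h2
  have h3 : (3 : ℝ≥0∞) * (ENNReal.ofReal (1 / 2) * m) ≤ 3 * ∫⁻ z in S2, G z := by
    calc (3 : ℝ≥0∞) * (ENNReal.ofReal (1 / 2) * m) = 3 * m * ENNReal.ofReal (1 / 2) := by ring
      _ ≤ _ := h2
  exact (ENNReal.mul_le_mul_iff_right (by norm_num) (by norm_num)).mp h3

/-- affine parametrisation of a triangle -/
noncomputable def af (a b c z : ℝ × ℝ) : ℝ × ℝ := a + (z.1 • (b - a) + z.2 • (c - a))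

/-- open triangle -/
def Tri (a b c : ℝ × ℝ) : Set (ℝ × ℝ) := af a b c '' S2

/-- oriented double area -/
def dA (a b c : ℝ × ℝ) : ℝ := (b.1 - a.1) * (c.2 - a.2) - (b.2 - a.2) * (c.1 - a.1)

/-- centre -/
noncomputable def gc (a b c : ℝ × ℝ) : ℝ × ℝ := ((a.1 + b.1 + c.1) / 3, (a.2 + b.2 + c.2) / 3)

lemma af_meas (a b c : ℝ × ℝ) : Measurable (af a b c) := by
  unfold af
  fun_prop

lemma af_inv {a b c : ℝ × ℝ} (hD : dA a b c ≠ 0) (z : ℝ × ℝ) :
    (dA a (af a b c z) c / dA a b c, dA a b (af a b c z) / dA a b c) = z := by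
  ext
  · simp only [af]
    rw [div_eq_iff hD]
    simp only [dA, Prod.fst_add, Prod.snd_add, Prod.smul_fst, Prod.smul_snd, smul_eq_mul,
      Prod.fst_sub, Prod.snd_sub]
    ring
  · simp only [af]
    rw [div_eq_iff hD]
    simp only [dA, Prod.fst_add, Prod.snd_add, Prod.smul_fst, Prod.smul_snd, smul_eq_mul,
      Prod.fst_sub, Prod.snd_sub]
    ring

lemma inv_af {a b c : ℝ × ℝ} (hD : dA a b c ≠ 0) (p : ℝ × ℝ) :
    af a b c (dA a p c / dA a b c, dA a b p / dA a b c) = p := by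
  ext
  · simp only [af, Prod.fst_add, Prod.smul_fst, smul_eq_mul, Prod.fst_sub]
    field_simp
    simp only [dA]
    ring
  · simp only [af, Prod.snd_add, Prod.smul_snd, smul_eq_mul, Prod.snd_sub]
    field_simp
    simp only [dA]
    ring

lemma mem_Tri {a b c : ℝ × ℝ} (hD : dA a b c ≠ 0) (p : ℝ × ℝ) :
    p ∈ Tri a b c ↔ (dA a p c / dA a b c, dA a b p / dA a b c) ∈ S2 := by
  constructor
  · rintro ⟨z, hz, rfl⟩
    rwa [af_inv hD]
  · intro h
    exact ⟨_, h, inv_af hD p⟩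

lemma Tri_open {a b c : ℝ × ℝ} (hD : dA a b c ≠ 0) : IsOpen (Tri a b c) := by
  have e : Tri a b c = (fun p => (dA a p c / dA a b c, dA a b p / dA a b c)) ⁻¹' S2 := by
    ext p
    exact mem_Tri hD p
  rw [e]
  refine S2_open.preimage ?_
  unfold dA
  fun_prop

lemma Tri_meas {a b c : ℝ × ℝ} (hD : dA a b c ≠ 0) : MeasurableSet (Tri a b c) :=
  (Tri_open hD).measurableSet

lemma af_mem {a b c : ℝ × ℝ} (hD : dA a b c ≠ 0) (z : ℝ × ℝ) :
    af a b c z ∈ Tri a b c ↔ z ∈ S2 := by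
  rw [mem_Tri hD, af_inv hD]

lemma af_map {a b c : ℝ × ℝ} (hD : dA a b c ≠ 0) :
    Measure.map (af a b c) (volume : Measure (ℝ × ℝ)) =
      ENNReal.ofReal |(dA a b c)⁻¹| • volume := by
  have hdet : LinearMap.det (lm (b - a) (c - a)) = dA a b c := by
    rw [det_lm]; rfl
  have h1 := Measure.map_linearMap_addHaar_eq_smul_addHaar (volume : Measure (ℝ × ℝ))
    (f := lm (b - a) (c - a)) (by rw [hdet]; exact hD)
  rw [hdet] at h1
  have e : af a b c = (fun z : ℝ × ℝ => a + z) ∘ (lm (b - a) (c - a)) := by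
    funext z
    simp only [Function.comp_apply, lm_apply, af]
  have hm : Measurable (lm (b - a) (c - a)) := (lm _ _).continuous_of_finiteDimensional.measurable
  rw [e, ← Measure.map_map (measurable_const_add a) hm, h1, Measure.map_smul,
    (measurePreserving_add_left volume a).map_eq]

lemma lint_Tri {a b c : ℝ × ℝ} (hD : dA a b c ≠ 0) {f : ℝ × ℝ → ℝ≥0∞} (hf : Measurable f) :
    ∫⁻ p in Tri a b c, f p = ENNReal.ofReal |dA a b c| * ∫⁻ z in S2, f (af a b c z) := by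
  have hD' : 0 < |dA a b c| := abs_pos.mpr hD
  have h1 : ∫⁻ z in S2, f (af a b c z) =
      ENNReal.ofReal |(dA a b c)⁻¹| * ∫⁻ p in Tri a b c, f p := by
    rw [← lintegral_indicator S2_meas, ← lintegral_indicator (Tri_meas hD)]
    have h2 : ∀ z, S2.indicator (fun z => f (af a b c z)) z =
        (Tri a b c).indicator f (af a b c z) := by
      intro z
      by_cases hz : z ∈ S2
      · rw [indicator_of_mem hz, indicator_of_mem ((af_mem hD z).mpr hz)]
      · rw [indicator_of_notMem hz, indicator_of_notMem fun h => hz ((af_mem hD z).mp h)]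
    rw [lintegral_congr h2, ← lintegral_map (hf.indicator (Tri_meas hD)) (af_meas a b c),
      af_map hD, lintegral_smul_measure, smul_eq_mul]
  rw [h1, ← mul_assoc, ← ENNReal.ofReal_mul hD'.le, abs_inv, mul_inv_cancel₀ hD'.ne',
    ENNReal.ofReal_one, one_mul]

lemma jenT {a b c : ℝ × ℝ} (hD : dA a b c ≠ 0) {f : ℝ × ℝ → ℝ≥0∞} (hf : Measurable f)
    (h : ∀ x ∈ Tri a b c, ∀ y ∈ Tri a b c, ∀ z ∈ Tri a b c,
      x.1 + y.1 + z.1 = a.1 + b.1 + c.1 → x.2 + y.2 + z.2 = a.2 + b.2 + c.2 →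
      3 * f (gc a b c) ≤ f x + f y + f z) :
    ENNReal.ofReal (|dA a b c| / 2) * f (gc a b c) ≤ ∫⁻ p in Tri a b c, f p := by
  rw [lint_Tri hD hf]
  have h1 := jen0 (G := fun z => f (af a b c z)) (hf.comp (af_meas a b c)) (f (gc a b c)) (by
    intro z hz
    refine h _ ((af_mem hD z).mpr hz) _ ((af_mem hD _).mpr (rot_mem hz)) _
      ((af_mem hD _).mpr (rot_mem (rot_mem hz))) ?_ ?_
    · rw [rot_rot]
      simp only [af, rot, Prod.fst_add, Prod.smul_fst, smul_eq_mul, Prod.fst_sub]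
      ring
    · rw [rot_rot]
      simp only [af, rot, Prod.snd_add, Prod.smul_snd, smul_eq_mul, Prod.snd_sub]
      ring)
  calc ENNReal.ofReal (|dA a b c| / 2) * f (gc a b c)
      = ENNReal.ofReal |dA a b c| * (ENNReal.ofReal (1 / 2) * f (gc a b c)) := by
        rw [← mul_assoc, ← ENNReal.ofReal_mul (abs_nonneg _)]
        congr 2
        ring
    _ ≤ _ := by gcongr

/-- convexity of the inverse cube -/
lemma cube3 {x y z m : ℝ} (hx : 0 < x) (hy : 0 < y) (hz : 0 < z) (hm : 3 * m = x + y + z) :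
    3 * m⁻¹ ^ 3 ≤ x⁻¹ ^ 3 + y⁻¹ ^ 3 + z⁻¹ ^ 3 := by
  have hm0 : 0 < m := by linarith
  have key : ∀ t : ℝ, 0 < t → 4 * m⁻¹ ^ 3 - 3 * t * m⁻¹ ^ 4 ≤ t⁻¹ ^ 3 := by
    intro t ht
    have e : t⁻¹ ^ 3 - (4 * m⁻¹ ^ 3 - 3 * t * m⁻¹ ^ 4) =
        (m - t) ^ 2 * (m ^ 2 + 2 * m * t + 3 * t ^ 2) * (t⁻¹ ^ 3 * m⁻¹ ^ 4) := by
      field_simp
      ring
    have : 0 ≤ (m - t) ^ 2 * (m ^ 2 + 2 * m * t + 3 * t ^ 2) * (t⁻¹ ^ 3 * m⁻¹ ^ 4) := by
      positivity
    linarith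
  have h1 := key x hx
  have h2 := key y hy
  have h3 := key z hz
  have h4 : 3 * (x + y + z) * m⁻¹ ^ 4 = 9 * m⁻¹ ^ 3 := by
    rw [← hm]
    field_simp
    ring
  nlinarith

/-! ### area and moments with the Jensen property -/

/-- `B` is a measurable part of the simplex with area `A` and moments `X`, `Y` for which the Jensen
inequality holds for the inverse cube of affine functions -/
def JM (B : Set (ℝ × ℝ)) (A X Y : ℝ) : Prop :=
  MeasurableSet B ∧ B ⊆ S2 ∧ 0 < A ∧ 0 < X ∧ 0 < Y ∧ X + Y < A ∧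
  ∀ α β γ : ℝ, (∀ p ∈ S2, 0 < α + β * p.1 + γ * p.2) → ∀ k : ℝ, 0 ≤ k →
    ENNReal.ofReal (k * A ^ 4 * (α * A + β * X + γ * Y)⁻¹ ^ 3) ≤
      ∫⁻ p in B, ENNReal.ofReal (k * (α + β * p.1 + γ * p.2)⁻¹ ^ 3)

/-- closed simplex -/
def S2c : Set (ℝ × ℝ) := {z | 0 ≤ z.1 ∧ 0 ≤ z.2 ∧ z.1 + z.2 ≤ 1}

lemma af_bary (a b c z : ℝ × ℝ) : af a b c z =
    ((1 - z.1 - z.2) * a.1 + z.1 * b.1 + z.2 * c.1,
      (1 - z.1 - z.2) * a.2 + z.1 * b.2 + z.2 * c.2) := by
  ext
  · simp only [af, Prod.fst_add, Prod.smul_fst, smul_eq_mul, Prod.fst_sub]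
    ring
  · simp only [af, Prod.snd_add, Prod.smul_snd, smul_eq_mul, Prod.snd_sub]
    ring

/-- a nondegenerate open triangle with vertices in the closed simplex lies in the open simplex -/
lemma Tri_sub {a b c : ℝ × ℝ} (hD : dA a b c ≠ 0) (ha : a ∈ S2c) (hb : b ∈ S2c) (hc : c ∈ S2c) :
    Tri a b c ⊆ S2 := by
  rintro p ⟨z, ⟨h1, h2, h3⟩, rfl⟩
  obtain ⟨a1, a2, a3⟩ := ha
  obtain ⟨b1, b2, b3⟩ := hb
  obtain ⟨c1, c2, c3⟩ := hc
  rw [af_bary]
  have hu : 0 < 1 - z.1 - z.2 := by linarith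
  have hpos : ∀ x y w : ℝ, 0 ≤ x → 0 ≤ y → 0 ≤ w → ¬ (x = 0 ∧ y = 0 ∧ w = 0) →
      0 < (1 - z.1 - z.2) * x + z.1 * y + z.2 * w := by
    intro x y w hx hy hw hn
    by_contra hcon
    apply hn
    have e1 := mul_nonneg hu.le hx
    have e2 := mul_nonneg h1.le hy
    have e3 := mul_nonneg h2.le hw
    refine ⟨?_, ?_, ?_⟩
    · by_contra h
      have := mul_pos hu (lt_of_le_of_ne hx (Ne.symm h))
      linarith
    · by_contra h
      have := mul_pos h1 (lt_of_le_of_ne hy (Ne.symm h))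
      linarith
    · by_contra h
      have := mul_pos h2 (lt_of_le_of_ne hw (Ne.symm h))
      linarith
  refine ⟨?_, ?_, ?_⟩
  · refine hpos _ _ _ a1 b1 c1 ?_
    rintro ⟨e1, e2, e3⟩
    apply hD
    unfold dA
    rw [e1, e2, e3]
    ring
  · refine hpos _ _ _ a2 b2 c2 ?_
    rintro ⟨e1, e2, e3⟩
    apply hD
    unfold dA
    rw [e1, e2, e3]
    ring
  · have := hpos (1 - a.1 - a.2) (1 - b.1 - b.2) (1 - c.1 - c.2) (by linarith) (by linarith)
      (by linarith) (by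
        rintro ⟨e1, e2, e3⟩
        apply hD
        unfold dA
        have f1 : a.2 = 1 - a.1 := by linarith
        have f2 : b.2 = 1 - b.1 := by linarith
        have f3 : c.2 = 1 - c.1 := by linarith
        rw [f1, f2, f3]
        ring)
    change (1 - z.1 - z.2) * a.1 + z.1 * b.1 + z.2 * c.1 +
      ((1 - z.1 - z.2) * a.2 + z.1 * b.2 + z.2 * c.2) < 1
    nlinarith

theorem JM_tri {a b c : ℝ × ℝ} (hD : dA a b c ≠ 0) (ha : a ∈ S2c) (hb : b ∈ S2c) (hc : c ∈ S2c) :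
    JM (Tri a b c) (|dA a b c| / 2) (|dA a b c| / 6 * (a.1 + b.1 + c.1))
      (|dA a b c| / 6 * (a.2 + b.2 + c.2)) := by
  have hD' : 0 < |dA a b c| := abs_pos.mpr hD
  have hsub := Tri_sub hD ha hb hc
  have hg : gc a b c ∈ S2 := by
    apply hsub
    refine ⟨(1 / 3, 1 / 3), ⟨by norm_num, by norm_num, by norm_num⟩, ?_⟩
    rw [af_bary, gc]
    ext
    · simp only; ring
    · simp only; ring
  obtain ⟨g1, g2, g3⟩ := hg
  simp only [gc] at g1 g2 g3
  refine ⟨Tri_meas hD, hsub, by positivity, ?_, ?_, ?_, ?_⟩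
  · exact mul_pos (by positivity) (by linarith)
  · exact mul_pos (by positivity) (by linarith)
  · have : |dA a b c| * ((a.1 + b.1 + c.1) / 3 + (a.2 + b.2 + c.2) / 3) < |dA a b c| * 1 :=
      mul_lt_mul_of_pos_left g3 hD'
    nlinarith
  · intro α β γ hL k hk
    have hm : Measurable fun p : ℝ × ℝ =>
        ENNReal.ofReal (k * (α + β * p.1 + γ * p.2)⁻¹ ^ 3) := by fun_prop
    refine le_trans (le_of_eq ?_) (jenT hD hm ?_)
    · have hgp : 0 < α + β * ((a.1 + b.1 + c.1) / 3) + γ * ((a.2 + b.2 + c.2) / 3) :=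
        hL ((a.1 + b.1 + c.1) / 3, (a.2 + b.2 + c.2) / 3) ⟨g1, g2, g3⟩
      simp only [gc]
      rw [← ENNReal.ofReal_mul (by positivity)]
      congr 1
      set D := |dA a b c|
      set G := α + β * ((a.1 + b.1 + c.1) / 3) + γ * ((a.2 + b.2 + c.2) / 3) with hG
      have e : α * (D / 2) + β * (D / 6 * (a.1 + b.1 + c.1)) + γ * (D / 6 * (a.2 + b.2 + c.2)) =
          D / 2 * G := by rw [hG]; ring
      rw [e]
      field_simp
    · intro x hx y hy z hz h1 h2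
      have hx' := hL x (hsub hx)
      have hy' := hL y (hsub hy)
      have hz' := hL z (hsub hz)
      have hm3 : 3 * (α + β * (gc a b c).1 + γ * (gc a b c).2) =
          (α + β * x.1 + γ * x.2) + (α + β * y.1 + γ * y.2) + (α + β * z.1 + γ * z.2) := by
        simp only [gc]
        linear_combination (-β) * h1 + (-γ) * h2
      have hc3 := cube3 hx' hy' hz' hm3
      rw [show (3 : ℝ≥0∞) = ENNReal.ofReal 3 by simp, ← ENNReal.ofReal_mul (by norm_num),
        ← ENNReal.ofReal_add (by positivity) (by positivity),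
        ← ENNReal.ofReal_add (by positivity) (by positivity)]
      refine ENNReal.ofReal_le_ofReal ?_
      nlinarith

lemma JM.posI {B : Set (ℝ × ℝ)} {A X Y : ℝ} (h : JM B A X Y) {α β γ : ℝ}
    (hL : ∀ p ∈ S2, 0 < α + β * p.1 + γ * p.2) : 0 < α * A + β * X + γ * Y := by
  obtain ⟨-, -, hA, hX, hY, hXY, -⟩ := h
  have h1 : ((X / A, Y / A) : ℝ × ℝ) ∈ S2 := by
    refine ⟨div_pos hX hA, div_pos hY hA, ?_⟩
    change X / A + Y / A < 1
    rw [← add_div, div_lt_one hA]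
    exact hXY
  have h2 := mul_pos hA (hL _ h1)
  have e : A * (α + β * (X / A) + γ * (Y / A)) = α * A + β * X + γ * Y := by
    field_simp
  rw [← e]
  exact h2

/-- Hölder inequality for two summands -/
lemma hol {A I A' I' : ℝ} (hA : 0 < A) (hI : 0 < I) (hA' : 0 < A') (hI' : 0 < I') :
    (A + A') ^ 4 * (I + I')⁻¹ ^ 3 ≤ A ^ 4 * I⁻¹ ^ 3 + A' ^ 4 * I'⁻¹ ^ 3 := by
  set t := (A + A') / (I + I') with ht
  have ht0 : 0 < t := by positivity
  have key : ∀ a i : ℝ, 0 < a → 0 < i → 4 * a * t ^ 3 - 3 * i * t ^ 4 ≤ a ^ 4 * i⁻¹ ^ 3 := by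
    intro a i ha hi
    have e : a ^ 4 * i⁻¹ ^ 3 - (4 * a * t ^ 3 - 3 * i * t ^ 4) =
        (a - i * t) ^ 2 * (a ^ 2 + 2 * a * (i * t) + 3 * (i * t) ^ 2) * i⁻¹ ^ 3 := by
      field_simp
      ring
    have : 0 ≤ (a - i * t) ^ 2 * (a ^ 2 + 2 * a * (i * t) + 3 * (i * t) ^ 2) * i⁻¹ ^ 3 := by
      positivity
    linarith
  have h1 := key A I hA hI
  have h2 := key A' I' hA' hI'
  have h3 : (A + A') ^ 4 * (I + I')⁻¹ ^ 3 = 4 * (A + A') * t ^ 3 - 3 * (I + I') * t ^ 4 := by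
    rw [ht]
    field_simp
    ring
  rw [h3]
  linarith

theorem JM_union {B B' : Set (ℝ × ℝ)} {A X Y A' X' Y' : ℝ} (h : JM B A X Y)
    (h' : JM B' A' X' Y') (hd : Disjoint B B') : JM (B ∪ B') (A + A') (X + X') (Y + Y') := by
  have hpI := fun (α β γ : ℝ) (hL : ∀ p ∈ S2, 0 < α + β * p.1 + γ * p.2) => h.posI hL
  have hpI' := fun (α β γ : ℝ) (hL : ∀ p ∈ S2, 0 < α + β * p.1 + γ * p.2) => h'.posI hL
  obtain ⟨hm, hs, hA, hX, hY, hXY, hj⟩ := h
  obtain ⟨hm', hs', hA', hX', hY', hXY', hj'⟩ := h'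
  refine ⟨hm.union hm', union_subset hs hs', by linarith, by linarith, by linarith, by linarith,
    ?_⟩
  intro α β γ hL k hk
  rw [lintegral_union hm' hd]
  have i1 := hpI α β γ hL
  have i2 := hpI' α β γ hL
  refine le_trans ?_ (add_le_add (hj α β γ hL k hk) (hj' α β γ hL k hk))
  rw [← ENNReal.ofReal_add (by positivity) (by positivity)]
  refine ENNReal.ofReal_le_ofReal ?_
  have h1 := hol hA i1 hA' i2
  have e : α * (A + A') + β * (X + X') + γ * (Y + Y') =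
      (α * A + β * X + γ * Y) + (α * A' + β * X' + γ * Y') := by ring
  rw [e]
  have := mul_le_mul_of_nonneg_left h1 hk
  linarith

theorem JM_list {τ : Type} (B : τ → Set (ℝ × ℝ)) (A X Y : τ → ℝ) :
    ∀ l : List τ, l ≠ [] → (∀ t ∈ l, JM (B t) (A t) (X t) (Y t)) →
      l.Pairwise (fun s t => Disjoint (B s) (B t)) →
      JM (⋃ t ∈ l, B t) (l.map A).sum (l.map X).sum (l.map Y).sum := by
  intro l
  induction l with
  | nil => intro h; exact absurd rfl h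
  | cons a l ih =>
    intro _ hJ hP
    rw [List.pairwise_cons] at hP
    by_cases hl : l = []
    · subst hl
      simpa using hJ a (by simp)
    · have h1 := ih hl (fun t ht => hJ t (List.mem_cons_of_mem _ ht)) hP.2
      have h2 := hJ a (by simp)
      have hd : Disjoint (B a) (⋃ t ∈ l, B t) := by
        rw [Set.disjoint_iUnion₂_right]
        exact hP.1
      have h3 := JM_union h2 h1 hd
      have e : (⋃ t ∈ a :: l, B t) = B a ∪ ⋃ t ∈ l, B t := by
        ext x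
        simp
      rw [e, List.map_cons, List.map_cons, List.map_cons, List.sum_cons, List.sum_cons,
        List.sum_cons]
      exact h3

lemma dtV_S2 {a b c : ℝ × ℝ} (ha : a ∈ S2) (hb : b ∈ S2) (hc : c ∈ S2) : 0 < dtV ![a, b, c] := by
  refine dtV_pos fun i => ?_
  fin_cases i
  · exact ha
  · exact hb
  · exact hc

/-- the volume of a cell in terms of the areas and moments -/
theorem cell {B : Fin 3 → Set (ℝ × ℝ)} {A X Y : Fin 3 → ℝ}
    (h : ∀ i, JM (B i) (A i) (X i) (Y i)) :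
    ENNReal.ofReal (1 / 3 * (A 0 * A 1 * A 2) ^ 4 *
      (A 0 * A 1 * A 2 + X 0 * X 1 * X 2 + Y 0 * Y 1 * Y 2 - X 0 * Y 1 * A 2 - A 0 * X 1 * Y 2 -
        Y 0 * A 1 * X 2)⁻¹ ^ 3) ≤ vU (CelV B) := by
  rw [vol_cell3 (fun i => (h i).1) (fun i p hp => (h i).2.1 hp)]
  have hA := fun i => (h i).2.2.1
  have A0 := hA 0
  have A1 := hA 1
  have A2 := hA 2
  have s1 : ∀ a ∈ S2, ∀ b ∈ S2, ∀ p ∈ S2,
      0 < (1 - a.1 * b.2) + (a.1 * b.1 - a.2) * p.1 + (a.2 * b.2 - b.1) * p.2 := by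
    intro a ha b hb p hp
    have := dtV_S2 ha hb hp
    simp only [dtV, Matrix.cons_val_zero, Matrix.cons_val_one, Matrix.cons_val] at this
    linarith
  have t1 : ∀ a ∈ S2, ∀ b ∈ S2, ENNReal.ofReal (1 / 3 * A 2 ^ 4 * ((1 - a.1 * b.2) * A 2 +
      (a.1 * b.1 - a.2) * X 2 + (a.2 * b.2 - b.1) * Y 2)⁻¹ ^ 3) ≤
      ∫⁻ c in B 2, ENNReal.ofReal (1 / 3 * (dtV ![a, b, c])⁻¹ ^ 3) := by
    intro a ha b hb
    have := (h 2).2.2.2.2.2.2 (1 - a.1 * b.2) (a.1 * b.1 - a.2) (a.2 * b.2 - b.1) (s1 a ha b hb)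
      (1 / 3) (by norm_num)
    refine this.trans (le_of_eq ?_)
    refine lintegral_congr fun p => ?_
    congr 3
    simp only [dtV, Matrix.cons_val_zero, Matrix.cons_val_one, Matrix.cons_val]
    ring
  have s2 : ∀ a ∈ S2, ∀ p ∈ S2, 0 < (A 2 - a.2 * X 2) + (a.1 * X 2 - Y 2) * p.1 +
      (a.2 * Y 2 - a.1 * A 2) * p.2 := by
    intro a ha p hp
    have := (h 2).posI (s1 a ha p hp)
    linarith
  have t2 : ∀ a ∈ S2, ENNReal.ofReal (1 / 3 * A 2 ^ 4 * A 1 ^ 4 * ((A 2 - a.2 * X 2) * A 1 +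
      (a.1 * X 2 - Y 2) * X 1 + (a.2 * Y 2 - a.1 * A 2) * Y 1)⁻¹ ^ 3) ≤
      ∫⁻ b in B 1, ∫⁻ c in B 2, ENNReal.ofReal (1 / 3 * (dtV ![a, b, c])⁻¹ ^ 3) := by
    intro a ha
    have := (h 1).2.2.2.2.2.2 (A 2 - a.2 * X 2) (a.1 * X 2 - Y 2) (a.2 * Y 2 - a.1 * A 2)
      (s2 a ha) (1 / 3 * A 2 ^ 4) (by positivity)
    refine this.trans ?_
    refine setLIntegral_mono' (h 1).1 fun b hb => ?_
    refine le_trans (le_of_eq ?_) (t1 a ha b ((h 1).2.1 hb))
    congr 3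
    ring
  have s3 : ∀ p ∈ S2, 0 < (A 1 * A 2 - X 1 * Y 2) + (X 1 * X 2 - Y 1 * A 2) * p.1 +
      (Y 1 * Y 2 - A 1 * X 2) * p.2 := by
    intro p hp
    have := (h 1).posI (s2 p hp)
    linarith
  have := (h 0).2.2.2.2.2.2 (A 1 * A 2 - X 1 * Y 2) (X 1 * X 2 - Y 1 * A 2)
    (Y 1 * Y 2 - A 1 * X 2) s3 (1 / 3 * A 2 ^ 4 * A 1 ^ 4) (by positivity)
  refine le_trans (le_of_eq ?_) (this.trans ?_)
  · congr 1
    have e : (A 1 * A 2 - X 1 * Y 2) * A 0 + (X 1 * X 2 - Y 1 * A 2) * X 0 +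
        (Y 1 * Y 2 - A 1 * X 2) * Y 0 = A 0 * A 1 * A 2 + X 0 * X 1 * X 2 + Y 0 * Y 1 * Y 2 -
        X 0 * Y 1 * A 2 - A 0 * X 1 * Y 2 - Y 0 * A 1 * X 2 := by ring
    rw [e]
    ring
  · refine setLIntegral_mono' (h 0).1 fun a ha => ?_
    refine le_trans (le_of_eq ?_) (t2 a ((h 0).2.1 ha))
    congr 3
    ring

lemma CelV_disj {B B' : Fin 3 → Set (ℝ × ℝ)} (i : Fin 3) (h : Disjoint (B i) (B' i)) :
    Disjoint (CelV B) (CelV B') := by
  rw [Set.disjoint_left] at *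
  intro M h1 h2
  exact h (h1 i).2 (h2 i).2

/-- additivity over disjoint cells -/
theorem cell_sum {τ : Type} (T : Finset τ) (B : τ → Fin 3 → Set (ℝ × ℝ)) (v : τ → ℝ≥0∞)
    (hB : ∀ t ∈ T, ∀ i, MeasurableSet (B t i)) (hv : ∀ t ∈ T, v t ≤ vU (CelV (B t)))
    (hd : ∀ s ∈ T, ∀ t ∈ T, s ≠ t → ∃ i, Disjoint (B s i) (B t i)) (U : Set M3)
    (hU : ∀ t ∈ T, CelV (B t) ⊆ U) : ∑ t ∈ T, v t ≤ vU U := by
  refine (Finset.sum_le_sum hv).trans ?_
  have h1 : ∑ t ∈ T, vU (CelV (B t)) = volume (⋃ t ∈ T, WW (B t)) := by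
    symm
    refine measure_biUnion_finset ?_ ?_
    · intro s hs t ht hst
      obtain ⟨i, hi⟩ := hd s hs t ht hst
      exact (CelV_disj i hi).mono (fun M hM => hM.1) (fun M hM => hM.1)
    · exact fun t ht => WW_meas (hB t ht)
  rw [h1]
  refine measure_mono ?_
  intro M hM
  simp only [Set.mem_iUnion] at hM
  obtain ⟨t, ht, hM⟩ := hM
  exact ⟨hU t ht hM.1, hM.2⟩

end SAIL.VC
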