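import Pool.Agent.SAIL.HAT.Targets
import Pool.Agent.SAIL.HAT.Jen

/-!
SAIL, part H, item TRI: integral of an affine function over a triangle.
-/

namespace SAIL.H.TRIx

open Matrix MeasureTheory SAIL SAIL.A SAIL.F SAIL.H

lemma tr_eq {a b c : ℝ × ℝ} (h : 0 < cr a b c) : Tr a b c = VC.Tri a b c := by
  have hD : VC.dA a b c = cr a b c := rfl
  have hD' : VC.dA a b c ≠ 0 := by rw [hD]; exact h.ne'
  ext p
  rw [VC.mem_Tri hD']
  have e1 : VC.dA a p c = cr c a p := by unfold VC.dA cr; ring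
  have e2 : VC.dA a b p = cr a b p := rfl
  have e3 : cr a b c - cr c a p - cr a b p = cr b c p := by unfold cr; ring
  rw [hD, e1, e2]
  show (0 < cr a b p ∧ 0 < cr b c p ∧ 0 < cr c a p) ↔
    (0 < cr c a p / cr a b c ∧ 0 < cr a b p / cr a b c ∧
      cr c a p / cr a b c + cr a b p / cr a b c < 1)
  rw [← add_div, div_lt_one h, div_pos_iff_of_pos_right h, div_pos_iff_of_pos_right h]
  constructor
  · rintro ⟨h1, h2, h3⟩
    exact ⟨h3, h1, by linarith⟩
  · rintro ⟨h1, h2, h3⟩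
    exact ⟨h2, by linarith, h1⟩

end SAIL.H.TRIx

namespace SAIL.H

open Matrix MeasureTheory SAIL SAIL.A SAIL.F

theorem p_TRI : tTRI := by
  intro a b c h α β γ
  rw [TRIx.tr_eq h]
  have hD' : VC.dA a b c ≠ 0 := h.ne'
  have hm : Measurable fun p : ℝ × ℝ => ENNReal.ofReal (α + β * p.1 + γ * p.2) := by fun_prop
  have key := VC.jenT hD' hm (by
    intro x _ y _ z _ h1 h2
    have e : α + β * (VC.gc a b c).1 + γ * (VC.gc a b c).2 =
        ((α + β * x.1 + γ * x.2) + (α + β * y.1 + γ * y.2) + (α + β * z.1 + γ * z.2)) / 3 := by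
      unfold VC.gc
      rw [← h1, ← h2]
      ring
    show 3 * ENNReal.ofReal (α + β * (VC.gc a b c).1 + γ * (VC.gc a b c).2) ≤ _
    have e3 : (3 : ENNReal) = ENNReal.ofReal 3 := by norm_num
    rw [e, e3, ← ENNReal.ofReal_mul (by norm_num)]
    refine le_trans (ENNReal.ofReal_le_ofReal (le_of_eq (by ring :
      (3 : ℝ) * (((α + β * x.1 + γ * x.2) + (α + β * y.1 + γ * y.2) +
        (α + β * z.1 + γ * z.2)) / 3) = (α + β * x.1 + γ * x.2) + (α + β * y.1 + γ * y.2) +
        (α + β * z.1 + γ * z.2)))) ?_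
    refine ENNReal.ofReal_add_le.trans ?_
    gcongr
    exact ENNReal.ofReal_add_le)
  have ha : |VC.dA a b c| = cr a b c := abs_of_pos h
  rw [ha] at key
  rw [ENNReal.ofReal_mul (by positivity)]
  exact key

end SAIL.H
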