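import Pool.Agent.SAIL.HAT.Targets
import Pool.Agent.SAIL.HAT.VolCell

/-!
SAIL, part H, triangles: the volume of a cell (target `tVOL`).
-/

open MeasureTheory Set Filter
open scoped ENNReal

namespace SAIL.H

theorem p_VOL : tVOL := by
  intro A hA hsub
  have h := SAIL.VC.vol_cell3 hA fun i p hp => hsub i hp
  have e : Cel A = SAIL.VC.CelV A := rfl
  rw [e, h]
  refine le_of_eq ?_
  refine lintegral_congr fun p => lintegral_congr fun q => lintegral_congr fun r => ?_
  congr 1
  have e2 : SAIL.VC.dtV ![p, q, r] = dt p q r := by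
    simp only [SAIL.VC.dtV, dt, Matrix.cons_val_zero, Matrix.cons_val_one, Matrix.cons_val]
  rw [e2, inv_pow, one_div, one_div, mul_inv]

end SAIL.H
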