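import Pool.Agent.SAIL.HAT.P_CRT
import Pool.Agent.SAIL.HAT.P_CUT
import Pool.Agent.SAIL.HAT.P_EV
import Pool.Agent.SAIL.HAT.P_FAM
import Pool.Agent.SAIL.HAT.P_GEO
import Pool.Agent.SAIL.HAT.P_HTX
import Pool.Agent.SAIL.HAT.P_INC
import Pool.Agent.SAIL.HAT.P_INE
import Pool.Agent.SAIL.HAT.P_JEN
import Pool.Agent.SAIL.HAT.P_REG
import Pool.Agent.SAIL.HAT.P_SUM
import Pool.Agent.SAIL.HAT.P_TRI
import Pool.Agent.SAIL.HAT.P_VOL

/-!
SAIL, part H, triangles: assembly without hypotheses.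
-/

namespace SAIL.H

/-- The triangle side: the total volume of the families exceeds `803/10000`. -/
theorem fHT : SAIL.F.tHT (803 / 10000) :=
  p_HTX p_CRT (p_EV p_GEO p_REG) (p_SUM p_VOL (p_JEN p_TRI p_GEO p_REG) (p_INC p_GEO) p_GEO)
    (p_FAM p_CUT p_REG) p_REG p_INE

end SAIL.H
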