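import Pool.Agent.SAIL.FAC.Targets2

/-!
SAIL, part H, triangles: cells, families given by cut lists, and the computable certificate.
Index arithmetic `i+1`, `i+2` is cyclic in `Fin 3`.
-/

namespace SAIL.H

open Matrix MeasureTheory SAIL SAIL.A SAIL.F

/-! ### Real objects -/

/-- Determinant of the matrix whose row `i` has `1` at place `i`, `x_i` at `i+1`, `y_i` at `i+2`. -/
noncomputable def dt (p q r : ℝ × ℝ) : ℝ :=
  1 + p.1 * q.1 * r.1 + p.2 * q.2 * r.2 - p.1 * q.2 - q.1 * r.2 - r.1 * p.2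

/-- The open simplex. -/
def Sim : Set (ℝ × ℝ) := {p | 0 < p.1 ∧ 0 < p.2 ∧ p.1 + p.2 < 1}

/-- Matrices whose normalised rows lie in prescribed plane sets. -/
def Cel (A : Fin 3 → Set (ℝ × ℝ)) : Set M3 :=
  {M | ∀ i, 0 < M i i ∧ (M i (i + 1) / M i i, M i (i + 2) / M i i) ∈ A i}

/-- Orientation of three points. -/
noncomputable def cr (a b c : ℝ × ℝ) : ℝ :=
  (b.1 - a.1) * (c.2 - a.2) - (b.2 - a.2) * (c.1 - a.1)

/-- The open triangle with vertices `a b c` (positively oriented). -/
def Tr (a b c : ℝ × ℝ) : Set (ℝ × ℝ) := {p | 0 < cr a b p ∧ 0 < cr b c p ∧ 0 < cr c a p}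

/-- Centroid. -/
noncomputable def gc (a b c : ℝ × ℝ) : ℝ × ℝ :=
  ((a.1 + b.1 + c.1) / 3, (a.2 + b.2 + c.2) / 3)

/-- An integer vector. -/
abbrev Z3 := ℤ × ℤ × ℤ

/-- Coordinates of an integer vector. -/
def zf (z : Z3) : Fin 3 → ℤ := ![z.1, z.2.1, z.2.2]

/-- Corner matrices with positive entries in which every vector of the list is cut. -/
def R (L : List Z3) : Set M3 :=
  {D | (∀ i j, 0 < D i j) ∧ (∀ i, ∑ j, D i j < 2 * D i i) ∧
    ∀ z ∈ L, ∃ i, ∑ j, D i j * (zf z j : ℝ) < 0}

/-! ### Families: computable check -/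

/-- A lattice (Hermite normal form of `E`) and its list of cut vectors. -/
structure Fm where
  (a b c p q r : ℤ)
  L : List Z3

/-- The integer matrix of a family. -/
def Fm.E (F : Fm) : IM := !![F.a, F.p, F.q; 0, F.b, F.r; 0, 0, F.c]

/-- The index. -/
def Fm.k (F : Fm) : ℤ := F.a * F.b * F.c

/-- Membership in the lattice `adj E ℤ³`. -/
def inL (F : Fm) (e : Z3) : Bool :=
  (F.a * e.1 + F.p * e.2.1 + F.q * e.2.2) % F.k == 0 &&
  (F.b * e.2.1 + F.r * e.2.2) % F.k == 0 && (F.c * e.2.2) % F.k == 0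

/-- Vectors cut by every corner matrix with positive entries (one row, large negative entry). -/
def autoC (e : Z3) : Bool :=
  (decide (e.1 < 0) && decide (e.2.1 ≤ -e.1) && decide (e.2.2 ≤ -e.1)) ||
  (decide (e.2.1 < 0) && decide (e.1 ≤ -e.2.1) && decide (e.2.2 ≤ -e.2.1)) ||
  (decide (e.2.2 < 0) && decide (e.1 ≤ -e.2.2) && decide (e.2.1 ≤ -e.2.2))

/-- `e ≤ (x/y) z` for the ratio `x/y > 0` (`x` an entry of `e`, `y` the entry of `z`). -/
def leR (e z : Z3) (x y : ℤ) : Bool :=
  decide (0 < x * y) && decide (e.1 * |y| ≤ |x| * z.1) && decide (e.2.1 * |y| ≤ |x| * z.2.1) &&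
  decide (e.2.2 * |y| ≤ |x| * z.2.2)

/-- `e` is at most a positive multiple of `z`. -/
def domB (e z : Z3) : Bool := leR e z e.1 z.1 || leR e z e.2.1 z.2.1 || leR e z e.2.2 z.2.2

/-- The vector is harmless: not in the lattice, or cut in all corner matrices, or dominated by a
vector of the list. -/
def okv (F : Fm) (e : Z3) : Bool := !(inL F e) || autoC e || F.L.any (domB e)

/-- Cyclic rotation of coordinates. -/
def rt (e : Z3) : Z3 := (e.2.1, e.2.2, e.1)

/-- Exchange of the last two coordinates. -/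
def sw (e : Z3) : Z3 := (e.1, e.2.2, e.2.1)

/-- All three rotations are harmless. -/
def okr (F : Fm) (e : Z3) : Bool := okv F e && okv F (rt e) && okv F (rt (rt e))

/-- The computable check of a family. -/
def chk (F : Fm) : Bool :=
  decide (0 < F.a) && decide (0 < F.b) && decide (0 < F.c) &&
  -- no lattice point strictly below the face
  ((List.range F.k.toNat).all fun x => (List.range F.k.toNat).all fun y =>
    (List.range F.k.toNat).all fun z => decide (F.k ≤ (x : ℤ) + y + z) ||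
      (decide (x = 0) && decide (y = 0) && decide (z = 0)) || !(inL F (x, y, z))) &&
  -- the vectors 2e_i - e_j and 3e_i - e_j - e_l
  (okr F (2 * F.k, -F.k, 0) && okr F (2 * F.k, 0, -F.k) && okr F (3 * F.k, -F.k, -F.k)) &&
  -- one negative coordinate -n, 1 ≤ n ≤ k
  ((List.range F.k.toNat).all fun n => (List.range (2 * F.k.toNat + 1)).all fun x =>
    (List.range (2 * F.k.toNat + 1)).all fun y =>
      decide (F.k + n + 1 < (x : ℤ) + y) || okr F (-((n : ℤ) + 1), x, y)) &&
  -- one positive coordinate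
  ((List.range (2 * F.k.toNat)).all fun c => (List.range F.k.toNat).all fun t =>
    (List.range F.k.toNat).all fun s => decide (c = 0) ||
      (okr F (F.k + 2 * c + t - s, -((c : ℤ) + t), -(c : ℤ)) &&
      okr F (F.k + 2 * c + t - s, -(c : ℤ), -((c : ℤ) + t))))

/-- Entries of `E_G adj(E_F)` are not all divisible by the index of `F`. -/
def ineqv (F G : Fm) : Bool :=
  decide (F.k ≠ G.k) || !(
    (G.a * (F.b * F.c)) % F.k == 0 &&
    (-(G.a * (F.p * F.c)) + G.p * (F.a * F.c)) % F.k == 0 &&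
    (G.a * (F.p * F.r - F.q * F.b) - G.p * (F.a * F.r) + G.q * (F.a * F.b)) % F.k == 0 &&
    (G.b * (F.a * F.c)) % F.k == 0 &&
    (-(G.b * (F.a * F.r)) + G.r * (F.a * F.b)) % F.k == 0 &&
    (G.c * (F.a * F.b)) % F.k == 0)

/-! ### Integer triangles -/

/-- A triangle with vertices `(X/d, Y/d)`; the common denominator `d` is a parameter. -/
structure Tg where
  (ax ay bx by' cx cy : ℕ)

/-- The real point with integer coordinates `X`, `Y` and denominator `d`. -/
noncomputable def rp (d X Y : ℕ) : ℝ × ℝ := ((X : ℝ) / d, (Y : ℝ) / d)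

/-- The open triangle as a set. -/
def Tg.S (d : ℕ) (t : Tg) : Set (ℝ × ℝ) := Tr (rp d t.ax t.ay) (rp d t.bx t.by') (rp d t.cx t.cy)

/-- Twice the area times `d²` (truncated subtraction). -/
def Tg.A (t : Tg) : ℕ :=
  (t.ax * t.by' + t.bx * t.cy + t.cx * t.ay) - (t.ay * t.bx + t.by' * t.cx + t.cy * t.ax)

/-- Valid triangle: positive orientation, in the closed simplex. -/
def Tg.ok (d : ℕ) (t : Tg) : Bool :=
  decide (0 < t.A) && decide (t.ax + t.ay ≤ d) && decide (t.bx + t.by' ≤ d) &&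
  decide (t.cx + t.cy ≤ d)

/-- Orientation of integer points is nonpositive. -/
def npo (ax ay bx by' cx cy : ℕ) : Bool :=
  decide (ax * by' + bx * cy + cx * ay ≤ ay * bx + by' * cx + cy * ax)

/-- The edge `a b` of `t` separates `t` from `s`. -/
def sepE (ax ay bx by' : ℕ) (s : Tg) : Bool :=
  npo ax ay bx by' s.ax s.ay && npo ax ay bx by' s.bx s.by' && npo ax ay bx by' s.cx s.cy

/-- Some edge of `t` or of `s` separates them. -/
def disj (t s : Tg) : Bool :=
  sepE t.ax t.ay t.bx t.by' s || sepE t.bx t.by' t.cx t.cy s || sepE t.cx t.cy t.ax t.ay s ||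
  sepE s.ax s.ay s.bx s.by' t || sepE s.bx s.by' s.cx s.cy t || sepE s.cx s.cy s.ax s.ay t

/-- All pairs of a list are disjoint. -/
def pwd : List Tg → Bool
  | [] => true
  | t :: l => l.all (disj t) && pwd l

/-- All pairs of a list of families are inequivalent (both directions). -/
def pwi : List Fm → Bool
  | [] => true
  | F :: l => (l.all fun G => ineqv F G && ineqv G F) && pwi l

/-! ### Cuts -/

/-- The vertex `(X,Y)` in row `0` is on the closed negative side of `z`. -/
def cv (d : ℕ) (z : Z3) (X Y : ℕ) : Bool := decide (z.1 * d + z.2.1 * X + z.2.2 * Y ≤ 0)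

/-- The triangle in row `0` cuts `z`. -/
def cT (d : ℕ) (z : Z3) (t : Tg) : Bool :=
  cv d z t.ax t.ay && cv d z t.bx t.by' && cv d z t.cx t.cy

/-- The triple of triangles is accepted by the list `L`. -/
def acc (d : ℕ) (L : List Z3) (t0 t1 t2 : Tg) : Bool :=
  L.all fun z => cT d z t0 || cT d (rt z) t1 || cT d (rt (rt z)) t2

/-- Lower bound for the volume of the cell. -/
noncomputable def wR (d : ℕ) (t0 t1 t2 : Tg) : ℝ :=
  let g := fun t : Tg => gc (rp d t.ax t.ay) (rp d t.bx t.by') (rp d t.cx t.cy)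
  ((t0.A : ℝ) / d ^ 2) * ((t1.A : ℝ) / d ^ 2) * ((t2.A : ℝ) / d ^ 2) /
    (24 * dt (g t0) (g t1) (g t2) ^ 3)

/-! ### The fast computation -/

/-- Bit mask of a list of booleans. -/
def mk : List Bool → ℕ
  | [] => 0
  | b :: l => 2 * mk l + (if b then 1 else 0)

/-- Precomputed data of a triangle: area, sums of coordinates, masks of the cut vectors in the
three rows. -/
structure Rec where
  (A X Y m0 m1 m2 : ℕ)

/-- The record of a triangle. -/
def rec' (d : ℕ) (Zs : List Z3) (t : Tg) : Rec :=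
  ⟨t.A, t.ax + t.bx + t.cx, t.ay + t.by' + t.cy, mk (Zs.map fun z => cT d z t),
    mk (Zs.map fun z => cT d (rt z) t), mk (Zs.map fun z => cT d (rt (rt z)) t)⟩

/-- Mask of a family. -/
def fmk (Zs : List Z3) (F : Fm) : ℕ := mk (Zs.map fun z => F.L.contains z)

/-- Number of families whose mask is covered. -/
def cntM (ms : List ℕ) (u : ℕ) : ℕ := ms.countP fun m => (u &&& m) == m

/-- `27 d³` times the determinant at the centroids. -/
def Dn (d : ℕ) (r0 r1 r2 : Rec) : ℕ :=
  27 * d ^ 3 + r0.X * r1.X * r2.X + r0.Y * r1.Y * r2.Y -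
    3 * d * (r0.X * r1.Y + r1.X * r2.Y + r2.X * r0.Y)

/-- The inner sum. -/
def in2 (d M : ℕ) (m : ℕ) (ms : List ℕ) (r0 r1 : Rec) (u : ℕ) : List Rec → ℕ → ℕ
  | [], s => s
  | r2 :: l, s =>
    let v := u ||| r2.m2
    in2 d M m ms r0 r1 u l
      (bif (v &&& m) == m then s + cntM ms v * (r0.A * r1.A * r2.A * M / Dn d r0 r1 r2 ^ 3) else s)

/-- The middle sum. -/
def in1 (d M : ℕ) (m : ℕ) (ms : List ℕ) (rs : List Rec) (r0 : Rec) : List Rec → ℕ → ℕ
  | [], s => s
  | r1 :: l, s => in1 d M m ms rs r0 l (in2 d M m ms r0 r1 (r0.m0 ||| r1.m1) rs s)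

/-- The outer sum. -/
def in0 (d M : ℕ) (m : ℕ) (ms : List ℕ) (rs : List Rec) : List Rec → ℕ → ℕ
  | [], s => s
  | r0 :: l, s => in0 d M m ms rs l (in1 d M m ms rs r0 rs s)

/-- The total of the certificate: sum over triples of triangles of the number of families
accepting the triple times `A A A M / Dn³` (only triples covering the mask `m`). -/
def tot (d M m : ℕ) (Zs : List Z3) (FL : List Fm) (P : List Tg) : ℕ :=
  in0 d M m (FL.map (fmk Zs)) (P.map (rec' d Zs)) (P.map (rec' d Zs)) 0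

end SAIL.H
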