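import Pool.Agent.SAIL.HAT.TData

/-!
SAIL, part H, triangles: the finite check of the families of the certificate (kernel computation).
-/

namespace SAIL.H.CHKx

open SAIL.H

set_option maxRecDepth 100000

theorem hchk : (cF.all chk) = true := by decide +kernel

theorem hpwi : pwi cF = true := by decide +kernel

theorem hz : (cF.all fun F => F.L.all fun z => decide (z ≠ 0) && decide (z ∈ cZ)) = true := by
  decide +kernel

end SAIL.H.CHKx
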