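import Pool.Agent.SAIL.HAT.P_CHK

/-!
SAIL, part H, triangles: the numerical certificate.
-/

namespace SAIL.H.CRTx

open SAIL.H

/-- Number of covered masks (kernel friendly). -/
noncomputable def cnt' (u : ℕ) (ms : List ℕ) : ℕ :=
  @List.rec ℕ (fun _ => ℕ) 0 (fun m _ ih => Nat.add (cond (Nat.beq (Nat.land u m) m) 1 0) ih) ms

/-- Inner sum. -/
noncomputable def g2 (d M m : ℕ) (ms : List ℕ) (r0 r1 : Rec) (u : ℕ) (l : List Rec) : ℕ :=
  @List.rec Rec (fun _ => ℕ) 0 (fun r2 _ ih =>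
    Nat.add (cond (Nat.beq (Nat.land (Nat.lor u r2.m2) m) m)
      (Nat.mul (cnt' (Nat.lor u r2.m2) ms)
        (Nat.div (Nat.mul (Nat.mul (Nat.mul r0.A r1.A) r2.A) M) (Nat.pow (Dn d r0 r1 r2) 3))) 0) ih) l

/-- Middle sum. -/
noncomputable def g1 (d M m : ℕ) (ms : List ℕ) (rs : List Rec) (r0 : Rec) (l : List Rec) : ℕ :=
  @List.rec Rec (fun _ => ℕ) 0 (fun r1 _ ih =>
    Nat.add (g2 d M m ms r0 r1 (Nat.lor r0.m0 r1.m1) rs) ih) l

/-- Outer sum. -/
noncomputable def g0 (d M m : ℕ) (ms : List ℕ) (rs : List Rec) (l : List Rec) : ℕ :=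
  @List.rec Rec (fun _ => ℕ) 0 (fun r0 _ ih => Nat.add (g1 d M m ms rs r0 rs) ih) l

theorem beq_eq (a b : ℕ) : Nat.beq a b = (a == b) := by
  rw [Bool.eq_iff_iff]; simp [Nat.beq_eq]

theorem cnt'_eq (u : ℕ) (ms : List ℕ) : cnt' u ms = cntM ms u := by
  induction ms with
  | nil => rfl
  | cons m l ih =>
    have h1 : cnt' u (m :: l) = cond (Nat.beq (Nat.land u m) m) 1 0 + cnt' u l := rfl
    have h2 : Nat.beq (Nat.land u m) m = ((u &&& m) == m) := beq_eq _ _
    rw [h1, ih, h2]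
    unfold cntM
    rw [List.countP_cons]
    cases h : ((u &&& m) == m) <;> simp [add_comm]

theorem g2_eq (d M m : ℕ) (ms : List ℕ) (r0 r1 : Rec) (u : ℕ) (l : List Rec) (s : ℕ) :
    in2 d M m ms r0 r1 u l s = s + g2 d M m ms r0 r1 u l := by
  induction l generalizing s with
  | nil => rfl
  | cons r2 l ih =>
    have h1 : g2 d M m ms r0 r1 u (r2 :: l) =
      cond (Nat.beq ((u ||| r2.m2) &&& m) m) (cnt' (u ||| r2.m2) ms *
        (r0.A * r1.A * r2.A * M / Dn d r0 r1 r2 ^ 3)) 0 + g2 d M m ms r0 r1 u l := rfl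
    rw [h1, cnt'_eq, beq_eq]
    unfold in2
    rw [ih]
    cases h : (((u ||| r2.m2) &&& m) == m) <;> simp [add_assoc]

theorem g1_eq (d M m : ℕ) (ms : List ℕ) (rs : List Rec) (r0 : Rec) (l : List Rec) (s : ℕ) :
    in1 d M m ms rs r0 l s = s + g1 d M m ms rs r0 l := by
  induction l generalizing s with
  | nil => rfl
  | cons r1 l ih =>
    have h1 : g1 d M m ms rs r0 (r1 :: l) = g2 d M m ms r0 r1 (r0.m0 ||| r1.m1) rs +
      g1 d M m ms rs r0 l := rfl
    rw [h1]
    unfold in1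
    rw [ih, g2_eq, add_assoc]

theorem g0_eq (d M m : ℕ) (ms : List ℕ) (rs : List Rec) (l : List Rec) (s : ℕ) :
    in0 d M m ms rs l s = s + g0 d M m ms rs l := by
  induction l generalizing s with
  | nil => rfl
  | cons r0 l ih =>
    have h1 : g0 d M m ms rs (r0 :: l) = g1 d M m ms rs r0 rs + g0 d M m ms rs l := rfl
    rw [h1]
    unfold in0
    rw [ih, g1_eq, add_assoc]

set_option maxRecDepth 100000

deriving instance DecidableEq for SAIL.H.Rec

theorem hR : cP.map (rec' cd cZ) = cR := by decide +kernel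

theorem hM : cF.map (fmk cZ) = cM := by decide +kernel

theorem hok : (cP.all fun t => t.ok cd) = true := by decide +kernel

theorem hpwd : pwd cP = true := by decide +kernel

theorem tot_val : Nat.beq (g0 cd (10 ^ 36) (cM.headD 0) cM cR cR) cS = true := by decide +kernel

theorem hfin : Nat.blt (8 * 803 * 10 ^ 36) (6561 * cd ^ 3 * 10000 * cS) = true := by decide +kernel

theorem htot : tot cd (10 ^ 36) (cM.headD 0) cZ cF cP = cS := by
  unfold tot
  rw [hR, hM, g0_eq, Nat.zero_add]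
  exact Nat.eq_of_beq_eq_true tot_val

end SAIL.H.CRTx

namespace SAIL.H

/-- The numerical certificate. -/
theorem p_CRT : tCRT := by
  refine ⟨cd, 10 ^ 36, cM.headD 0, cZ, cF, cP, by unfold cd; norm_num, by norm_num, ?_, CRTx.hpwd, ?_,
    CHKx.hpwi, ?_, ?_⟩
  · exact fun t ht => List.all_eq_true.1 CRTx.hok t ht
  · exact fun F hF => List.all_eq_true.1 CHKx.hchk F hF
  · intro F hF z hz
    have h := List.all_eq_true.1 (List.all_eq_true.1 CHKx.hz F hF) z hz
    simpa using h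
  · rw [CRTx.htot]
    have h := CRTx.hfin
    exact Nat.lt_of_lt_of_le (Nat.lt_of_succ_le (Nat.le_of_ble_eq_true h)) le_rfl

end SAIL.H
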