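import Pool.Agent.SAIL.HAT.Def

/-!
SAIL, part H, triangles: targets.
-/

namespace SAIL.H

open Matrix MeasureTheory SAIL SAIL.A SAIL.F

/-- Volume of a cell (the factor `1/3` is the integral over the row scalings in the window). -/
def tVOL : Prop := ∀ A : Fin 3 → Set (ℝ × ℝ), (∀ i, MeasurableSet (A i)) → (∀ i, A i ⊆ Sim) →
  ∫⁻ p in A 0, ∫⁻ q in A 1, ∫⁻ r in A 2, ENNReal.ofReal (1 / (3 * dt p q r ^ 3)) ≤ vU (Cel A)

/-- Integral of an affine function over a triangle. -/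
def tTRI : Prop := ∀ a b c : ℝ × ℝ, 0 < cr a b c → ∀ α β γ : ℝ,
  ENNReal.ofReal (cr a b c / 2 * (α + β * (gc a b c).1 + γ * (gc a b c).2)) ≤
    ∫⁻ p in Tr a b c, ENNReal.ofReal (α + β * p.1 + γ * p.2)

/-- Jensen's inequality in the three rows. -/
def tJEN : Prop := ∀ (d : ℕ) (t0 t1 t2 : Tg), 0 < d → t0.ok d = true → t1.ok d = true →
  t2.ok d = true → ENNReal.ofReal (wR d t0 t1 t2) ≤
    ∫⁻ p in t0.S d, ∫⁻ q in t1.S d, ∫⁻ r in t2.S d, ENNReal.ofReal (1 / (3 * dt p q r ^ 3))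

/-- Geometry of integer triangles: measurable, in the simplex, disjointness check. -/
def tGEO : Prop := ∀ (d : ℕ) (t : Tg), 0 < d → t.ok d = true →
  MeasurableSet (t.S d) ∧ t.S d ⊆ Sim ∧
  cr (rp d t.ax t.ay) (rp d t.bx t.by') (rp d t.cx t.cy) = (t.A : ℝ) / d ^ 2 ∧
  0 < (t.A : ℝ) ∧ gc (rp d t.ax t.ay) (rp d t.bx t.by') (rp d t.cx t.cy) ∈ Sim ∧
  ∀ s : Tg, s.ok d = true → disj t s = true → Disjoint (t.S d) (s.S d)

/-- Accepted triples of triangles lie in the region of the list. -/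
def tINC : Prop := ∀ (d : ℕ) (L : List Z3) (t0 t1 t2 : Tg), 0 < d → t0.ok d = true →
  t1.ok d = true → t2.ok d = true → (∀ z ∈ L, z ≠ 0) → acc d L t0 t1 t2 = true →
  Cel ![t0.S d, t1.S d, t2.S d] ⊆ R L

/-- The determinant of the corner rows is positive, basic facts on `R`. -/
def tREG : Prop := (∀ p ∈ Sim, ∀ q ∈ Sim, ∀ r ∈ Sim, 0 < dt p q r) ∧
  ∀ L : List Z3, IsOpen (R L) ∧ R L ⊆ Cor ∧ (∀ D ∈ R L, 0 < D.det ∧ ∀ i j, 0 < D i j) ∧
    ∀ s : Fin 3 → ℝ, (∀ i, 0 < s i) → ∀ D ∈ R L, Matrix.diagonal s * D ∈ R L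

/-- The finite check of a family. -/
def tCUT : Prop := ∀ F : Fm, chk F = true → ∀ D ∈ R F.L, ∀ e : Z3, inL F e = true → e ≠ 0 →
  (∀ i, 0 ≤ ∑ j, D i j * (zf e j : ℝ)) → e.1 + e.2.1 + e.2.2 ≤ F.k →
  (0 ≤ e.1 ∧ 0 ≤ e.2.1 ∧ 0 ≤ e.2.2) ∧ e.1 + e.2.1 + e.2.2 = F.k

/-- Families of the check are families in the sense of part A. -/
def tFAM : Prop := ∀ F : Fm, chk F = true → Fam F.E (R F.L)

/-- Inequivalence. -/
def tINE : Prop := ∀ F G : Fm, 0 < F.a → 0 < F.b → 0 < F.c → 0 < G.a → 0 < G.b → 0 < G.c →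
  ineqv F G = true → ∀ γ : GZ, γ.1 * F.E ≠ G.E

/-- Sum over all triples of triangles of (number of accepting families) times the cell bound. -/
noncomputable def SR (d : ℕ) (FL : List Fm) (P : List Tg) : ℝ :=
  (P.map fun t0 => (P.map fun t1 => (P.map fun t2 =>
    ((FL.countP fun F => acc d F.L t0 t1 t2 : ℕ) : ℝ) * wR d t0 t1 t2).sum).sum).sum

/-- The fast computation is a lower bound for the sum. -/
def tEV : Prop := ∀ (d M m : ℕ) (Zs : List Z3) (FL : List Fm) (P : List Tg), 0 < d → 0 < M →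
  (∀ t ∈ P, t.ok d = true) → (∀ F ∈ FL, ∀ z ∈ F.L, z ∈ Zs) →
  (tot d M m Zs FL P : ℝ) / M * (6561 / 8 * d ^ 3) ≤ SR d FL P

/-- The measure of the union of the accepted cells. -/
def tSUM : Prop := ∀ (d : ℕ) (FL : List Fm) (P : List Tg), 0 < d →
  (∀ t ∈ P, t.ok d = true) → pwd P = true → (∀ F ∈ FL, ∀ z ∈ F.L, z ≠ 0) →
  ENNReal.ofReal (SR d FL P) ≤ (FL.map fun F => vU (R F.L)).sum

/-- The numerical certificate. -/
def tCRT : Prop := ∃ (d M m : ℕ) (Zs : List Z3) (FL : List Fm) (P : List Tg), 0 < d ∧ 0 < M ∧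
  (∀ t ∈ P, t.ok d = true) ∧ pwd P = true ∧ (∀ F ∈ FL, chk F = true) ∧ pwi FL = true ∧
  (∀ F ∈ FL, ∀ z ∈ F.L, z ≠ 0 ∧ z ∈ Zs) ∧
  8 * 803 * M < 6561 * d ^ 3 * 10000 * tot d M m Zs FL P

/-- The result: the total volume of the families exceeds `803/10000 > 2/25`. -/
def tHTx : Prop := tHT (803 / 10000)

end SAIL.H
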