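import Pool.Agent.SAIL.FAC.Targets

/-!
SAIL, part H: the volume of a cell of matrices. Tools: splitting of the nine entries, scaling, the
integral over the diagonal entries.
-/

open MeasureTheory Set Filter
open scoped ENNReal

namespace SAIL.VC

/-! ### splitting -/

/-- three coordinates -/
noncomputable def e3 (V : Type) [MeasurableSpace V] : (Fin 3 → V) ≃ᵐ V × (V × V) :=
  (MeasurableEquiv.piFinSuccAbove (fun _ => V) 0).trans
    ((MeasurableEquiv.refl V).prodCongr MeasurableEquiv.finTwoArrow)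

lemma e3_mp (V : Type) [MeasureSpace V] [SigmaFinite (volume : Measure V)] :
    MeasurePreserving (e3 V) (volume : Measure (Fin 3 → V)) (volume : Measure (V × (V × V))) := by
  have h1 := volume_preserving_piFinSuccAbove (fun _ : Fin 3 => V) 0
  have h2 : MeasurePreserving ((MeasurableEquiv.refl V).prodCongr MeasurableEquiv.finTwoArrow)
      (volume : Measure (V × (Fin 2 → V))) (volume : Measure (V × (V × V))) :=
    (MeasurePreserving.id volume).prod (volume_preserving_finTwoArrow V)
  exact h2.comp h1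

lemma e3_apply (V : Type) [MeasurableSpace V] (f : Fin 3 → V) : e3 V f = (f 0, (f 1, f 2)) := rfl

lemma e3_symm (V : Type) [MeasurableSpace V] (p : V × (V × V)) :
    (e3 V).symm p = ![p.1, p.2.1, p.2.2] := by
  rw [MeasurableEquiv.symm_apply_eq, e3_apply]
  rfl

/-- iterated integral over three variables -/
lemma lint3 {V : Type} [MeasureSpace V] [SigmaFinite (volume : Measure V)]
    {F : (Fin 3 → V) → ℝ≥0∞} (hF : Measurable F) :
    ∫⁻ f, F f = ∫⁻ a, ∫⁻ b, ∫⁻ c, F ![a, b, c] := by
  have h := (e3_mp V).symm.lintegral_comp hF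
  rw [← h]
  have hm : Measurable fun p : V × (V × V) => F ((e3 V).symm p) :=
    hF.comp (e3 V).symm.measurable
  rw [show (volume : Measure (V × (V × V))) = (volume : Measure V).prod volume from rfl,
    lintegral_prod _ hm.aemeasurable]
  refine lintegral_congr fun a => ?_
  have hm2 : Measurable fun y : V × V => F ((e3 V).symm (a, y)) :=
    hm.comp measurable_prodMk_left
  rw [show (volume : Measure (V × V)) = (volume : Measure V).prod volume from rfl,
    lintegral_prod _ hm2.aemeasurable]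
  refine lintegral_congr fun b => lintegral_congr fun c => ?_
  rw [e3_symm]

/-- cyclic shift of the coordinates -/
lemma cyc_mp (i : Fin 3) : MeasurePreserving (fun (v : Fin 3 → ℝ) (j : Fin 3) => v (i + j))
    volume volume := by
  have h := volume_measurePreserving_piCongrLeft (fun _ : Fin 3 => ℝ) (Equiv.addLeft (-i))
  have e : (fun (v : Fin 3 → ℝ) (j : Fin 3) => v (i + j)) =
      ⇑(MeasurableEquiv.piCongrLeft (fun _ : Fin 3 => ℝ) (Equiv.addLeft (-i))) := by
    funext v j
    rw [MeasurableEquiv.coe_piCongrLeft]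
    have := Equiv.piCongrLeft_apply_apply (fun _ : Fin 3 => ℝ) (Equiv.addLeft (-i)) v (i + j)
    simpa using this.symm
  rw [e]
  exact h

/-- splitting of a row: the i-th entry and the two others in cyclic order -/
lemma row_mp (i : Fin 3) : MeasurePreserving
    (fun v : Fin 3 → ℝ => ((v i, (v (i + 1), v (i + 2))) : ℝ × (ℝ × ℝ))) volume volume := by
  have h := (e3_mp ℝ).comp (cyc_mp i)
  have e : (fun v : Fin 3 → ℝ => ((v i, (v (i + 1), v (i + 2))) : ℝ × (ℝ × ℝ))) =
      ⇑(e3 ℝ) ∘ (fun (v : Fin 3 → ℝ) (j : Fin 3) => v (i + j)) := by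
    funext v
    simp only [Function.comp_apply, e3_apply, add_zero]
  rw [e]
  exact h

/-- splitting of a matrix: diagonal and the pairs of the other entries of the rows -/
def spl (M : M3) : (Fin 3 → ℝ) × (Fin 3 → ℝ × ℝ) :=
  (fun i => M i i, fun i => (M i (i + 1), M i (i + 2)))

lemma spl_mp : MeasurePreserving spl (volume : Measure M3) volume := by
  have h1 : MeasurePreserving (fun (M : Fin 3 → Fin 3 → ℝ) (i : Fin 3) =>
      ((M i i, (M i (i + 1), M i (i + 2))) : ℝ × (ℝ × ℝ))) volume volume :=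
    volume_preserving_pi fun i => row_mp i
  have h2 := volume_measurePreserving_arrowProdEquivProdArrow ℝ (ℝ × ℝ) (Fin 3)
  exact h2.comp h1

/-! ### scaling -/

/-- scaling of the pairs -/
noncomputable def sc (d : Fin 3 → ℝ) : (Fin 3 → ℝ × ℝ) →ₗ[ℝ] (Fin 3 → ℝ × ℝ) :=
  LinearMap.pi fun i => (d i • (LinearMap.id : (ℝ × ℝ) →ₗ[ℝ] (ℝ × ℝ))).comp (LinearMap.proj i)

lemma sc_apply (d : Fin 3 → ℝ) (p : Fin 3 → ℝ × ℝ) (i : Fin 3) : sc d p i = d i • p i := rfl

lemma det_sc (d : Fin 3 → ℝ) : LinearMap.det (sc d) = d 0 ^ 2 * d 1 ^ 2 * d 2 ^ 2 := by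
  unfold sc
  rw [LinearMap.det_pi]
  simp [LinearMap.det_smul, Fin.prod_univ_three]

lemma sc_meas (d : Fin 3 → ℝ) : Measurable (sc d) :=
  (sc d).continuous_of_finiteDimensional.measurable

lemma lint_sc {d : Fin 3 → ℝ} (hd : ∀ i, 0 < d i) {G : (Fin 3 → ℝ × ℝ) → ℝ≥0∞}
    (hG : Measurable G) :
    ∫⁻ q, G q = ∫⁻ p, ENNReal.ofReal (d 0 ^ 2 * d 1 ^ 2 * d 2 ^ 2) * G (sc d p) := by
  have hpos : 0 < d 0 ^ 2 * d 1 ^ 2 * d 2 ^ 2 := by
    have h0 := hd 0
    have h1 := hd 1
    have h2 := hd 2
    positivity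
  have hdet : LinearMap.det (sc d) ≠ 0 := by rw [det_sc]; exact hpos.ne'
  have hmap := Measure.map_linearMap_addHaar_eq_smul_addHaar
    (volume : Measure (Fin 3 → ℝ × ℝ)) hdet
  rw [det_sc] at hmap
  have h1 : ∫⁻ p, G (sc d p) = ENNReal.ofReal |(d 0 ^ 2 * d 1 ^ 2 * d 2 ^ 2)⁻¹| * ∫⁻ q, G q := by
    rw [← lintegral_map hG (sc_meas d), hmap, lintegral_smul_measure, smul_eq_mul]
  have hGs : Measurable fun p => G (sc d p) := hG.comp (sc_meas d)
  rw [lintegral_const_mul _ hGs, h1, ← mul_assoc, ← ENNReal.ofReal_mul hpos.le,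
    abs_of_pos (inv_pos.mpr hpos), mul_inv_cancel₀ hpos.ne', ENNReal.ofReal_one, one_mul]

/-! ### the integral over the diagonal -/

/-- the window of one coordinate, with density `1/a` -/
noncomputable def uu (c a S : ℝ) : ℝ≥0∞ :=
  {q : ℝ × ℝ | 0 < q.1 ∧ q.2 < (c * q.1) ^ 3 ∧ (c * q.1) ^ 3 < Real.exp 3 * q.2}.indicator
    (fun q => ENNReal.ofReal q.1⁻¹) (a, S)

lemma uu_meas (c : ℝ) : Measurable fun q : ℝ × ℝ => uu c q.1 q.2 := by
  unfold uu
  refine Measurable.indicator (by fun_prop) ?_
  have m1 : MeasurableSet {q : ℝ × ℝ | 0 < q.1} := measurableSet_lt (by fun_prop) (by fun_prop)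
  have m2 : MeasurableSet {q : ℝ × ℝ | q.2 < (c * q.1) ^ 3} :=
    measurableSet_lt (by fun_prop) (by fun_prop)
  have m3 : MeasurableSet {q : ℝ × ℝ | (c * q.1) ^ 3 < Real.exp 3 * q.2} :=
    measurableSet_lt (by fun_prop) (by fun_prop)
  exact m1.inter (m2.inter m3)

lemma lint_inv {l : ℝ} (hl : 0 < l) :
    ∫⁻ a in Ioo l (Real.exp 1 * l), ENNReal.ofReal a⁻¹ = 1 := by
  have he : (1 : ℝ) < Real.exp 1 := Real.one_lt_exp_iff.mpr one_pos
  have hle : l ≤ Real.exp 1 * l := by nlinarith
  rw [← ofReal_integral_eq_lintegral_ofReal]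
  · rw [← integral_Ioc_eq_integral_Ioo, ← intervalIntegral.integral_of_le hle,
      integral_inv_of_pos hl (by positivity), mul_div_assoc, div_self hl.ne', mul_one,
      Real.log_exp, ENNReal.ofReal_one]
  · refine IntegrableOn.mono_set ?_ Ioo_subset_Icc_self
    refine ContinuousOn.integrableOn_Icc ?_
    exact continuousOn_inv₀.mono fun x hx => (lt_of_lt_of_le hl hx.1).ne'
  · refine (ae_restrict_iff' measurableSet_Ioo).mpr (Eventually.of_forall fun x hx => ?_)
    exact inv_nonneg.mpr (hl.trans hx.1).le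

lemma int_uu {c S : ℝ} (hc : 0 < c) (hS : 0 < S) : ∫⁻ a, uu c a S = 1 := by
  obtain ⟨s, hs, rfl⟩ : ∃ s : ℝ, 0 < s ∧ s ^ 3 = S := by
    refine ⟨S ^ (1 / 3 : ℝ), Real.rpow_pos_of_pos hS _, ?_⟩
    rw [← Real.rpow_natCast, ← Real.rpow_mul hS.le]
    norm_num
  have he : Real.exp 3 * s ^ 3 = (Real.exp 1 * s) ^ 3 := by
    rw [mul_pow, ← Real.exp_nat_mul]
    norm_num
  have h1 : ∀ a, uu c a (s ^ 3) =
      (Ioo (s / c) (Real.exp 1 * (s / c))).indicator (fun a => ENNReal.ofReal a⁻¹) a := by
    intro a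
    unfold uu
    by_cases ha : a ∈ Ioo (s / c) (Real.exp 1 * (s / c))
    · rw [indicator_of_mem ha, indicator_of_mem]
      have h2 : 0 < a := lt_trans (div_pos hs hc) ha.1
      have h3 : s < c * a := by
        have := ha.1
        rw [div_lt_iff₀ hc] at this
        linarith
      have h4 : c * a < Real.exp 1 * s := by
        have := ha.2
        rw [← mul_div_assoc, lt_div_iff₀ hc] at this
        linarith
      refine ⟨h2, ?_, ?_⟩
      · exact pow_lt_pow_left₀ h3 hs.le (by norm_num)
      · change (c * a) ^ 3 < Real.exp 3 * s ^ 3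
        rw [he]
        exact pow_lt_pow_left₀ h4 (by positivity) (by norm_num)
    · rw [indicator_of_notMem ha, indicator_of_notMem]
      rintro ⟨h2, h3, h4⟩
      apply ha
      have h2' : 0 < a := h2
      have h5 : s < c * a := lt_of_pow_lt_pow_left₀ 3 (by positivity) h3
      have h6 : c * a < Real.exp 1 * s := by
        change (c * a) ^ 3 < Real.exp 3 * s ^ 3 at h4
        rw [he] at h4
        exact lt_of_pow_lt_pow_left₀ 3 (by positivity) h4
      constructor
      · rw [div_lt_iff₀ hc]; linarith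
      · rw [← mul_div_assoc, lt_div_iff₀ hc]; linarith
  rw [lintegral_congr h1, lintegral_indicator measurableSet_Ioo]
  exact lint_inv (div_pos hs hc)

lemma lint_sq {T C : ℝ} (hT : 0 < T) (hC : 0 < C) :
    ∫⁻ S in Ioc 0 T, ENNReal.ofReal (S ^ 2 / C) = ENNReal.ofReal (T ^ 3 / 3 / C) := by
  rw [← ofReal_integral_eq_lintegral_ofReal]
  · rw [← intervalIntegral.integral_of_le hT.le]
    congr 1
    rw [intervalIntegral.integral_div, integral_pow]
    norm_num
  · refine IntegrableOn.mono_set ?_ Ioc_subset_Icc_self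
    exact ContinuousOn.integrableOn_Icc (by fun_prop)
  · exact Eventually.of_forall fun x => by positivity

/-- scaling of one variable -/
lemma lint_scale {r : ℝ} (hr : 0 < r) {G : ℝ → ℝ≥0∞} (hG : Measurable G) :
    ∫⁻ t, G t = ∫⁻ S, ENNReal.ofReal r⁻¹ * G (r⁻¹ * S) := by
  have hri : r⁻¹ ≠ 0 := (inv_pos.mpr hr).ne'
  have hm : Measurable fun S : ℝ => r⁻¹ * S := by fun_prop
  have hGm : Measurable fun S : ℝ => G (r⁻¹ * S) := hG.comp hm
  have h1 : ∫⁻ S, G (r⁻¹ * S) = ENNReal.ofReal |(r⁻¹)⁻¹| * ∫⁻ t, G t := by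
    rw [← lintegral_map hG hm, Real.map_volume_mul_left hri, lintegral_smul_measure, smul_eq_mul]
  rw [lintegral_const_mul _ hGm, h1, ← mul_assoc, ← ENNReal.ofReal_mul (inv_pos.mpr hr).le,
    inv_inv, abs_of_pos hr, inv_mul_cancel₀ hr.ne', ENNReal.ofReal_one, one_mul]

/-- the weight of the product `S` -/
noncomputable def ww (C κ S : ℝ) : ℝ≥0∞ :=
  (Ioc 0 (C / κ)).indicator (fun S => ENNReal.ofReal (S ^ 2 / C ^ 3)) S

lemma ww_meas (C κ : ℝ) : Measurable (ww C κ) :=
  Measurable.indicator (by fun_prop) measurableSet_Ioc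

/-- the region of the diagonals -/
def DD (c : Fin 3 → ℝ) (κ : ℝ) : Set (Fin 3 → ℝ) :=
  {d | (∀ i, 0 < d i) ∧ (∀ i : Fin 3, i ≠ 2 →
    (c 0 * d 0) * (c 1 * d 1) * (c 2 * d 2) < (c i * d i) ^ 3 ∧
    (c i * d i) ^ 3 < Real.exp 3 * ((c 0 * d 0) * (c 1 * d 1) * (c 2 * d 2))) ∧
    d 0 * d 1 * d 2 * κ ≤ 1}

lemma DD_meas (c : Fin 3 → ℝ) (κ : ℝ) : MeasurableSet (DD c κ) := by
  have : DD c κ = (⋂ i : Fin 3, {d : Fin 3 → ℝ | 0 < d i}) ∩
      ((⋂ i : Fin 3, ⋂ _ : i ≠ 2, ({d : Fin 3 → ℝ |
        (c 0 * d 0) * (c 1 * d 1) * (c 2 * d 2) < (c i * d i) ^ 3} ∩ {d : Fin 3 → ℝ |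
        (c i * d i) ^ 3 < Real.exp 3 * ((c 0 * d 0) * (c 1 * d 1) * (c 2 * d 2))})) ∩
      {d : Fin 3 → ℝ | d 0 * d 1 * d 2 * κ ≤ 1}) := by
    ext d
    simp only [DD, Set.mem_inter_iff, Set.mem_iInter, Set.mem_ofPred_eq]
  rw [this]
  refine MeasurableSet.inter (MeasurableSet.iInter fun i => ?_)
    (MeasurableSet.inter (MeasurableSet.iInter fun i => MeasurableSet.iInter fun _ => ?_) ?_)
  · exact measurableSet_lt measurable_const (by fun_prop)
  · exact (measurableSet_lt (by fun_prop) (by fun_prop)).inter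
      (measurableSet_lt (by fun_prop) (by fun_prop))
  · exact measurableSet_le (by fun_prop) (by fun_prop)

theorem inner {c : Fin 3 → ℝ} (hc : ∀ i, 0 < c i) {κ : ℝ} (hκ : 0 < κ) :
    ∫⁻ d, (DD c κ).indicator (fun d => ENNReal.ofReal (d 0 ^ 2 * d 1 ^ 2 * d 2 ^ 2)) d =
      ENNReal.ofReal (1 / 3 * κ⁻¹ ^ 3) := by
  set C := c 0 * c 1 * c 2 with hCdef
  have h0 := hc 0
  have h1 := hc 1
  have h2 := hc 2
  have hC : 0 < C := by positivity
  have hFm : Measurable fun d : Fin 3 → ℝ =>
      (DD c κ).indicator (fun d => ENNReal.ofReal (d 0 ^ 2 * d 1 ^ 2 * d 2 ^ 2)) d :=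
    Measurable.indicator (by fun_prop) (DD_meas c κ)
  rw [lint3 hFm]
  have hin : ∀ a b : ℝ, ∫⁻ t, (DD c κ).indicator
      (fun d => ENNReal.ofReal (d 0 ^ 2 * d 1 ^ 2 * d 2 ^ 2)) ![a, b, t] =
      ∫⁻ S, ww C κ S * uu (c 0) a S * uu (c 1) b S := by
    intro a b
    by_cases hab : 0 < a ∧ 0 < b
    · obtain ⟨ha, hb⟩ := hab
      have hr : 0 < C * a * b := by positivity
      rw [lint_scale hr (G := fun t => (DD c κ).indicator
        (fun d => ENNReal.ofReal (d 0 ^ 2 * d 1 ^ 2 * d 2 ^ 2)) ![a, b, t])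
        (hFm.comp (by fun_prop))]
      refine lintegral_congr fun S => ?_
      have e1 : ∀ q : ℝ, (C * a * b)⁻¹ * q = q / (C * a * b) := fun q => by
        rw [div_eq_inv_mul]
      set t := (C * a * b)⁻¹ * S with ht
      have hS : S = C * a * b * t := by rw [ht, ← mul_assoc, mul_inv_cancel₀ hr.ne', one_mul]
      have hprod : c 0 * a * (c 1 * b) * (c 2 * t) = S := by rw [hS, hCdef]; ring
      by_cases hS0 : 0 < S
      · have ht0 : 0 < t := mul_pos (inv_pos.mpr hr) hS0
        have hmem : (![a, b, t] : Fin 3 → ℝ) ∈ DD c κ ↔ (S ∈ Ioc 0 (C / κ)) ∧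
            (S < (c 0 * a) ^ 3 ∧ (c 0 * a) ^ 3 < Real.exp 3 * S) ∧
            (S < (c 1 * b) ^ 3 ∧ (c 1 * b) ^ 3 < Real.exp 3 * S) := by
          have hk : a * b * t * κ ≤ 1 ↔ S ≤ C / κ := by
            rw [le_div_iff₀ hκ, hS]
            constructor
            · intro h; nlinarith
            · intro h
              have : C * (a * b * t * κ) ≤ C * 1 := by linarith
              exact le_of_mul_le_mul_left this hC
          constructor
          · rintro ⟨g1, g2, g3⟩
            have g20 : c 0 * a * (c 1 * b) * (c 2 * t) < (c 0 * a) ^ 3 ∧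
                (c 0 * a) ^ 3 < Real.exp 3 * (c 0 * a * (c 1 * b) * (c 2 * t)) := g2 0 (by decide)
            have g21 : c 0 * a * (c 1 * b) * (c 2 * t) < (c 1 * b) ^ 3 ∧
                (c 1 * b) ^ 3 < Real.exp 3 * (c 0 * a * (c 1 * b) * (c 2 * t)) := g2 1 (by decide)
            rw [hprod] at g20 g21
            exact ⟨⟨hS0, hk.mp g3⟩, g20, g21⟩
          · rintro ⟨g1, g2, g3⟩
            refine ⟨?_, ?_, hk.mpr g1.2⟩
            · intro i
              fin_cases i
              · exact ha
              · exact hb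
              · exact ht0
            · intro i hi
              fin_cases i
              · change c 0 * a * (c 1 * b) * (c 2 * t) < (c 0 * a) ^ 3 ∧
                  (c 0 * a) ^ 3 < Real.exp 3 * (c 0 * a * (c 1 * b) * (c 2 * t))
                rw [hprod]; exact g2
              · change c 0 * a * (c 1 * b) * (c 2 * t) < (c 1 * b) ^ 3 ∧
                  (c 1 * b) ^ 3 < Real.exp 3 * (c 0 * a * (c 1 * b) * (c 2 * t))
                rw [hprod]; exact g3
              · exact absurd rfl hi
        by_cases hm : (![a, b, t] : Fin 3 → ℝ) ∈ DD c κ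
        · rw [indicator_of_mem hm]
          obtain ⟨hm1, hm2, hm3⟩ := hmem.mp hm
          unfold ww uu
          have n2 : ((a, S) : ℝ × ℝ) ∈ {q : ℝ × ℝ | 0 < q.1 ∧ q.2 < (c 0 * q.1) ^ 3 ∧
            (c 0 * q.1) ^ 3 < Real.exp 3 * q.2} := ⟨ha, hm2⟩
          have n3 : ((b, S) : ℝ × ℝ) ∈ {q : ℝ × ℝ | 0 < q.1 ∧ q.2 < (c 1 * q.1) ^ 3 ∧
            (c 1 * q.1) ^ 3 < Real.exp 3 * q.2} := ⟨hb, hm3⟩
          rw [indicator_of_mem hm1, indicator_of_mem n2, indicator_of_mem n3]
          rw [← ENNReal.ofReal_mul (by positivity), ← ENNReal.ofReal_mul (by positivity),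
            ← ENNReal.ofReal_mul (by positivity)]
          congr 1
          simp only [Matrix.cons_val_zero, Matrix.cons_val_one, Matrix.cons_val]
          rw [hS]
          field_simp
        · rw [indicator_of_notMem hm, mul_zero]
          rw [hmem] at hm
          symm
          by_contra hne
          apply hm
          have k1 : ww C κ S ≠ 0 := fun h => hne (by rw [h, zero_mul, zero_mul])
          have k2 : uu (c 0) a S ≠ 0 := fun h => hne (by rw [h, mul_zero, zero_mul])
          have k3 : uu (c 1) b S ≠ 0 := fun h => hne (by rw [h, mul_zero])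
          unfold ww at k1
          unfold uu at k2 k3
          exact ⟨mem_of_indicator_ne_zero k1, (mem_of_indicator_ne_zero k2).2,
            (mem_of_indicator_ne_zero k3).2⟩
      · have hw0 : ww C κ S = 0 := by
          unfold ww
          rw [indicator_of_notMem]
          exact fun hh => hS0 hh.1
        rw [hw0, zero_mul, zero_mul, indicator_of_notMem, mul_zero]
        intro hh
        have ht0 : 0 < t := hh.1 2
        exact hS0 (by rw [hS]; positivity)
    · have hz : ∀ S, uu (c 0) a S * uu (c 1) b S = 0 := by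
        intro S
        rw [not_and_or] at hab
        rcases hab with h | h
        · have : uu (c 0) a S = 0 := by
            unfold uu
            rw [indicator_of_notMem]
            exact fun hh => h hh.1
          rw [this, zero_mul]
        · have : uu (c 1) b S = 0 := by
            unfold uu
            rw [indicator_of_notMem]
            exact fun hh => h hh.1
          rw [this, mul_zero]
      simp only [mul_assoc, hz, mul_zero, lintegral_zero]
      rw [lintegral_congr (g := fun _ => 0) fun t => ?_, lintegral_zero]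
      rw [indicator_of_notMem]
      exact fun hh => hab ⟨hh.1 0, hh.1 1⟩
  rw [lintegral_congr fun a => lintegral_congr fun b => hin a b]
  have hw := ww_meas C κ
  have s1 : ∀ a, ∫⁻ b, ∫⁻ S, ww C κ S * uu (c 0) a S * uu (c 1) b S =
      ∫⁻ S, ww C κ S * uu (c 0) a S := by
    intro a
    have hm1 : Measurable fun S => ww C κ S * uu (c 0) a S :=
      hw.mul ((uu_meas (c 0)).comp (measurable_prodMk_left (x := a)))
    rw [lintegral_lintegral_swap]
    · refine lintegral_congr fun S => ?_
      have hm2 : Measurable fun b => uu (c 1) b S :=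
        (uu_meas (c 1)).comp (measurable_prodMk_right (y := S))
      rw [lintegral_const_mul _ hm2]
      by_cases hS : 0 < S
      · rw [int_uu h1 hS, mul_one]
      · have : ww C κ S = 0 := by
          unfold ww
          rw [indicator_of_notMem]
          exact fun hh => hS hh.1
        rw [this]
        simp
    · refine Measurable.aemeasurable ?_
      exact (hm1.comp measurable_snd).mul (uu_meas (c 1))
  rw [lintegral_congr s1, lintegral_lintegral_swap]
  · have s2 : ∀ S, ∫⁻ a, ww C κ S * uu (c 0) a S = ww C κ S := by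
      intro S
      have hm2 : Measurable fun a => uu (c 0) a S :=
        (uu_meas (c 0)).comp (measurable_prodMk_right (y := S))
      rw [lintegral_const_mul _ hm2]
      by_cases hS : 0 < S
      · rw [int_uu h0 hS, mul_one]
      · have : ww C κ S = 0 := by
          unfold ww
          rw [indicator_of_notMem]
          exact fun hh => hS hh.1
        rw [this]
        simp
    rw [lintegral_congr s2]
    unfold ww
    rw [lintegral_indicator measurableSet_Ioc, lint_sq (by positivity) (by positivity)]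
    congr 1
    field_simp
  · refine Measurable.aemeasurable ?_
    exact (hw.comp measurable_snd).mul (uu_meas (c 0))

end SAIL.VC
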